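import Pool.Agent.SplAll.Defs

set_option autoImplicit false

/-!
PRCL.  If U is closed in t, x ∈ U, then U is closed in splay x t.
-/

namespace Pool.Agent.SplAll

open BinaryTree Pool.Agent.MP_c42954_lc.Scan Pool.Agent.SplPat

theorem PRCL_dbl {x p g : ℕ} {t t' : BinaryTree ℕ} (h : Dbl x p g t t') (hb : IsBST t) (y : ℕ) :
    ∀ v ∈ ancs y t', v ∈ ancs y t ∨ v = x ∨ v = p ∨ v = g := by
  induction h with
  | ll A B C D h1 h2 =>
    have hpg : p < g := (bst_node.1 hb).2.2.1 p (by simp [inorder])
    intro v hv
    simp only [ancs] at hv ⊢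
    split_ifs at hv ⊢ <;> simp only [List.mem_append, List.mem_singleton, List.not_mem_nil] at hv ⊢ <;>
      first | omega | tauto
  | rr A B C D h1 h2 =>
    have hpg : g < p := (bst_node.1 hb).2.2.2 p (by simp [inorder])
    intro v hv
    simp only [ancs] at hv ⊢
    split_ifs at hv ⊢ <;> simp only [List.mem_append, List.mem_singleton, List.not_mem_nil] at hv ⊢ <;>
      first | omega | tauto
  | lr A B C D h1 h2 =>
    intro v hv
    simp only [ancs] at hv ⊢
    split_ifs at hv ⊢ <;> simp only [List.mem_append, List.mem_singleton, List.not_mem_nil] at hv ⊢ <;>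
      first | omega | tauto
  | rl A B C D h1 h2 =>
    intro v hv
    simp only [ancs] at hv ⊢
    split_ifs at hv ⊢ <;> simp only [List.mem_append, List.mem_singleton, List.not_mem_nil] at hv ⊢ <;>
      first | omega | tauto
  | inL a r h1 h2 ih =>
    have ih' := ih (bst_node.1 hb).1
    intro v hv
    simp only [ancs] at hv ⊢
    split_ifs at hv ⊢
    · simp at hv
    · simp only [List.mem_append, List.mem_singleton] at hv ⊢
      rcases hv with hv | hv
      · rcases ih' v hv with h | h
        · exact Or.inl (Or.inl h)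
        · exact Or.inr h
      · exact Or.inl (Or.inr hv)
    · exact Or.inl hv
  | inR a l h1 h2 ih =>
    have ih' := ih (bst_node.1 hb).2.1
    intro v hv
    simp only [ancs] at hv ⊢
    split_ifs at hv ⊢
    · simp at hv
    · exact Or.inl hv
    · simp only [List.mem_append, List.mem_singleton] at hv ⊢
      rcases hv with hv | hv
      · rcases ih' v hv with h | h
        · exact Or.inl (Or.inl h)
        · exact Or.inr h
      · exact Or.inl (Or.inr hv)

theorem PRCL_zig {x z : ℕ} {t t' : BinaryTree ℕ} (h : Zig x z t t') (y : ℕ) :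
    ∀ v ∈ ancs y t', v ∈ ancs y t ∨ v = x ∨ v = z := by
  cases h with
  | left A B C h1 =>
    intro v hv
    simp only [ancs] at hv ⊢
    split_ifs at hv ⊢ <;> simp only [List.mem_append, List.mem_singleton, List.not_mem_nil] at hv ⊢ <;>
      first | omega | tauto
  | right A B C h1 =>
    intro v hv
    simp only [ancs] at hv ⊢
    split_ifs at hv ⊢ <;> simp only [List.mem_append, List.mem_singleton, List.not_mem_nil] at hv ⊢ <;>
      first | omega | tauto

theorem PRCL_main {x : ℕ} {t : BinaryTree ℕ} (hb : IsBST t) (hm : x ∈ inorder t) :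
    ∀ y, ∀ v ∈ ancs y (splay x t), v ∈ ancs y t ∨ v = x ∨ v ∈ ancs x t := by
  refine splay_induct
    (P := fun t t' => ∀ y, ∀ v ∈ ancs y t', v ∈ ancs y t ∨ v = x ∨ v ∈ ancs x t) ?_ ?_ ?_ hb hm
  · intro t _ _ y v hv
    exact Or.inl hv
  · intro z t t' _ _ _ hz y v hv
    rcases PRCL_zig hz y v hv with h | h | h
    · exact Or.inl h
    · exact Or.inr (Or.inl h)
    · refine Or.inr (Or.inr ?_)
      rw [zig_ancs hz, h]
      simp
  · intro p g d t t' t'' hb' _ _ _ _ hd ih y v hv
    rcases ih y v hv with h | h | h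
    · rcases PRCL_dbl hd hb' y v h with h | h | h | h
      · exact Or.inl h
      · exact Or.inr (Or.inl h)
      · refine Or.inr (Or.inr ?_)
        rw [dbl_ancs hd, h]
        simp
      · refine Or.inr (Or.inr ?_)
        rw [dbl_ancs hd, h]
        simp
    · exact Or.inr (Or.inl h)
    · refine Or.inr (Or.inr ?_)
      rw [dbl_ancs hd]
      simp [h]

theorem closed_splay {U : Finset ℕ} {x : ℕ} {t : BinaryTree ℕ} (hb : IsBST t)
    (hm : x ∈ inorder t) (hx : x ∈ U) (hU : Closed U t) : Closed U (splay x t) := by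
  intro y hy hmy v hv
  rw [splay_inorder hb hm] at hmy
  rcases PRCL_main hb hm y v hv with h | h | h
  · exact hU y hy hmy v h
  · rw [h]; exact hx
  · exact hU x hx hm v h

end Pool.Agent.SplAll
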