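import Pool.Agent.SplAll.Defs

set_option autoImplicit false

/-!
UCARD.  The number of ancestors of requests is at most the cost of any execution.
-/

namespace Pool.Agent.SplAll

open BinaryTree Pool.Agent.MP_c42954_lc.Scan Pool.Agent.SplPat

theorem UCARD_rot_inorder {t t' : BinaryTree ℕ} (h : Rot t t') : inorder t' = inorder t := by
  induction h with
  | atLeftChild a b A B C => simp [inorder]
  | atRightChild a b A B C => simp [inorder]
  | inLeft c r h ih => simp [inorder, ih]
  | inRight c l h ih => simp [inorder, ih]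

theorem UCARD_rot_bst {t t' : BinaryTree ℕ} (h : Rot t t') (hb : IsBST t) : IsBST t' := by
  unfold IsBST; rw [UCARD_rot_inorder h]; exact hb

theorem UCARD_rot {t t' : BinaryTree ℕ} (h : Rot t t') (hb : IsBST t) :
    ∃ p, ∀ y, ∀ v ∈ ancs y t, v ∈ ancs y t' ∨ v = y ∨ v = p := by
  induction h with
  | atLeftChild a b A B C =>
    refine ⟨a, ?_⟩
    have hba : b < a := (bst_node.1 hb).2.2.1 b (by simp [inorder])
    intro y v hv
    simp only [ancs] at hv ⊢
    split_ifs at hv ⊢ <;> simp only [List.mem_append, List.mem_singleton, List.not_mem_nil] at hv ⊢ <;>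
      first | omega | tauto
  | atRightChild a b A B C =>
    refine ⟨a, ?_⟩
    have hba : a < b := (bst_node.1 hb).2.2.2 b (by simp [inorder])
    intro y v hv
    simp only [ancs] at hv ⊢
    split_ifs at hv ⊢ <;> simp only [List.mem_append, List.mem_singleton, List.not_mem_nil] at hv ⊢ <;>
      first | omega | tauto
  | inLeft c r h ih =>
    obtain ⟨p, hp⟩ := ih (bst_node.1 hb).1
    refine ⟨p, ?_⟩
    intro y v hv
    simp only [ancs] at hv ⊢
    split_ifs at hv ⊢
    · simp at hv
    · simp only [List.mem_append, List.mem_singleton] at hv ⊢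
      rcases hv with hv | hv
      · rcases hp y v hv with h | h
        · exact Or.inl (Or.inl h)
        · exact Or.inr h
      · exact Or.inl (Or.inr hv)
    · exact Or.inl hv
  | inRight c l h ih =>
    obtain ⟨p, hp⟩ := ih (bst_node.1 hb).2.1
    refine ⟨p, ?_⟩
    intro y v hv
    simp only [ancs] at hv ⊢
    split_ifs at hv ⊢
    · simp at hv
    · exact Or.inl hv
    · simp only [List.mem_append, List.mem_singleton] at hv ⊢
      rcases hv with hv | hv
      · rcases hp y v hv with h | h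
        · exact Or.inl (Or.inl h)
        · exact Or.inr h
      · exact Or.inl (Or.inr hv)

theorem UCARD_mem {X : List ℕ} {T : BinaryTree ℕ} {v : ℕ} :
    v ∈ Un X T ↔ ∃ x ∈ X, v = x ∨ v ∈ ancs x T := by
  simp [Un]

theorem UCARD_step {t t' : BinaryTree ℕ} (h : Rot t t') (hb : IsBST t) (X : List ℕ) :
    (Un X t).card ≤ (Un X t').card + 1 := by
  obtain ⟨p, hp⟩ := UCARD_rot h hb
  have h1 : Un X t ⊆ insert p (Un X t') := by
    intro v hv
    obtain ⟨x, hx, h2⟩ := UCARD_mem.1 hv
    rw [Finset.mem_insert]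
    rcases h2 with h2 | h2
    · exact Or.inr (UCARD_mem.2 ⟨x, hx, Or.inl h2⟩)
    · rcases hp x v h2 with h3 | h3 | h3
      · exact Or.inr (UCARD_mem.2 ⟨x, hx, Or.inr h3⟩)
      · exact Or.inr (UCARD_mem.2 ⟨x, hx, Or.inl h3⟩)
      · exact Or.inl h3
  exact (Finset.card_le_card h1).trans (Finset.card_insert_le _ _)

theorem UCARD_seq {e : ℕ} {t t' : BinaryTree ℕ} (h : RotSeq e t t') (hb : IsBST t) (X : List ℕ) :
    (Un X t).card ≤ (Un X t').card + e ∧ IsBST t' ∧ inorder t' = inorder t := by
  induction h with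
  | refl t => exact ⟨le_rfl, hb, rfl⟩
  | step h1 h2 ih =>
    obtain ⟨h3, h4, h5⟩ := ih (UCARD_rot_bst h1 hb)
    have h6 := UCARD_step h1 hb X
    exact ⟨by omega, h4, h5.trans (UCARD_rot_inorder h1)⟩

theorem ucard {T : BinaryTree ℕ} {X : List ℕ} {c : ℕ} (h : Exec T X c) (hb : IsBST T)
    (hX : ∀ x ∈ X, x ∈ inorder T) : (Un X T).card ≤ c := by
  induction h with
  | nil T => simp [Un]
  | @cons T T' x X e c h1 h2 ih =>
    obtain ⟨h3, h4, h5⟩ := UCARD_seq h1 hb X
    have h6 := ih h4 (fun y hy => by rw [h5]; exact hX y (List.mem_cons_of_mem _ hy))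
    have h7 : Un (x :: X) T ⊆ insert x (ancs x T).toFinset ∪ Un X T := by
      intro v hv
      obtain ⟨y, hy, h8⟩ := UCARD_mem.1 hv
      rcases List.mem_cons.1 hy with rfl | hy
      · simp only [Finset.mem_union, Finset.mem_insert, List.mem_toFinset]
        exact Or.inl h8
      · exact Finset.mem_union_right _ (UCARD_mem.2 ⟨y, hy, h8⟩)
    have h8 := Finset.card_le_card h7
    have h9 := Finset.card_union_le (insert x (ancs x T).toFinset) (Un X T)
    have h10 := Finset.card_insert_le x (ancs x T).toFinset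
    have h11 := List.toFinset_card_le (ancs x T)
    rw [ancs_length] at h11
    omega

theorem closed_Un {T : BinaryTree ℕ} {X : List ℕ} (hb : IsBST T) (hX : ∀ x ∈ X, x ∈ inorder T) :
    Closed (Un X T) T := by
  intro x hx hm v hv
  obtain ⟨y, hy, h⟩ := UCARD_mem.1 hx
  rcases h with h | h
  · subst h
    exact UCARD_mem.2 ⟨x, hy, Or.inr hv⟩
  · have h1 := (mem_ancs hb (hX y hy)).1 h
    have h2 := (mem_ancs hb hm).1 hv
    have h3 := onP_trans hb h2.1 h1.1
    by_cases h4 : v = y
    · exact UCARD_mem.2 ⟨y, hy, Or.inl h4⟩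
    · exact UCARD_mem.2 ⟨y, hy, Or.inr ((mem_ancs hb (hX y hy)).2 ⟨h3, h4⟩)⟩

end Pool.Agent.SplAll
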