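import Pool.Agent.SplAll.Defs
import Pool.Agent.SplPat.FS
import Pool.Agent.SplPat.FX

set_option autoImplicit false

/-!
ZSUM.  Every pair (p, g) counted on the left is counted for only one (j', i): the level j' with p / N^j' ≠ g / N^j' and
p / N^j' / N = g / N^j' / N = i is unique, and x is not in this group i.  Let j be the least level with x / N^j / N =
g / N^j / N (it exists and is < l, since x, g < N^l; l > 0 as j' < l).  At level j' we have x / N^j' / N ≠ i = g / N^j' / N,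
so j > j' (equality at a level implies equality at all higher levels), and by minimality x / N^j ≠ g / N^j
(= (.)/N^(j-1)/N).  Since j ≥ j'+1: p / N^j = g / N^j =: c.  So c is a block of level j of the group of x, c ≠ x / N^j,
and (p, g) is a pair inside the block c, which does not contain x: if x < c N^j then g ∈ R(c N^j) (`anc_Rg`), g is lost
(`F1R`, c N^j ≤ p), so g is counted by pop x (c N^j) ((c+1) N^j) t; similarly for x > the block (`anc_Lg`, `F1L`).
The map (p, g) ↦ g is injective (ancs x t has no duplicates, `pairUp_snd_inj`), and each g is counted on the right at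
the level j, block c given by x, g.  So the left sum ≤ the right sum.  (j ↦ N^j: N ≥ 1.)
-/

namespace Pool.Agent.SplAll

open BinaryTree Pool.Agent.MP_c42954_lc.Scan Pool.Agent.SplPat

theorem ZSum_anc {x v : ℕ} : ∀ {t : BinaryTree ℕ}, v ∈ ancs x t → v ∈ inorder t
  | .nil, h => by simp [ancs] at h
  | .node a l r, h => by
      simp only [ancs] at h
      split_ifs at h with h1 h2
      · simp at h
      · rw [List.mem_append, List.mem_singleton] at h
        rcases h with h | rfl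
        · simp [inorder, ZSum_anc h]
        · simp [inorder]
      · rw [List.mem_append, List.mem_singleton] at h
        rcases h with h | rfl
        · simp [inorder, ZSum_anc h]
        · simp [inorder]

/-- The upper nodes of the pairs counted by `zc`. -/
def ZSum_Z (b lo hi x : ℕ) (t : BinaryTree ℕ) : Finset ℕ :=
  (((pairUp (ancs x t)).filter (fun q => (lo ≤ q.1 ∧ q.1 < hi) ∧ (lo ≤ q.2 ∧ q.2 < hi) ∧
    q.1 / b ≠ q.2 / b)).map Prod.snd).toFinset

/-- The nodes counted by `pop`. -/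
def ZSum_P (x a a' : ℕ) (t : BinaryTree ℕ) : Finset ℕ :=
  if x < a then (((Rg a t).filter (fun v => v < a')) \ Rg a (splay x t))
  else (((Lg a' t).filter (fun v => a ≤ v)) \ Lg a' (splay x t))

theorem ZSum_pop (x a a' : ℕ) (t : BinaryTree ℕ) : pop x a a' t = (ZSum_P x a a' t).card := by
  unfold pop ZSum_P
  split_ifs <;> rfl

theorem ZSum_zc {b lo hi x : ℕ} {t : BinaryTree ℕ} (hb : IsBST t) (hm : x ∈ inorder t) :
    zc b lo hi x t = (ZSum_Z b lo hi x t).card := by
  have hnd : (((pairUp (ancs x t)).filter (fun q => (lo ≤ q.1 ∧ q.1 < hi) ∧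
      (lo ≤ q.2 ∧ q.2 < hi) ∧ q.1 / b ≠ q.2 / b)).map Prod.snd).Nodup :=
    ((List.filter_sublist.map Prod.snd).trans (FX_snd (ancs x t))).nodup (ancs_nodup hb hm)
  rw [ZSum_Z, List.toFinset_card_of_nodup hnd, List.length_map]
  rfl

theorem ZSum_mem {b lo hi x g : ℕ} {t : BinaryTree ℕ} (h : g ∈ ZSum_Z b lo hi x t) :
    ∃ p, (p, g) ∈ pairUp (ancs x t) ∧ (lo ≤ p ∧ p < hi) ∧ (lo ≤ g ∧ g < hi) ∧ p / b ≠ g / b := by
  rw [ZSum_Z, List.mem_toFinset, List.mem_map] at h
  obtain ⟨⟨p, g'⟩, hq, rfl⟩ := h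
  rw [List.mem_filter] at hq
  obtain ⟨hq1, hq2⟩ := hq
  simp only [decide_eq_true_eq] at hq2
  exact ⟨p, hq1, hq2⟩

theorem ZSum_uniq {x p p' g : ℕ} {t : BinaryTree ℕ} (hb : IsBST t) (hm : x ∈ inorder t)
    (h : (p, g) ∈ pairUp (ancs x t)) (h' : (p', g) ∈ pairUp (ancs x t)) : p = p' := by
  have hnd : ((pairUp (ancs x t)).map Prod.snd).Nodup :=
    (FX_snd (ancs x t)).nodup (ancs_nodup hb hm)
  have := List.inj_on_of_nodup_map hnd h h' rfl
  exact congrArg Prod.fst this

theorem ZSum_div {N j i v : ℕ} (hN : 2 ≤ N) :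
    (i * N * N ^ j ≤ v ∧ v < (i + 1) * N * N ^ j) ↔ v / N ^ j / N = i := by
  have h0 : 0 < N ^ j := Nat.pos_of_ne_zero (by positivity)
  have h1 : 0 < N := by omega
  rw [Nat.div_div_eq_div_mul, Nat.div_eq_iff (by positivity)]
  have e1 : i * (N ^ j * N) = i * N * N ^ j := by ring
  have e2 : (i + 1) * (N ^ j * N) = (i + 1) * N * N ^ j := by ring
  have e3 : 0 < N ^ j * N := by positivity
  rw [← e1, ← e2]
  constructor
  · rintro ⟨k1, k2⟩
    rw [add_mul] at k2
    omega
  · rintro ⟨k1, k2⟩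
    rw [add_mul]
    omega

theorem ZSum_blk {b c v : ℕ} (hb : 0 < b) : (c * b ≤ v ∧ v < (c + 1) * b) ↔ v / b = c := by
  rw [Nat.div_eq_iff hb, add_mul]
  omega

theorem ZSum_up {N j j' u v : ℕ} (h : u / N ^ j / N = v / N ^ j / N) (hj : j < j') :
    u / N ^ j' = v / N ^ j' := by
  obtain ⟨k, rfl⟩ := Nat.exists_eq_add_of_le (Nat.succ_le_of_lt hj)
  rw [Nat.succ_eq_add_one, pow_add, pow_succ, ← Nat.div_div_eq_div_mul, ← Nat.div_div_eq_div_mul,
    ← Nat.div_div_eq_div_mul, ← Nat.div_div_eq_div_mul, h]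

theorem ZSum_cover {N l j' i g x : ℕ} {t : BinaryTree ℕ} (hb : IsBST t) (hm : x ∈ inorder t)
    (hN : 2 ≤ N) (hM : ∀ v ∈ inorder t, v < N ^ l) (hj' : j' < l) (hi : i ≠ x / N ^ j' / N)
    (hg : g ∈ ZSum_Z (N ^ j') (i * N * N ^ j') ((i + 1) * N * N ^ j') x t) :
    ∃ j < l, ∃ c ∈ (Finset.Ico (x / N ^ j / N * N) ((x / N ^ j / N + 1) * N)).erase (x / N ^ j),
      g ∈ ZSum_P x (c * N ^ j) ((c + 1) * N ^ j) t := by
  obtain ⟨p, hp, h1, h2, h3⟩ := ZSum_mem hg
  rw [ZSum_div hN] at h1 h2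
  have hga : g ∈ ancs x t := (mem_pairUp hp).2
  have hgt : g ∈ inorder t := ZSum_anc hga
  have hex : ∃ j, x / N ^ j / N = g / N ^ j / N := by
    refine ⟨l, ?_⟩
    rw [Nat.div_eq_of_lt (hM x hm), Nat.div_eq_of_lt (hM g hgt)]
  classical
  set j := Nat.find hex with hjdef
  have hj := Nat.find_spec hex
  rw [← hjdef] at hj
  have hjl : j < l := by
    have hl1 : x / N ^ (l - 1) / N = g / N ^ (l - 1) / N := by
      have e : N ^ (l - 1) * N = N ^ l := by
        rw [← pow_succ]; congr 1; omega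
      rw [Nat.div_div_eq_div_mul, Nat.div_div_eq_div_mul, e, Nat.div_eq_of_lt (hM x hm),
        Nat.div_eq_of_lt (hM g hgt)]
    have := Nat.find_min' hex hl1
    omega
  have hjj : j' < j := by
    by_contra hc
    rcases Nat.lt_or_ge j j' with h | h
    · have := ZSum_up hj h
      rw [h2.symm, this] at hi
      exact hi rfl
    · have : j = j' := by omega
      rw [this, h2] at hj
      exact hi hj.symm
  have hne : x / N ^ j ≠ g / N ^ j := by
    intro h
    have h4 := Nat.find_min hex (m := j - 1) (by omega)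
    apply h4
    have e : N ^ (j - 1) * N = N ^ j := by
      rw [← pow_succ]; congr 1; omega
    rw [Nat.div_div_eq_div_mul, Nat.div_div_eq_div_mul, e, h]
  have hpg : p / N ^ j = g / N ^ j := ZSum_up (h1.trans h2.symm) hjj
  have hN0 : 0 < N ^ j := Nat.pos_of_ne_zero (by positivity)
  refine ⟨j, hjl, g / N ^ j, ?_, ?_⟩
  · rw [Finset.mem_erase, Finset.mem_Ico]
    refine ⟨fun h => hne h.symm, ?_⟩
    rw [ZSum_blk (by omega), hj]
  · have hg2 := (ZSum_blk hN0).2 (rfl : g / N ^ j = g / N ^ j)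
    have hp2 := (ZSum_blk hN0).2 hpg
    unfold ZSum_P
    by_cases hx : x < g / N ^ j * N ^ j
    · rw [if_pos hx, Finset.mem_sdiff, Finset.mem_filter]
      refine ⟨⟨anc_Rg hb hm hx hga hg2.1, hg2.2⟩, ?_⟩
      rw [F1R hb hm hx]
      rintro ⟨_, h3⟩
      exact h3 ⟨p, hp, hp2.1⟩
    · rw [if_neg hx]
      have hx2 : (g / N ^ j + 1) * N ^ j ≤ x := by
        by_contra hc
        exact hne ((ZSum_blk hN0).1 ⟨not_lt.1 hx, not_le.1 hc⟩)
      rw [Finset.mem_sdiff, Finset.mem_filter]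
      refine ⟨⟨anc_Lg hb hm hx2 hga hg2.2, hg2.1⟩, ?_⟩
      rw [F1L hb hm hx2]
      rintro ⟨_, h3⟩
      exact h3 ⟨p, hp, hp2.2⟩

theorem ZSUM {N l M x : ℕ} {t : BinaryTree ℕ} (hb : IsBST t) (hm : x ∈ inorder t) (hN : 2 ≤ N)
    (hM : ∀ v ∈ inorder t, v < N ^ l) :
    ∑ j ∈ Finset.range l, ∑ i ∈ (Finset.range M).erase (x / N ^ j / N),
      zc (N ^ j) (i * N * N ^ j) ((i + 1) * N * N ^ j) x t ≤
    ∑ j ∈ Finset.range l,
      ∑ c ∈ (Finset.Ico (x / N ^ j / N * N) ((x / N ^ j / N + 1) * N)).erase (x / N ^ j),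
        pop x (c * N ^ j) ((c + 1) * N ^ j) t := by
  classical
  simp_rw [ZSum_zc hb hm, ZSum_pop]
  rw [Finset.sum_sigma', Finset.sum_sigma', ← Finset.card_biUnion]
  · refine le_trans (Finset.card_le_card ?_) Finset.card_biUnion_le
    intro g hg
    rw [Finset.mem_biUnion] at hg ⊢
    obtain ⟨⟨j', i⟩, hji, hg⟩ := hg
    rw [Finset.mem_sigma, Finset.mem_range, Finset.mem_erase] at hji
    obtain ⟨j, hj, c, hc, hgc⟩ := ZSum_cover hb hm hN hM hji.1 hji.2.1 hg
    exact ⟨⟨j, c⟩, Finset.mem_sigma.2 ⟨Finset.mem_range.2 hj, hc⟩, hgc⟩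
  · rintro ⟨j, i⟩ _ ⟨j', i'⟩ _ hne
    rw [Function.onFun, Finset.disjoint_left]
    intro g hg hg'
    obtain ⟨p, hp, h1, h2, h3⟩ := ZSum_mem hg
    obtain ⟨p', hp', h1', h2', h3'⟩ := ZSum_mem hg'
    have hpp := ZSum_uniq hb hm hp hp'
    subst hpp
    dsimp only at h1 h2 h3 h1' h2' h3'
    rw [ZSum_div hN] at h1 h2 h1' h2'
    have hjj : j = j' := by
      rcases Nat.lt_trichotomy j j' with h | h | h
      · exact absurd (ZSum_up (h1.trans h2.symm) h) h3'
      · exact h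
      · exact absurd (ZSum_up (h1'.trans h2'.symm) h) h3
    subst hjj
    apply hne
    rw [← h1, ← h1']

end Pool.Agent.SplAll
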