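import Pool.Agent.SplAll.FXC
import Pool.Agent.SplAll.ZSum
import Pool.Agent.SplPat.FS
import Pool.Agent.SplPat.FE
import Pool.Agent.SplPat.FD
import Pool.Agent.SplPat.RS
import Pool.Agent.SplPat.Depth

set_option autoImplicit false

/-!
ASTEP (one request, all levels).
-/

namespace Pool.Agent.SplAll

open BinaryTree Pool.Agent.MP_c42954_lc.Scan Pool.Agent.SplPat

private theorem AStep_succ (N x j : ℕ) : x / N ^ (j + 1) = x / N ^ j / N := by
  rw [pow_succ, Nat.div_div_eq_div_mul]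

/-- The borders of the group of `x`. -/
private theorem AStep_grp {b N x : ℕ} (h0 : 0 < b) (hN : 0 < N) :
    x / b / N * N * b ≤ x ∧ x < (x / b / N + 1) * N * b := by
  have h1 : x / b / N * N ≤ x / b := Nat.div_mul_le_self _ _
  have h2 : x / b / N < x / b / N + 1 := Nat.lt_succ_self _
  rw [Nat.div_lt_iff_lt_mul hN, Nat.div_lt_iff_lt_mul h0] at h2
  exact ⟨(Nat.mul_le_mul_right b h1).trans (Nat.div_mul_le_self x b), h2⟩

/-- The borders of the block of `x`. -/
private theorem AStep_blk {b x : ℕ} (h0 : 0 < b) : x / b * b ≤ x ∧ x < (x / b + 1) * b := by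
  refine ⟨Nat.div_mul_le_self x b, ?_⟩
  have := Nat.lt_div_mul_add (a := x) h0
  have e : (x / b + 1) * b = x / b * b + b := by ring
  omega

/-- `x` lies outside the other blocks. -/
private theorem AStep_out {b i x : ℕ} (h0 : 0 < b) (hi : i ≠ x / b) :
    x < i * b ∨ (i + 1) * b ≤ x := by
  rcases Nat.lt_or_ge (x / b) i with h | h
  · left
    rwa [Nat.div_lt_iff_lt_mul h0] at h
  · right
    have h3 : i + 1 ≤ x / b := by omega
    rwa [Nat.le_div_iff_mul_le h0] at h3

private theorem AStep_depth {N l x : ℕ} {t : BinaryTree ℕ} (hb : IsBST t) (hm : x ∈ inorder t)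
    (hN : 0 < N) (hM : ∀ v ∈ inorder t, v < N ^ l) :
    depth x t ≤ ∑ j ∈ Finset.range l,
      dJ (N ^ j) (x / N ^ j / N * N * N ^ j) ((x / N ^ j / N + 1) * N * N ^ j) x t := by
  have h := depth_le (l := l) (fun j => N ^ j) hb hm hM (pow_zero N) (fun j => Nat.pow_pos hN)
  have h0 : dJ (N ^ l) 0 (N ^ l) x t = 0 := by
    unfold dJ
    rw [List.length_eq_zero_iff, List.filter_eq_nil_iff]
    intro v hv
    unfold ancJ at hv
    rw [List.mem_filter] at hv
    have h1 : v < N ^ l := hM v (onP_mem ((mem_ancs hb hm).1 hv.1).1)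
    rw [decide_eq_true_eq, Nat.div_eq_of_lt h1, Nat.div_eq_of_lt (hM x hm)]
    exact fun h => h rfl
  refine h.trans ?_
  change ∑ j ∈ Finset.range l, dJ (N ^ j) (N ^ (j + 1) * (x / N ^ (j + 1)))
      (N ^ (j + 1) * (x / N ^ (j + 1)) + N ^ (j + 1)) x t + dJ (N ^ l) 0 (N ^ l) x t ≤ _
  rw [h0, add_zero]
  refine le_of_eq (Finset.sum_congr rfl fun j _ => ?_)
  have e1 : N ^ (j + 1) * (x / N ^ (j + 1)) = x / N ^ j / N * N * N ^ j := by
    rw [AStep_succ, pow_succ]
    ring
  have e2 : N ^ (j + 1) * (x / N ^ (j + 1)) + N ^ (j + 1) =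
      (x / N ^ j / N + 1) * N * N ^ j := by
    rw [AStep_succ, pow_succ]
    ring
  rw [e2, e1]

private theorem AStep_dJ {b N x : ℕ} {t : BinaryTree ℕ} (hb : IsBST t) (hm : x ∈ inorder t)
    (h0 : 0 < b) (hN : 0 < N) :
    dJ b (x / b / N * N * b) ((x / b / N + 1) * N * b) x t ≤
      2 * ∑ c ∈ (Finset.Ico (x / b / N * N) ((x / b / N + 1) * N)).erase (x / b),
        pop x (c * b) ((c + 1) * b) t +
      2 * ch b (x / b / N * N * b) ((x / b / N + 1) * N * b) x t +
      2 * van x (x / b / N * N * b) ((x / b / N + 1) * N * b) t := by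
  obtain ⟨g1, g2⟩ := AStep_grp (x := x) h0 hN
  rw [DS h0]
  have h1 : ∑ i ∈ (Finset.Ico (x / b / N * N) ((x / b / N + 1) * N)).erase (x / b), cnt b i x t ≤
      ∑ i ∈ (Finset.Ico (x / b / N * N) ((x / b / N + 1) * N)).erase (x / b),
        (2 * pop x (i * b) ((i + 1) * b) t + 2 * rs b i x t) :=
    Finset.sum_le_sum fun i hi => FD hb hm h0 (Finset.ne_of_mem_erase hi)
  rw [Finset.sum_add_distrib, ← Finset.mul_sum, ← Finset.mul_sum] at h1
  have h2 := RS hb hm h0 g1 g2
  omega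

private theorem AStep_E {b N M x : ℕ} {t : BinaryTree ℕ} (hb : IsBST t) (hm : x ∈ inorder t)
    (h0 : 0 < b) (hN : 0 < N) (hM : x / b / N < M) :
    ∑ i ∈ Finset.range M, edg b (res (i * N * b) ((i + 1) * N * b) (splay x t)) +
      ch b (x / b / N * N * b) ((x / b / N + 1) * N * b) x t ≤
    ∑ i ∈ Finset.range M, edg b (res (i * N * b) ((i + 1) * N * b) t) + 3 * qq b N x t + 2 +
      2 * ∑ i ∈ (Finset.range M).erase (x / b / N), zc b (i * N * b) ((i + 1) * N * b) x t := by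
  obtain ⟨g1, g2⟩ := AStep_grp (x := x) h0 hN
  have hmem : x / b / N ∈ Finset.range M := Finset.mem_range.2 hM
  rw [← Finset.add_sum_erase _ _ hmem,
    ← Finset.add_sum_erase _ (fun i => edg b (res (i * N * b) ((i + 1) * N * b) t)) hmem]
  have h1 := FE hb hm h0 g1 g2
  have h2 : ∑ i ∈ (Finset.range M).erase (x / b / N),
        edg b (res (i * N * b) ((i + 1) * N * b) (splay x t)) ≤
      ∑ i ∈ (Finset.range M).erase (x / b / N),
        (edg b (res (i * N * b) ((i + 1) * N * b) t) +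
          2 * zc b (i * N * b) ((i + 1) * N * b) x t) := by
    refine Finset.sum_le_sum fun i hi => ?_
    have hne : i ≠ x / b / N := Finset.ne_of_mem_erase hi
    have hle : i * N * b ≤ (i + 1) * N * b :=
      Nat.mul_le_mul_right b (Nat.mul_le_mul_right N (Nat.le_succ i))
    refine FXC hb hm h0 ?_ hle
    rcases Nat.lt_or_ge (x / b / N) i with h | h
    · left
      rwa [Nat.div_lt_iff_lt_mul hN, Nat.div_lt_iff_lt_mul h0] at h
    · right
      have h3 : i + 1 ≤ x / b / N := by omega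
      rwa [Nat.le_div_iff_mul_le hN, Nat.le_div_iff_mul_le h0] at h3
  rw [Finset.sum_add_distrib, ← Finset.mul_sum] at h2
  unfold qq
  omega

private theorem AStep_S0 {b M x : ℕ} {t : BinaryTree ℕ} (hb : IsBST t) (hm : x ∈ inorder t)
    (h0 : 0 < b) (hM : x / b < M) :
    ∑ i ∈ Finset.range M, sig (i * b) ((i + 1) * b) (splay x t) +
      van x (x / b * b) ((x / b + 1) * b) t ≤
    ∑ i ∈ Finset.range M, sig (i * b) ((i + 1) * b) t + 4 := by
  obtain ⟨g1, g2⟩ := AStep_blk (x := x) h0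
  have hmem : x / b ∈ Finset.range M := Finset.mem_range.2 hM
  rw [← Finset.add_sum_erase _ _ hmem,
    ← Finset.add_sum_erase _ (fun i => sig (i * b) ((i + 1) * b) t) hmem]
  have h1 := FS2 hb hm g1 g2
  have h2 : ∑ i ∈ (Finset.range M).erase (x / b), sig (i * b) ((i + 1) * b) (splay x t) ≤
      ∑ i ∈ (Finset.range M).erase (x / b), sig (i * b) ((i + 1) * b) t := by
    refine Finset.sum_le_sum fun i hi => ?_
    have h4 := FS1 hb hm (Nat.mul_le_mul_right b (Nat.le_succ i))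
      (AStep_out h0 (Finset.ne_of_mem_erase hi))
    have h5 : min 1 (pop x (i * b) ((i + 1) * b) t) ≤ pop x (i * b) ((i + 1) * b) t :=
      Nat.min_le_right _ _
    change sig (i * b) ((i + 1) * b) (splay x t) + pop x (i * b) ((i + 1) * b) t ≤
      sig (i * b) ((i + 1) * b) t + min 1 (pop x (i * b) ((i + 1) * b) t) at h4
    omega
  omega

private theorem AStep_S {b N M x : ℕ} {t : BinaryTree ℕ} (hb : IsBST t) (hm : x ∈ inorder t)
    (h0 : 0 < b) (hN : 0 < N) (hM : (x / b / N + 1) * N ≤ M) :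
    ∑ i ∈ Finset.range M, sig (i * b) ((i + 1) * b) (splay x t) +
      ∑ c ∈ (Finset.Ico (x / b / N * N) ((x / b / N + 1) * N)).erase (x / b),
        pop x (c * b) ((c + 1) * b) t +
      van x (x / b * b) ((x / b + 1) * b) t ≤
    ∑ i ∈ Finset.range M, sig (i * b) ((i + 1) * b) t + 4 + qq b N x t := by
  obtain ⟨g1, g2⟩ := AStep_blk (x := x) h0
  obtain ⟨k1, k2⟩ := AStep_grp (x := x) h0 hN
  set G := Finset.Ico (x / b / N * N) ((x / b / N + 1) * N) with hG
  have hsub : G ⊆ Finset.range M := by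
    intro c hc
    rw [hG, Finset.mem_Ico] at hc
    exact Finset.mem_range.2 (by omega)
  have hmem : x / b ∈ G := by
    rw [hG, Finset.mem_Ico]
    exact ⟨(Nat.le_div_iff_mul_le h0).2 k1, (Nat.div_lt_iff_lt_mul h0).2 k2⟩
  rw [← Finset.sum_sdiff hsub,
    ← Finset.sum_sdiff (f := fun i => sig (i * b) ((i + 1) * b) t) hsub,
    ← Finset.add_sum_erase _ _ hmem,
    ← Finset.add_sum_erase _ (fun i => sig (i * b) ((i + 1) * b) t) hmem]
  have h1 := FS2 hb hm g1 g2
  have h2 : ∑ i ∈ Finset.range M \ G, sig (i * b) ((i + 1) * b) (splay x t) ≤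
      ∑ i ∈ Finset.range M \ G, sig (i * b) ((i + 1) * b) t := by
    refine Finset.sum_le_sum fun i hi => ?_
    have hne : i ≠ x / b := by
      rintro rfl
      exact (Finset.mem_sdiff.1 hi).2 hmem
    have h4 := FS1 hb hm (Nat.mul_le_mul_right b (Nat.le_succ i)) (AStep_out h0 hne)
    have h5 : min 1 (pop x (i * b) ((i + 1) * b) t) ≤ pop x (i * b) ((i + 1) * b) t :=
      Nat.min_le_right _ _
    change sig (i * b) ((i + 1) * b) (splay x t) + pop x (i * b) ((i + 1) * b) t ≤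
      sig (i * b) ((i + 1) * b) t + min 1 (pop x (i * b) ((i + 1) * b) t) at h4
    omega
  have h3 : ∑ i ∈ G.erase (x / b), sig (i * b) ((i + 1) * b) (splay x t) +
      ∑ i ∈ G.erase (x / b), pop x (i * b) ((i + 1) * b) t ≤
      ∑ i ∈ G.erase (x / b), sig (i * b) ((i + 1) * b) t +
      ∑ i ∈ G.erase (x / b), min 1 (cnt b i x t) := by
    rw [← Finset.sum_add_distrib, ← Finset.sum_add_distrib]
    refine Finset.sum_le_sum fun i hi => ?_
    have hne : i ≠ x / b := Finset.ne_of_mem_erase hi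
    have h4 := FS1 hb hm (Nat.mul_le_mul_right b (Nat.le_succ i)) (AStep_out h0 hne)
    have h5 := pop_cnt (i := i) hb hm hne h0
    have h6 : min 1 (pop x (i * b) ((i + 1) * b) t) ≤ min 1 (cnt b i x t) :=
      le_min (min_le_left _ _) h5
    change sig (i * b) ((i + 1) * b) (splay x t) + pop x (i * b) ((i + 1) * b) t ≤
      sig (i * b) ((i + 1) * b) t + min 1 (pop x (i * b) ((i + 1) * b) t) at h4
    omega
  have hQ := QS (t := t) h0 k1 k2
  rw [← hG] at hQ
  unfold qq
  omega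

theorem ASTEP {N l M x : ℕ} {t : BinaryTree ℕ} (hb : IsBST t) (hm : x ∈ inorder t) (hN : 2 ≤ N)
    (hM : ∀ v ∈ inorder t, v < N ^ l) (hM2 : N ^ l ≤ M) :
    depth x t +
      6 * ∑ j ∈ Finset.range (l + 1), ∑ i ∈ Finset.range M,
        sig (i * N ^ j) ((i + 1) * N ^ j) (splay x t) +
      2 * ∑ j ∈ Finset.range l, ∑ i ∈ Finset.range M,
        edg (N ^ j) (res (i * N * N ^ j) ((i + 1) * N * N ^ j) (splay x t)) ≤
    6 * ∑ j ∈ Finset.range (l + 1), ∑ i ∈ Finset.range M, sig (i * N ^ j) ((i + 1) * N ^ j) t +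
      2 * ∑ j ∈ Finset.range l, ∑ i ∈ Finset.range M,
        edg (N ^ j) (res (i * N * N ^ j) ((i + 1) * N * N ^ j) t) +
      12 * ∑ j ∈ Finset.range l, qq (N ^ j) N x t + 28 * (l + 1) := by
  have hN0 : 0 < N := by omega
  have hpos : ∀ j, 0 < N ^ j := fun j => Nat.pow_pos hN0
  have hxl : x < N ^ l := hM x hm
  -- (1)
  have hD := AStep_depth hb hm hN0 hM
  -- (2)
  have hJ : ∑ j ∈ Finset.range l,
        dJ (N ^ j) (x / N ^ j / N * N * N ^ j) ((x / N ^ j / N + 1) * N * N ^ j) x t ≤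
      2 * ∑ j ∈ Finset.range l,
        ∑ c ∈ (Finset.Ico (x / N ^ j / N * N) ((x / N ^ j / N + 1) * N)).erase (x / N ^ j),
          pop x (c * N ^ j) ((c + 1) * N ^ j) t +
      2 * ∑ j ∈ Finset.range l,
        ch (N ^ j) (x / N ^ j / N * N * N ^ j) ((x / N ^ j / N + 1) * N * N ^ j) x t +
      2 * ∑ j ∈ Finset.range l,
        van x (x / N ^ j / N * N * N ^ j) ((x / N ^ j / N + 1) * N * N ^ j) t := by
    rw [Finset.mul_sum, Finset.mul_sum, Finset.mul_sum, ← Finset.sum_add_distrib,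
      ← Finset.sum_add_distrib]
    exact Finset.sum_le_sum fun j _ => AStep_dJ hb hm (hpos j) hN0
  -- (3)
  have hE : ∑ j ∈ Finset.range l, ∑ i ∈ Finset.range M,
        edg (N ^ j) (res (i * N * N ^ j) ((i + 1) * N * N ^ j) (splay x t)) +
      ∑ j ∈ Finset.range l,
        ch (N ^ j) (x / N ^ j / N * N * N ^ j) ((x / N ^ j / N + 1) * N * N ^ j) x t ≤
      ∑ j ∈ Finset.range l, ∑ i ∈ Finset.range M,
        edg (N ^ j) (res (i * N * N ^ j) ((i + 1) * N * N ^ j) t) +
      3 * ∑ j ∈ Finset.range l, qq (N ^ j) N x t + ∑ _j ∈ Finset.range l, 2 +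
      2 * ∑ j ∈ Finset.range l, ∑ i ∈ (Finset.range M).erase (x / N ^ j / N),
        zc (N ^ j) (i * N * N ^ j) ((i + 1) * N * N ^ j) x t := by
    rw [Finset.mul_sum, Finset.mul_sum, ← Finset.sum_add_distrib, ← Finset.sum_add_distrib,
      ← Finset.sum_add_distrib, ← Finset.sum_add_distrib]
    refine Finset.sum_le_sum fun j _ => AStep_E hb hm (hpos j) hN0 ?_
    have h1 : x / N ^ j / N ≤ x := (Nat.div_le_self _ _).trans (Nat.div_le_self _ _)
    omega
  have hZ := ZSUM (M := M) hb hm hN hM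
  rw [Finset.sum_const, Finset.card_range, smul_eq_mul] at hE
  -- (4)
  have hS : ∑ j ∈ Finset.range l, ∑ i ∈ Finset.range M,
        sig (i * N ^ j) ((i + 1) * N ^ j) (splay x t) +
      ∑ j ∈ Finset.range l,
        ∑ c ∈ (Finset.Ico (x / N ^ j / N * N) ((x / N ^ j / N + 1) * N)).erase (x / N ^ j),
          pop x (c * N ^ j) ((c + 1) * N ^ j) t +
      ∑ j ∈ Finset.range l, van x (x / N ^ j * N ^ j) ((x / N ^ j + 1) * N ^ j) t ≤
      ∑ j ∈ Finset.range l, ∑ i ∈ Finset.range M, sig (i * N ^ j) ((i + 1) * N ^ j) t +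
      ∑ _j ∈ Finset.range l, 4 + ∑ j ∈ Finset.range l, qq (N ^ j) N x t := by
    rw [← Finset.sum_add_distrib, ← Finset.sum_add_distrib, ← Finset.sum_add_distrib,
      ← Finset.sum_add_distrib]
    refine Finset.sum_le_sum fun j hj => AStep_S hb hm (hpos j) hN0 ?_
    have hjl : j < l := Finset.mem_range.1 hj
    refine le_trans ?_ hM2
    have h1 : x / N ^ j / N < N ^ (l - (j + 1)) := by
      rw [← AStep_succ, Nat.div_lt_iff_lt_mul (hpos _), ← pow_add]
      have : l - (j + 1) + (j + 1) = l := by omega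
      rwa [this]
    have h2 : (x / N ^ j / N + 1) * N ≤ N ^ (l - (j + 1)) * N := Nat.mul_le_mul_right N h1
    refine h2.trans ?_
    rw [← pow_succ]
    exact Nat.pow_le_pow_right hN0 (by omega)
  rw [Finset.sum_const, Finset.card_range, smul_eq_mul] at hS
  have hS0 := AStep_S0 (M := M) hb hm (hpos l) (by
    rw [Nat.div_eq_of_lt hxl]
    omega)
  -- (5)
  have hV : ∑ j ∈ Finset.range l,
        van x (x / N ^ j / N * N * N ^ j) ((x / N ^ j / N + 1) * N * N ^ j) t ≤
      ∑ j ∈ Finset.range l, van x (x / N ^ j * N ^ j) ((x / N ^ j + 1) * N ^ j) t +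
        van x (x / N ^ l * N ^ l) ((x / N ^ l + 1) * N ^ l) t := by
    rw [← Finset.sum_range_succ (fun j => van x (x / N ^ j * N ^ j) ((x / N ^ j + 1) * N ^ j) t),
      Finset.sum_range_succ']
    refine le_trans (le_of_eq (Finset.sum_congr rfl fun j _ => ?_)) (Nat.le_add_right _ _)
    have e1 : x / N ^ (j + 1) * N ^ (j + 1) = x / N ^ j / N * N * N ^ j := by
      rw [AStep_succ, pow_succ]
      ring
    have e2 : (x / N ^ (j + 1) + 1) * N ^ (j + 1) = (x / N ^ j / N + 1) * N * N ^ j := by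
      rw [AStep_succ, pow_succ]
      ring
    rw [e1, e2]
  rw [Finset.sum_range_succ, Finset.sum_range_succ]
  omega

end Pool.Agent.SplAll
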