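import Pool.Agent.SplAll.Defs
import Pool.Agent.SplPat.RS

set_option autoImplicit false

/-!
BR (breaks): the number of runs of `[e, hi)` among the ancestors of `x < e`.
-/

namespace Pool.Agent.SplAll

open BinaryTree Pool.Agent.MP_c42954_lc.Scan Pool.Agent.SplPat

/-- The main induction along the list: every start of a run, except the first, is charged to the first element
of the run or to the element before it. -/
theorem BR_runs (S A U : ℕ → Bool) (L : List ℕ)
    (H : ∀ (l1 : List ℕ) (p z : ℕ) (l2 : List ℕ), L = l1 ++ p :: z :: l2 → S z = true →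
      S p = false → (∃ w ∈ l1, S w = true) → A z = true ∨ U p = true) :
    ∀ (l2 l1 : List ℕ) (p : ℕ), L = l1 ++ p :: l2 →
      runs S (S p) l2 + (if ∃ w ∈ l1 ++ [p], S w = true then 1 else 0) ≤
        1 + (l2.filter A).length + ((p :: l2).filter U).length := by
  intro l2
  induction l2 with
  | nil =>
    intro l1 p _
    simp only [runs]
    split_ifs <;> omega
  | cons z l ih =>
    intro l1 p hL
    have ih' := ih (l1 ++ [p]) z (by rw [hL]; simp)
    have hA : (l.filter A).length ≤ ((z :: l).filter A).length := by
      rw [List.filter_cons]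
      split_ifs <;> simp
    have hU : ((z :: l).filter U).length ≤ ((p :: z :: l).filter U).length := by
      rw [List.filter_cons (x := p)]
      split_ifs <;> simp
    simp only [runs]
    by_cases hs : S z = true ∧ S p = false
    · -- the start of a run
      have hst : (if (S z && !S p) = true then 1 else 0) = 1 := by simp [hs.1, hs.2]
      rw [hst]
      have h1 : ∃ w ∈ (l1 ++ [p]) ++ [z], S w = true := ⟨z, by simp, hs.1⟩
      rw [if_pos h1] at ih'
      by_cases h2 : ∃ w ∈ l1 ++ [p], S w = true
      · rw [if_pos h2]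
        have h3 : ∃ w ∈ l1, S w = true := by
          obtain ⟨w, hw, hw'⟩ := h2
          rw [List.mem_append, List.mem_singleton] at hw
          rcases hw with hw | rfl
          · exact ⟨w, hw, hw'⟩
          · rw [hs.2] at hw'
            exact absurd hw' (by simp)
        rcases H l1 p z l hL hs.1 hs.2 h3 with h4 | h4
        · have : ((z :: l).filter A).length = (l.filter A).length + 1 := by
            rw [List.filter_cons, if_pos h4, List.length_cons]
          omega
        · have : ((p :: z :: l).filter U).length = ((z :: l).filter U).length + 1 := by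
            rw [List.filter_cons (x := p), if_pos h4, List.length_cons]
          omega
      · rw [if_neg h2]
        omega
    · have hst : (if (S z && !S p) = true then 1 else 0) = 0 := by
        rw [if_neg]
        intro h
        rw [Bool.and_eq_true, Bool.not_eq_true'] at h
        exact hs h
      rw [hst]
      have h1 : (if ∃ w ∈ l1 ++ [p], S w = true then 1 else 0) ≤
          (if ∃ w ∈ (l1 ++ [p]) ++ [z], S w = true then 1 else 0) := by
        by_cases h2 : ∃ w ∈ l1 ++ [p], S w = true
        · obtain ⟨w, hw, hw'⟩ := h2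
          have h3 : ∃ w ∈ (l1 ++ [p]) ++ [z], S w = true :=
            ⟨w, List.mem_append_left _ hw, hw'⟩
          rw [if_pos ⟨w, hw, hw'⟩, if_pos h3]
        · rw [if_neg h2]
          exact Nat.zero_le _
      omega

theorem BR_runs' (S A U : ℕ → Bool) (L : List ℕ)
    (H : ∀ (l1 : List ℕ) (p z : ℕ) (l2 : List ℕ), L = l1 ++ p :: z :: l2 → S z = true →
      S p = false → (∃ w ∈ l1, S w = true) → A z = true ∨ U p = true) :
    runs S false L ≤ 1 + (L.filter A).length + (L.filter U).length := by
  cases L with
  | nil => simp [runs]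
  | cons z l =>
    have h := BR_runs S A U (z :: l) H l [] z rfl
    have hA : (l.filter A).length ≤ ((z :: l).filter A).length := by
      rw [List.filter_cons]
      split_ifs <;> simp
    simp only [runs]
    by_cases hz : S z = true
    · have h1 : ∃ w ∈ [] ++ [z], S w = true := ⟨z, by simp, hz⟩
      rw [if_pos h1] at h
      have h2 : (if (S z && !false) = true then 1 else 0) = 1 := by simp [hz]
      rw [h2]
      omega
    · have h2 : (if (S z && !false) = true then 1 else 0) = 0 := by simp [hz]
      rw [h2]
      omega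

theorem BR_card {x : ℕ} {t : BinaryTree ℕ} (hb : IsBST t) (hm : x ∈ inorder t) (F : Finset ℕ)
    (V : ℕ → Bool) (hV : ∀ v ∈ ancs x t, V v = true → v ∈ F) :
    ((ancs x t).filter V).length ≤ F.card := by
  have hnd : ((ancs x t).filter V).Nodup := (ancs_nodup hb hm).filter _
  rw [← List.toFinset_card_of_nodup hnd]
  apply Finset.card_le_card
  intro v hv
  rw [List.mem_toFinset, List.mem_filter] at hv
  exact hV v hv.1 hv.2

theorem BR_onP {x p z : ℕ} {t : BinaryTree ℕ} (hb : IsBST t) (hm : x ∈ inorder t)
    {l1 l2 : List ℕ} (ha : ancs x t = l1 ++ p :: z :: l2) :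
    OnP (2 * z + 1) (2 * p + 1) (mapT (fun v => 2 * v + 1) t) := by
  have e := GapB.up (l := z) (l1 := l1 ++ [p]) (l2 := l2) hb hm (by rw [ha]; simp)
    (show p ∈ l1 ++ [p] by simp)
  rwa [GapA.onP2] at e

theorem BR_ord {x w p z : ℕ} {t : BinaryTree ℕ} (hb : IsBST t) (hm : x ∈ inorder t)
    {l1 l2 : List ℕ} (ha : ancs x t = l1 ++ p :: z :: l2) (hw : w ∈ l1) :
    ((x < w → x < p → w < p) ∧ (w < x → p < x → p < w)) ∧
      ((x < p → x < z → p < z) ∧ (p < x → z < x → z < p)) ∧ p ≠ x := by
  have hord := ancs_order hb hm
  have hpm : p ∈ ancs x t := by rw [ha]; simp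
  have hpx : p ≠ x := ((mem_ancs hb hm).1 hpm).2
  rw [ha, List.pairwise_append, List.pairwise_cons] at hord
  obtain ⟨_, ⟨hp3, _⟩, hcr⟩ := hord
  exact ⟨hcr w hw p (by simp), hp3 z (by simp), hpx⟩

theorem BRR {lo a e hi x : ℕ} {t : BinaryTree ℕ} (hb : IsBST t) (hm : x ∈ inorder t) (h1 : lo ≤ a)
    (h2 : a ≤ x) (h3 : x < e) (h4 : e ≤ hi) :
    rn e hi x t ≤ 2 + ((Rg lo t).filter (fun v => x < v ∧ v < hi)).card +
      ((Lg e t).filter (fun u => u < x ∧ a ≤ u)).card + (ptL lo a e hi t).card := by
  classical
  set FA : Finset ℕ := (Rg lo t).filter (fun v => x < v ∧ v < hi) with hFA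
  set FB : Finset ℕ := (Lg e t).filter (fun u => u < x ∧ a ≤ u) with hFB
  set FC : Finset ℕ := ptL lo a e hi t with hFC
  set FD : Finset ℕ := (ancs x t).toFinset.filter (fun l => l ∈ Rg lo t ∧ l < x) with hFD
  have hFDc : FD.card ≤ 1 := by
    rw [Finset.card_le_one]
    intro v hv w hw
    rw [hFD, Finset.mem_filter, List.mem_toFinset] at hv hw
    exact lca_R hb hm (h1.trans h2) hv.2.1 hv.1 hv.2.2 hw.2.1 hw.1 hw.2.2
  have key := BR_runs' (fun v => decide (e ≤ v ∧ v < hi)) (fun v => decide (v ∈ FA))
    (fun v => decide (v ∈ FB ∪ FC ∪ FD)) (ancs x t) (by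
      intro l1 p z l2 hL hz hp ⟨w, hw, hw'⟩
      rw [decide_eq_true_eq] at hz hw'
      rw [decide_eq_false_iff_not] at hp
      obtain ⟨⟨o1, _⟩, ⟨o2, _⟩, hpx⟩ := BR_ord (w := w) hb hm hL hw
      have hpm : p ∈ ancs x t := by rw [hL]; simp
      have hplt : p < x := by
        by_contra hc
        have h5 : x < p := by omega
        have h6 := o1 (by omega) h5
        have h7 := o2 h5 (by omega)
        exact hp ⟨by omega, by omega⟩
      have hpL : p ∈ Lg e t := between_Lg hb hm h3 hL hplt hw hw'.1
      by_cases c1 : p < lo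
      · left
        have hzR : z ∈ Rg lo t := between_Rg hb hm (h1.trans h2) (l1 := l1 ++ [p]) (l2 := l2)
          (by rw [hL]; simp) (by omega) (show p ∈ l1 ++ [p] by simp) c1
        rw [decide_eq_true_eq, hFA, Finset.mem_filter]
        exact ⟨hzR, by omega, hz.2⟩
      · right
        rw [decide_eq_true_eq, Finset.mem_union, Finset.mem_union]
        by_cases c2 : a ≤ p
        · left; left
          rw [hFB, Finset.mem_filter]
          exact ⟨hpL, hplt, c2⟩
        · by_cases c3 : p ∈ spn lo hi t
          · rw [spn, Finset.mem_union, Finset.mem_filter, Finset.mem_filter] at c3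
            rcases c3 with c3 | c3
            · right
              rw [hFD, Finset.mem_filter, List.mem_toFinset]
              exact ⟨hpm, c3.1, hplt⟩
            · exfalso
              have h5 := c3.1
              rw [mem_Lg, mem_gp_iff] at h5
              have hb2 := GapA.bst2 hb
              have e1 := onP_convex (w := 2 * z + 1) hb2 h5.1 (Or.inl ⟨by omega, by omega⟩)
              have e2 := BR_onP hb hm hL
              have := onP_antisymm hb2 e1 e2
              omega
          · left; right
            rw [hFC, ptL, Finset.mem_sdiff, Finset.mem_filter]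
            exact ⟨⟨hpL, by omega, by omega⟩, c3⟩)
  have hA := BR_card hb hm FA (fun v => decide (v ∈ FA)) (fun v _ hv => by
    rwa [decide_eq_true_eq] at hv)
  have hU := BR_card hb hm (FB ∪ FC ∪ FD) (fun v => decide (v ∈ FB ∪ FC ∪ FD)) (fun v _ hv => by
    rwa [decide_eq_true_eq] at hv)
  have hu1 := Finset.card_union_le (FB ∪ FC) FD
  have hu2 := Finset.card_union_le FB FC
  unfold rn
  omega

theorem BRL {lo a e hi x : ℕ} {t : BinaryTree ℕ} (hb : IsBST t) (hm : x ∈ inorder t) (h1 : lo ≤ a)
    (h2 : a ≤ x) (h3 : x < e) (h4 : e ≤ hi) :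
    rn lo a x t ≤ 2 + ((Lg hi t).filter (fun u => u < x ∧ lo ≤ u)).card +
      ((Rg a t).filter (fun v => x < v ∧ v < e)).card + (ptR lo a e hi t).card := by
  classical
  set FA : Finset ℕ := (Lg hi t).filter (fun u => u < x ∧ lo ≤ u) with hFA
  set FB : Finset ℕ := (Rg a t).filter (fun v => x < v ∧ v < e) with hFB
  set FC : Finset ℕ := ptR lo a e hi t with hFC
  set FD : Finset ℕ := (ancs x t).toFinset.filter (fun l => l ∈ Lg hi t ∧ x < l) with hFD
  have hFDc : FD.card ≤ 1 := by
    rw [Finset.card_le_one]
    intro v hv w hw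
    rw [hFD, Finset.mem_filter, List.mem_toFinset] at hv hw
    exact lca_L hb hm (h3.trans_le h4) hv.2.1 hv.1 hv.2.2 hw.2.1 hw.1 hw.2.2
  have key := BR_runs' (fun v => decide (lo ≤ v ∧ v < a)) (fun v => decide (v ∈ FA))
    (fun v => decide (v ∈ FB ∪ FC ∪ FD)) (ancs x t) (by
      intro l1 p z l2 hL hz hp ⟨w, hw, hw'⟩
      rw [decide_eq_true_eq] at hz hw'
      rw [decide_eq_false_iff_not] at hp
      obtain ⟨⟨_, o1⟩, ⟨_, o2⟩, hpx⟩ := BR_ord (w := w) hb hm hL hw
      have hpm : p ∈ ancs x t := by rw [hL]; simp
      have hplt : x < p := by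
        by_contra hc
        have h5 : p < x := by omega
        have h6 := o1 (by omega) h5
        have h7 := o2 h5 (by omega)
        exact hp ⟨by omega, by omega⟩
      have hpR : p ∈ Rg a t := between_Rg hb hm h2 hL hplt hw hw'.2
      by_cases c1 : hi ≤ p
      · left
        have hzL : z ∈ Lg hi t := between_Lg hb hm (h3.trans_le h4) (l1 := l1 ++ [p]) (l2 := l2)
          (by rw [hL]; simp) (by omega) (show p ∈ l1 ++ [p] by simp) c1
        rw [decide_eq_true_eq, hFA, Finset.mem_filter]
        exact ⟨hzL, by omega, hz.1⟩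
      · right
        rw [decide_eq_true_eq, Finset.mem_union, Finset.mem_union]
        by_cases c2 : p < e
        · left; left
          rw [hFB, Finset.mem_filter]
          exact ⟨hpR, hplt, c2⟩
        · by_cases c3 : p ∈ spn lo hi t
          · rw [spn, Finset.mem_union, Finset.mem_filter, Finset.mem_filter] at c3
            rcases c3 with c3 | c3
            · exfalso
              have h5 := c3.1
              rw [mem_Rg, mem_gp_iff] at h5
              have hb2 := GapA.bst2 hb
              have e1 := onP_convex (w := 2 * z + 1) hb2 h5.1 (Or.inr ⟨by omega, by omega⟩)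
              have e2 := BR_onP hb hm hL
              have := onP_antisymm hb2 e1 e2
              omega
            · right
              rw [hFD, Finset.mem_filter, List.mem_toFinset]
              exact ⟨hpm, c3.1, hplt⟩
          · left; right
            rw [hFC, ptR, Finset.mem_sdiff, Finset.mem_filter]
            exact ⟨⟨hpR, by omega, by omega⟩, c3⟩)
  have hA := BR_card hb hm FA (fun v => decide (v ∈ FA)) (fun v _ hv => by
    rwa [decide_eq_true_eq] at hv)
  have hU := BR_card hb hm (FB ∪ FC ∪ FD) (fun v => decide (v ∈ FB ∪ FC ∪ FD)) (fun v _ hv => by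
    rwa [decide_eq_true_eq] at hv)
  have hu1 := Finset.card_union_le (FB ∪ FC) FD
  have hu2 := Finset.card_union_le FB FC
  unfold rn
  omega

end Pool.Agent.SplAll
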