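import Pool.Agent.SplAll.Defs

set_option autoImplicit false

/-!
PTIN.  After splaying x ∈ [a, e) the key x is the root.  `F2R` (c := a ≤ x): every v ∈ R'(a) is ≤ x < e, so ptR' = ∅;
`F2L` (c := e > x): every v ∈ L'(e) is ≥ x ≥ a, so ptL' = ∅.
`pt_top`: let τ be the highest key in [lo, hi) (`tpf`), a ≤ τ < e.  Then no v ∈ [e, hi) is on the path of the gap a
(`gp a t`) and no v ∈ [lo, a) on the path of the gap e: induction on t.  If the tree has no key in [lo, hi) both sets are
empty (a key in the tree with lo ≤ v < hi contradicts tpf = none).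
-/

namespace Pool.Agent.SplAll

open BinaryTree Pool.Agent.MP_c42954_lc.Scan Pool.Agent.SplPat

private theorem PtIn_zero {lo a e hi : ℕ} {t : BinaryTree ℕ}
    (h1 : ∀ v ∈ Lg e t, lo ≤ v → v < a → False) (h2 : ∀ v ∈ Rg a t, e ≤ v → v < hi → False) :
    pt lo a e hi t = 0 := by
  unfold pt ptL ptR
  rw [Nat.add_eq_zero_iff, Finset.card_eq_zero, Finset.card_eq_zero]
  constructor
  · rw [Finset.eq_empty_iff_forall_notMem]
    intro v hv
    rw [Finset.mem_sdiff, Finset.mem_filter] at hv
    exact h1 v hv.1.1 hv.1.2.1 hv.1.2.2
  · rw [Finset.eq_empty_iff_forall_notMem]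
    intro v hv
    rw [Finset.mem_sdiff, Finset.mem_filter] at hv
    exact h2 v hv.1.1 hv.1.2.1 hv.1.2.2

theorem pt_in {lo a e hi x : ℕ} {t : BinaryTree ℕ} (hb : IsBST t) (hm : x ∈ inorder t)
    (h1 : a ≤ x) (h2 : x < e) : pt lo a e hi (splay x t) = 0 := by
  apply PtIn_zero
  · intro v hv _ hva
    rcases (F2L hb hm h2).1 hv with h | ⟨h, -⟩ <;> omega
  · intro v hv hev _
    rcases (F2R hb hm h1).1 hv with h | ⟨h, -⟩ <;> omega

private theorem PtIn_top {lo a e hi c : ℕ} : ∀ (t : BinaryTree ℕ), IsBST t →
    tpf (fun v => v) lo hi t = some c → a ≤ c → c < e →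
    lo ≤ c ∧ c < hi ∧ (∀ v ∈ gp e t, lo ≤ v → v < a → False) ∧
      (∀ v ∈ gp a t, e ≤ v → v < hi → False)
  | .nil, _, h, _, _ => by simp [tpf] at h
  | .node k l r, hb, h, h1, h2 => by
      obtain ⟨hl, hr, hlk, hrk⟩ := bst_node.1 hb
      simp only [tpf] at h
      by_cases hk : k < lo
      · rw [if_pos hk] at h
        obtain ⟨i1, i2, i3, i4⟩ := PtIn_top r hr h h1 h2
        refine ⟨i1, i2, ?_, ?_⟩
        · intro v hv hv1 hv2
          rw [gp, if_pos (by omega), List.mem_append, List.mem_singleton] at hv
          rcases hv with hv | hv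
          · exact i3 v hv hv1 hv2
          · omega
        · intro v hv hv1 hv2
          rw [gp] at hv
          split_ifs at hv with h3 <;> rw [List.mem_append, List.mem_singleton] at hv
          · rcases hv with hv | hv
            · exact i4 v hv hv1 hv2
            · omega
          · rcases hv with hv | hv
            · have := hlk v (gp_mem hv)
              omega
            · omega
      · rw [if_neg hk] at h
        by_cases hk2 : hi ≤ k
        · rw [if_pos hk2] at h
          obtain ⟨i1, i2, i3, i4⟩ := PtIn_top l hl h h1 h2
          refine ⟨i1, i2, ?_, ?_⟩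
          · intro v hv hv1 hv2
            rw [gp] at hv
            split_ifs at hv with h3 <;> rw [List.mem_append, List.mem_singleton] at hv
            · rcases hv with hv | hv
              · have := hrk v (gp_mem hv)
                omega
              · omega
            · rcases hv with hv | hv
              · exact i3 v hv hv1 hv2
              · omega
          · intro v hv hv1 hv2
            rw [gp, if_neg (by omega), List.mem_append, List.mem_singleton] at hv
            rcases hv with hv | hv
            · exact i4 v hv hv1 hv2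
            · omega
        · rw [if_neg hk2] at h
          have hkc : k = c := by simpa using h
          subst hkc
          refine ⟨by omega, by omega, ?_, ?_⟩
          · intro v hv hv1 hv2
            rw [gp, if_pos h2, List.mem_append, List.mem_singleton] at hv
            rcases hv with hv | hv
            · have := hrk v (gp_mem hv)
              omega
            · omega
          · intro v hv hv1 hv2
            rw [gp, if_neg (by omega), List.mem_append, List.mem_singleton] at hv
            rcases hv with hv | hv
            · have := hlk v (gp_mem hv)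
              omega
            · omega

theorem pt_top {lo a e hi c : ℕ} {t : BinaryTree ℕ} (hb : IsBST t) (h : tpf (fun v => v) lo hi t = some c)
    (h1 : a ≤ c) (h2 : c < e) : pt lo a e hi t = 0 := by
  obtain ⟨-, -, i3, i4⟩ := PtIn_top t hb h h1 h2
  apply PtIn_zero
  · intro v hv
    exact i3 v (mem_Lg.1 hv).1
  · intro v hv
    exact i4 v (mem_Rg.1 hv).1

private theorem PtIn_none {lo hi : ℕ} : ∀ (t : BinaryTree ℕ), IsBST t →
    tpf (fun v => v) lo hi t = none → ∀ v ∈ inorder t, lo ≤ v → v < hi → False
  | .nil, _, _, v, hv => by simp [inorder] at hv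
  | .node k l r, hb, h, v, hv => by
      obtain ⟨hl, hr, hlk, hrk⟩ := bst_node.1 hb
      simp only [tpf] at h
      simp only [inorder, List.mem_append, List.mem_cons] at hv
      intro hv1 hv2
      by_cases hk : k < lo
      · rw [if_pos hk] at h
        rcases hv with hv | hv | hv
        · have := hlk v hv
          omega
        · omega
        · exact PtIn_none r hr h v hv hv1 hv2
      · rw [if_neg hk] at h
        by_cases hk2 : hi ≤ k
        · rw [if_pos hk2] at h
          rcases hv with hv | hv | hv
          · exact PtIn_none l hl h v hv hv1 hv2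
          · omega
          · have := hrk v hv
            omega
        · rw [if_neg hk2] at h
          simp at h

theorem pt_none {lo a e hi : ℕ} {t : BinaryTree ℕ} (hb : IsBST t)
    (h : tpf (fun v => v) lo hi t = none) (h1 : lo ≤ a) (h2 : e ≤ hi) : pt lo a e hi t = 0 := by
  have h3 := PtIn_none t hb h
  apply PtIn_zero
  · intro v hv hv1 hv2
    obtain ⟨h4, h5⟩ := mem_Lg.1 hv
    exact h3 v (gp_mem h4) hv1 (by omega)
  · intro v hv hv1 hv2
    obtain ⟨h4, h5⟩ := mem_Rg.1 hv
    exact h3 v (gp_mem h4) (by omega) hv2

end Pool.Agent.SplAll
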