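import Pool.Agent.SplAll.SpnOut
import Pool.Agent.SplPat.FS

set_option autoImplicit false

/-!
PTOUT.  x outside [lo, hi).  Numerically checked in exactly this form.

Proof for x < lo.  P = ptL ∪ ptR (disjoint), P' the same after the splay; ' = after the splay.
(1) Which nodes are in P' and not in P?
  (i) v ∈ ptR' : v ∈ R'(a), e ≤ v < hi, v no spine node after.  `F1R` (x < a): v ∈ R(a).  So if v ∉ P then v ∈ spn lo hi t.
      v ∈ L(hi) is impossible: by `F2L` (x < v) v ∈ L(hi) implies v ∈ L'(hi) and v would be a spine node after.  So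
      v ∈ R(lo), v ∉ L(hi), and v ∉ R'(lo) (no spine node after), so by `F1R` (c := lo) there is p ≥ lo with (p, v) a pair;
      p < a, since otherwise v ∉ R'(a) by `F1R` (c := a).
  (ii) v ∈ ptL' : v ∈ L'(e), lo ≤ v < a, no spine node after.  By `F2L` (c := e, v ≠ x): v ∈ L(e), or (v, g) is a pair with
      v < g ∈ L(e).  In the latter case v is an ancestor of x, v ≥ lo, so v ∈ R(lo) (`anc_Rg`), and v ∈ R'(lo) by `F1R`,
      since v is a lower node of a pair and so no upper one (`pairUp_fst_ne_snd`): v would be a spine node after.  So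
      v ∈ L(e); if v ∉ P then v ∈ spn lo hi t, as before v ∉ L(hi), v ∈ R(lo), v ∉ R'(lo), and v is the upper node of a
      pair (p, v), lo ≤ p; so v is an ancestor of x, x < v and v ∈ L(e).
  So every v ∈ P' \ P satisfies: v ∈ R(lo) \ R'(lo), v < hi, v ∉ L(hi), v an ancestor of x, and (i) its partner p < a ≤ e ≤ v
  or (ii) v ∈ L(e), v < a.
(2) P' \ P has at most one element.  Two of kind (ii): `lca_L` with c := e.  Two of kind (i), v < v': (p, v), (p', v') pairs;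
  the ancestors > x increase upwards, v is neither p' nor v', so v lies below p' (pairs are adjacent in the list,
  `pairUp_adj`), v < p' < a: contradiction.  Kind (i) v (partner p < a) and kind (ii) w (w < a, w ∈ L(e)): w ≤ p by
  adjacency, w ≠ p (w is an upper node), so p lies above w, lo ≤ w < p < a ≤ e; p is on the path of w, w is on the path
  of the gap e, so p is on the path of the gap e: p ∈ L(e), p > x an ancestor of x: p = w by `lca_L`, contradiction.
(3) If P' ⊆ P use `FS1`.  Otherwise let P' \ P = {v}.  sig' = |R'(lo) ∩ J| + |L'(hi) ∩ J|, J = [lo, hi).  R'(lo) ∩ J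
  = (R(lo) ∩ J) \ popped, v is popped.  L'(hi) ∩ J ⊆ (L(hi) ∩ J) ∪ {new}; if there is a new node p (at most one, compare
  the proof of `FS1`) then (p, g) is a pair with g ∈ L(hi), p ≥ lo, so g is popped too, and g ≠ v because v ∉ L(hi).
  So sig' + 1 ≤ sig and |P'| ≤ |P| + 1.
The case hi ≤ x is the mirror image.
-/

namespace Pool.Agent.SplAll

open BinaryTree Pool.Agent.MP_c42954_lc.Scan Pool.Agent.SplPat

private theorem PtOut_count {A A' B B' : Finset ℕ} {v : ℕ} (hA : A' ⊆ A) (hv : v ∈ A)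
    (hv' : v ∉ A') (h1 : (B' \ B).card ≤ 1)
    (h2 : (B' \ B).Nonempty → ∃ g ∈ A, g ∉ A' ∧ g ≠ v) :
    A'.card + B'.card + 1 ≤ A.card + B.card := by
  have e2 : B'.card ≤ (B' \ B).card + B.card := Finset.card_le_card_sdiff_add_card
  by_cases h : (B' \ B).Nonempty
  · obtain ⟨g, h3, h4, h5⟩ := h2 h
    have h6 : insert g (insert v A') ⊆ A := by
      intro w hw
      rw [Finset.mem_insert, Finset.mem_insert] at hw
      rcases hw with rfl | rfl | hw
      · exact h3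
      · exact hv
      · exact hA hw
    have h7 := Finset.card_le_card h6
    rw [Finset.card_insert_of_notMem, Finset.card_insert_of_notMem hv'] at h7
    · omega
    · rw [Finset.mem_insert]
      rintro (h8 | h8)
      · exact h5 h8
      · exact h4 h8
  · rw [Finset.not_nonempty_iff_eq_empty] at h
    rw [h, Finset.card_empty] at e2
    have h6 : insert v A' ⊆ A := by
      intro w hw
      rw [Finset.mem_insert] at hw
      rcases hw with rfl | hw
      · exact hv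
      · exact hA hw
    have h7 := Finset.card_le_card h6
    rw [Finset.card_insert_of_notMem hv'] at h7
    omega

/-- An ancestor above a node of the path of the gap is on the path of the gap. -/
private theorem PtOut_upL {x w p e : ℕ} {t : BinaryTree ℕ} (hb : IsBST t) (hm : x ∈ inorder t)
    (h1 : x < w) (h2 : w < p) (h3 : p < e) (hp : p ∈ ancs x t) (hw : w ∈ Lg e t) : p ∈ Lg e t := by
  rw [mem_Lg, mem_gp_iff] at hw ⊢
  rw [GapA.mem_ancs2 hb hm] at hp
  have hb2 := GapA.bst2 hb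
  have e1 := onP_convex (w := 2 * w + 1) hb2 hp.1 (Or.inr ⟨by omega, by omega⟩)
  exact ⟨onP_trans hb2 e1 hw.1, h3⟩

private theorem PtOut_upR {x w p a : ℕ} {t : BinaryTree ℕ} (hb : IsBST t) (hm : x ∈ inorder t)
    (h1 : w < x) (h2 : p < w) (h3 : a ≤ p) (hp : p ∈ ancs x t) (hw : w ∈ Rg a t) : p ∈ Rg a t := by
  rw [mem_Rg, mem_gp_iff] at hw ⊢
  rw [GapA.mem_ancs2 hb hm] at hp
  have hb2 := GapA.bst2 hb
  have e1 := onP_convex (w := 2 * w + 1) hb2 hp.1 (Or.inl ⟨by omega, by omega⟩)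
  exact ⟨onP_trans hb2 e1 hw.1, h3⟩

/-- Adjacency of pairs, right side. -/
private theorem PtOut_adjR {x p v w : ℕ} {t : BinaryTree ℕ} (hb : IsBST t) (hm : x ∈ inorder t)
    (hp : (p, v) ∈ pairUp (ancs x t)) (hw : w ∈ ancs x t) (h1 : x < p) (h2 : x < v) (h3 : x < w) :
    w ≤ p ∨ v ≤ w := by
  have h := pairUp_adj (r := fun v w => x < v → x < w → v ≤ w) (fun a _ _ => le_rfl)
    ((ancs_order hb hm).imp (fun h h1 h2 => (h.1 h1 h2).le)) hp hw
  rcases h with h | h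
  · exact Or.inl (h h3 h1)
  · exact Or.inr (h h2 h3)

private theorem PtOut_adjL {x p v w : ℕ} {t : BinaryTree ℕ} (hb : IsBST t) (hm : x ∈ inorder t)
    (hp : (p, v) ∈ pairUp (ancs x t)) (hw : w ∈ ancs x t) (h1 : p < x) (h2 : v < x) (h3 : w < x) :
    p ≤ w ∨ w ≤ v := by
  have h := pairUp_adj (r := fun v w => v < x → w < x → w ≤ v) (fun a _ _ => le_rfl)
    ((ancs_order hb hm).imp (fun h h1 h2 => (h.2 h1 h2).le)) hp hw
  rcases h with h | h
  · exact Or.inl (h h3 h1)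
  · exact Or.inr (h h2 h3)

private theorem PtOut_pt {lo a e hi : ℕ} {t : BinaryTree ℕ} (h2 : a ≤ e) :
    pt lo a e hi t = (ptL lo a e hi t ∪ ptR lo a e hi t).card := by
  unfold pt
  rw [Finset.card_union_of_disjoint]
  rw [Finset.disjoint_left]
  intro v hv hw
  unfold ptL at hv
  unfold ptR at hw
  rw [Finset.mem_sdiff, Finset.mem_filter] at hv hw
  omega

private theorem PtOut_mem {lo a e hi v : ℕ} {t : BinaryTree ℕ} :
    v ∈ ptL lo a e hi t ∪ ptR lo a e hi t ↔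
      ((v ∈ Lg e t ∧ lo ≤ v ∧ v < a) ∨ (v ∈ Rg a t ∧ e ≤ v ∧ v < hi)) ∧
        ¬ ((v ∈ Rg lo t ∧ v < hi) ∨ (v ∈ Lg hi t ∧ lo ≤ v)) := by
  unfold ptL ptR spn
  simp only [Finset.mem_union, Finset.mem_sdiff, Finset.mem_filter]
  tauto

/-- The combination. -/
private theorem PtOut_comb {P P' A A' B B' : Finset ℕ}
    (hle : A'.card + B'.card ≤ A.card + B.card)
    (hu : (P' \ P).card ≤ 1) (h : ∀ v ∈ P' \ P, A'.card + B'.card + 1 ≤ A.card + B.card) :
    P'.card + (A'.card + B'.card) ≤ P.card + (A.card + B.card) := by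
  have e2 : P'.card ≤ (P' \ P).card + P.card := Finset.card_le_card_sdiff_add_card
  by_cases hn : (P' \ P).Nonempty
  · obtain ⟨v, hv⟩ := hn
    have := h v hv
    omega
  · rw [Finset.not_nonempty_iff_eq_empty] at hn
    rw [hn, Finset.card_empty] at e2
    omega

private theorem PtOut_right {lo a e hi x : ℕ} {t : BinaryTree ℕ} (hb : IsBST t)
    (hm : x ∈ inorder t) (h1 : lo ≤ a) (h2 : a ≤ e) (h3 : e ≤ hi) (hx : x < lo) :
    pt lo a e hi (splay x t) + sig lo hi (splay x t) ≤ pt lo a e hi t + sig lo hi t := by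
  have hxa : x < a := by omega
  have hxe : x < e := by omega
  have hxh : x < hi := by omega
  have hnd : (ancs x t).Nodup := ancs_nodup hb hm
  rw [PtOut_pt h2, PtOut_pt h2]
  -- the bad nodes
  have key : ∀ v ∈ (ptL lo a e hi (splay x t) ∪ ptR lo a e hi (splay x t)) \
      (ptL lo a e hi t ∪ ptR lo a e hi t),
      v ∈ Rg lo t ∧ v < hi ∧ v ∉ Rg lo (splay x t) ∧ v ∉ Lg hi t ∧ v ∈ ancs x t ∧ lo ≤ v ∧
      ∃ p, (p, v) ∈ pairUp (ancs x t) ∧ lo ≤ p ∧ ((e ≤ v ∧ p < a) ∨ (v < a ∧ v ∈ Lg e t)) := by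
    intro v hv
    rw [Finset.mem_sdiff, PtOut_mem, PtOut_mem] at hv
    obtain ⟨⟨hv1, hv2⟩, hv3⟩ := hv
    push Not at hv2
    have hv4 : lo ≤ v := by omega
    have hvL : v ∉ Lg hi t := by
      intro h4
      have h5 : v ∈ Lg hi (splay x t) := (F2L hb hm hxh).2 (Or.inr ⟨by omega, Or.inl h4⟩)
      have := hv2.2 h5
      omega
    have hvh : v < hi := by omega
    have hvR : v ∉ Rg lo (splay x t) := by
      intro h4
      have := hv2.1 h4
      omega
    have fin : ∀ (hv' : (v ∈ Lg e t ∧ lo ≤ v ∧ v < a) ∨ (v ∈ Rg a t ∧ e ≤ v ∧ v < hi)),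
        v ∈ Rg lo t ∧ ∃ p, (p, v) ∈ pairUp (ancs x t) ∧ lo ≤ p := by
      intro hv'
      have h4 : (v ∈ Rg lo t ∧ v < hi) ∨ (v ∈ Lg hi t ∧ lo ≤ v) := by
        by_contra h5
        exact hv3 ⟨hv', h5⟩
      have h5 : v ∈ Rg lo t := by
        rcases h4 with h4 | h4
        · exact h4.1
        · exact absurd h4.1 hvL
      refine ⟨h5, ?_⟩
      by_contra h6
      exact hvR ((F1R hb hm hx).2 ⟨h5, h6⟩)
    rcases hv1 with ⟨h4, h5, h6⟩ | ⟨h4, h5, h6⟩
    · -- v in ptL after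
      have h7 : v ∈ Lg e t := by
        rcases (F2L hb hm hxe).1 h4 with h8 | ⟨h8, h9 | ⟨g, h9, h10, h11⟩⟩
        · omega
        · exact h9
        · exfalso
          apply hvR
          rw [F1R hb hm hx]
          refine ⟨anc_Rg hb hm hx (mem_pairUp h9).1 hv4, ?_⟩
          rintro ⟨p, h12, -⟩
          exact pairUp_fst_ne_snd hnd h9 h12
      obtain ⟨h8, p, h9, h10⟩ := fin (Or.inl ⟨h7, h5, h6⟩)
      exact ⟨h8, hvh, hvR, hvL, (mem_pairUp h9).2, hv4, p, h9, h10, Or.inr ⟨h6, h7⟩⟩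
    · have h7 := (F1R hb hm hxa).1 h4
      obtain ⟨h8, p, h9, h10⟩ := fin (Or.inr ⟨h7.1, h5, h6⟩)
      refine ⟨h8, hvh, hvR, hvL, (mem_pairUp h9).2, hv4, p, h9, h10, Or.inl ⟨h5, ?_⟩⟩
      by_contra h11
      exact h7.2 ⟨p, h9, by omega⟩
  have huniq : ((ptL lo a e hi (splay x t) ∪ ptR lo a e hi (splay x t)) \
      (ptL lo a e hi t ∪ ptR lo a e hi t)).card ≤ 1 := by
    rw [Finset.card_le_one]
    intro v hv w hw
    obtain ⟨-, -, -, -, hv5, hv6, p, hp1, hp2, hp3⟩ := key v hv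
    obtain ⟨-, -, -, -, hw5, hw6, q, hq1, hq2, hq3⟩ := key w hw
    have a1 := PtOut_adjR hb hm hp1 hw5 (by omega) (by omega) (by omega)
    have a2 := PtOut_adjR hb hm hq1 hv5 (by omega) (by omega) (by omega)
    have mixed : ∀ {v w p q : ℕ}, (p, v) ∈ pairUp (ancs x t) → (q, w) ∈ pairUp (ancs x t) →
        lo ≤ p → lo ≤ w → e ≤ v → p < a → w < a → w ∈ Lg e t → w ≤ p → False := by
      intro v w p q hp hq hlp hlw hev hpa hwa hwe hwp
      have hne : w ≠ p := by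
        rintro rfl
        exact pairUp_fst_ne_snd hnd hp hq
      have h4 : p ∈ Lg e t := PtOut_upL hb hm (by omega) (by omega) (by omega)
        (mem_pairUp hp).1 hwe
      exact hne (lca_L hb hm hxe hwe (mem_pairUp hq).2 (by omega) h4 (mem_pairUp hp).1 (by omega))
    rcases hp3 with ⟨hp3, hp4⟩ | ⟨hp3, hp4⟩ <;> rcases hq3 with ⟨hq3, hq4⟩ | ⟨hq3, hq4⟩
    · omega
    · exfalso
      exact mixed hp1 hq1 hp2 hw6 hp3 hp4 hq3 hq4 (by omega)
    · exfalso
      exact mixed hq1 hp1 hq2 hv6 hq3 hq4 hp3 hp4 (by omega)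
    · exact lca_L hb hm hxe hp4 hv5 (by omega) hq4 hw5 (by omega)
  have hfs := FS1 hb hm (h1.trans (h2.trans h3)) (Or.inl hx : x < lo ∨ hi ≤ x)
  have hle : sig lo hi (splay x t) ≤ sig lo hi t := by omega
  unfold sig at hle ⊢
  refine PtOut_comb hle huniq ?_
  intro v hv
  obtain ⟨hv1, hv2, hv3, hv4, hv5, hv6, -⟩ := key v hv
  refine PtOut_count (v := v) ?_ ?_ ?_ ?_ ?_
  · intro w hw
    rw [Finset.mem_filter] at hw ⊢
    exact ⟨((F1R hb hm hx).1 hw.1).1, hw.2⟩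
  · rw [Finset.mem_filter]
    exact ⟨hv1, hv2⟩
  · rw [Finset.mem_filter]
    exact fun h => hv3 h.1
  · rw [Finset.card_le_one]
    intro v hv w hw
    rw [Finset.mem_sdiff, Finset.mem_filter, Finset.mem_filter, not_and] at hv hw
    exact FS_uniqL hb hm hxh hv.1.1 (by have := hv.1.2; omega) (fun h => hv.2 h hv.1.2)
      hw.1.1 (by have := hw.1.2; omega) (fun h => hw.2 h hw.1.2)
  · rintro ⟨u, hu⟩
    rw [Finset.mem_sdiff, Finset.mem_filter, Finset.mem_filter, not_and] at hu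
    obtain ⟨⟨h1, h2⟩, h3⟩ := hu
    rcases (F2L hb hm hxh).1 h1 with h4 | ⟨h4, h5 | ⟨g, h5, h6, h7⟩⟩
    · omega
    · exact absurd h2 (h3 h5)
    refine ⟨g, ?_, ?_, ?_⟩
    · rw [Finset.mem_filter]
      exact ⟨anc_Rg hb hm hx (mem_pairUp h5).2 (by omega), (mem_Lg.1 h7).2⟩
    · rw [Finset.mem_filter]
      rintro ⟨h8, -⟩
      exact ((F1R hb hm hx).1 h8).2 ⟨u, h5, h2⟩
    · rintro rfl
      exact hv4 h7

private theorem PtOut_left {lo a e hi x : ℕ} {t : BinaryTree ℕ} (hb : IsBST t)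
    (hm : x ∈ inorder t) (h1 : lo ≤ a) (h2 : a ≤ e) (h3 : e ≤ hi) (hx : hi ≤ x) :
    pt lo a e hi (splay x t) + sig lo hi (splay x t) ≤ pt lo a e hi t + sig lo hi t := by
  have hxa : a ≤ x := by omega
  have hxe : e ≤ x := by omega
  have hxh : lo ≤ x := by omega
  have hnd : (ancs x t).Nodup := ancs_nodup hb hm
  rw [PtOut_pt h2, PtOut_pt h2]
  -- the bad nodes
  have key : ∀ v ∈ (ptL lo a e hi (splay x t) ∪ ptR lo a e hi (splay x t)) \
      (ptL lo a e hi t ∪ ptR lo a e hi t),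
      v ∈ Lg hi t ∧ lo ≤ v ∧ v ∉ Lg hi (splay x t) ∧ v ∉ Rg lo t ∧ v ∈ ancs x t ∧ v < hi ∧
      ∃ p, (p, v) ∈ pairUp (ancs x t) ∧ p < hi ∧ ((v < a ∧ e ≤ p) ∨ (e ≤ v ∧ v ∈ Rg a t)) := by
    intro v hv
    rw [Finset.mem_sdiff, PtOut_mem, PtOut_mem] at hv
    obtain ⟨⟨hv1, hv2⟩, hv3⟩ := hv
    push Not at hv2
    have hv4 : v < hi := by omega
    have hvL : v ∉ Rg lo t := by
      intro h4
      have h5 : v ∈ Rg lo (splay x t) := (F2R hb hm hxh).2 (Or.inr ⟨by omega, Or.inl h4⟩)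
      have := hv2.1 h5
      omega
    have hvh : lo ≤ v := by omega
    have hvR : v ∉ Lg hi (splay x t) := by
      intro h4
      have := hv2.2 h4
      omega
    have fin : ∀ (hv' : (v ∈ Lg e t ∧ lo ≤ v ∧ v < a) ∨ (v ∈ Rg a t ∧ e ≤ v ∧ v < hi)),
        v ∈ Lg hi t ∧ ∃ p, (p, v) ∈ pairUp (ancs x t) ∧ p < hi := by
      intro hv'
      have h4 : (v ∈ Rg lo t ∧ v < hi) ∨ (v ∈ Lg hi t ∧ lo ≤ v) := by
        by_contra h5
        exact hv3 ⟨hv', h5⟩
      have h5 : v ∈ Lg hi t := by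
        rcases h4 with h4 | h4
        · exact absurd h4.1 hvL
        · exact h4.1
      refine ⟨h5, ?_⟩
      by_contra h6
      exact hvR ((F1L hb hm hx).2 ⟨h5, h6⟩)
    rcases hv1 with ⟨h4, h5, h6⟩ | ⟨h4, h5, h6⟩
    · have h7 := (F1L hb hm hxe).1 h4
      obtain ⟨h8, p, h9, h10⟩ := fin (Or.inl ⟨h7.1, h5, h6⟩)
      refine ⟨h8, hvh, hvR, hvL, (mem_pairUp h9).2, hv4, p, h9, h10, Or.inl ⟨h6, ?_⟩⟩
      by_contra h11
      exact h7.2 ⟨p, h9, by omega⟩
    · -- v in ptR after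
      have h7 : v ∈ Rg a t := by
        rcases (F2R hb hm hxa).1 h4 with h8 | ⟨h8, h9 | ⟨g, h9, h10, h11⟩⟩
        · omega
        · exact h9
        · exfalso
          apply hvR
          rw [F1L hb hm hx]
          refine ⟨anc_Lg hb hm hx (mem_pairUp h9).1 hv4, ?_⟩
          rintro ⟨p, h12, -⟩
          exact pairUp_fst_ne_snd hnd h9 h12
      obtain ⟨h8, p, h9, h10⟩ := fin (Or.inr ⟨h7, h5, h6⟩)
      exact ⟨h8, hvh, hvR, hvL, (mem_pairUp h9).2, hv4, p, h9, h10, Or.inr ⟨h5, h7⟩⟩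
  have huniq : ((ptL lo a e hi (splay x t) ∪ ptR lo a e hi (splay x t)) \
      (ptL lo a e hi t ∪ ptR lo a e hi t)).card ≤ 1 := by
    rw [Finset.card_le_one]
    intro v hv w hw
    obtain ⟨-, -, -, -, hv5, hv6, p, hp1, hp2, hp3⟩ := key v hv
    obtain ⟨-, -, -, -, hw5, hw6, q, hq1, hq2, hq3⟩ := key w hw
    have a1 := PtOut_adjL hb hm hp1 hw5 (by omega) (by omega) (by omega)
    have a2 := PtOut_adjL hb hm hq1 hv5 (by omega) (by omega) (by omega)
    have mixed : ∀ {v w p q : ℕ}, (p, v) ∈ pairUp (ancs x t) → (q, w) ∈ pairUp (ancs x t) →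
        p < hi → w < hi → v < a → e ≤ p → e ≤ w → w ∈ Rg a t → p ≤ w → False := by
      intro v w p q hp hq hlp hlw hev hpa hwa hwe hwp
      have hne : w ≠ p := by
        rintro rfl
        exact pairUp_fst_ne_snd hnd hp hq
      have h4 : p ∈ Rg a t := PtOut_upR hb hm (by omega) (by omega) (by omega)
        (mem_pairUp hp).1 hwe
      exact hne (lca_R hb hm hxa hwe (mem_pairUp hq).2 (by omega) h4 (mem_pairUp hp).1 (by omega))
    rcases hp3 with ⟨hp3, hp4⟩ | ⟨hp3, hp4⟩ <;> rcases hq3 with ⟨hq3, hq4⟩ | ⟨hq3, hq4⟩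
    · omega
    · exfalso
      exact mixed hp1 hq1 hp2 hw6 hp3 hp4 hq3 hq4 (by omega)
    · exfalso
      exact mixed hq1 hp1 hq2 hv6 hq3 hq4 hp3 hp4 (by omega)
    · exact lca_R hb hm hxa hp4 hv5 (by omega) hq4 hw5 (by omega)
  have hfs := FS1 hb hm (h1.trans (h2.trans h3)) (Or.inr hx : x < lo ∨ hi ≤ x)
  have hle : sig lo hi (splay x t) ≤ sig lo hi t := by omega
  unfold sig at hle ⊢
  rw [add_comm (Finset.card (Finset.filter (fun v => v < hi) (Rg lo (splay x t)))),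
    add_comm (Finset.card (Finset.filter (fun v => v < hi) (Rg lo t)))] at hle ⊢
  refine PtOut_comb hle huniq ?_
  intro v hv
  obtain ⟨hv1, hv2, hv3, hv4, hv5, hv6, -⟩ := key v hv
  refine PtOut_count (v := v) ?_ ?_ ?_ ?_ ?_
  · intro w hw
    rw [Finset.mem_filter] at hw ⊢
    exact ⟨((F1L hb hm hx).1 hw.1).1, hw.2⟩
  · rw [Finset.mem_filter]
    exact ⟨hv1, hv2⟩
  · rw [Finset.mem_filter]
    exact fun h => hv3 h.1
  · rw [Finset.card_le_one]
    intro v hv w hw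
    rw [Finset.mem_sdiff, Finset.mem_filter, Finset.mem_filter, not_and] at hv hw
    exact FS_uniqR hb hm hxh hv.1.1 (by have := hv.1.2; omega) (fun h => hv.2 h hv.1.2)
      hw.1.1 (by have := hw.1.2; omega) (fun h => hw.2 h hw.1.2)
  · rintro ⟨u, hu⟩
    rw [Finset.mem_sdiff, Finset.mem_filter, Finset.mem_filter, not_and] at hu
    obtain ⟨⟨h1, h2⟩, h3⟩ := hu
    rcases (F2R hb hm hxh).1 h1 with h4 | ⟨h4, h5 | ⟨g, h5, h6, h7⟩⟩
    · omega
    · exact absurd h2 (h3 h5)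
    refine ⟨g, ?_, ?_, ?_⟩
    · rw [Finset.mem_filter]
      exact ⟨anc_Lg hb hm hx (mem_pairUp h5).2 (by omega), (mem_Rg.1 h7).2⟩
    · rw [Finset.mem_filter]
      rintro ⟨h8, -⟩
      exact ((F1L hb hm hx).1 h8).2 ⟨u, h5, h2⟩
    · rintro rfl
      exact hv4 h7

theorem pt_out {lo a e hi x : ℕ} {t : BinaryTree ℕ} (hb : IsBST t) (hm : x ∈ inorder t)
    (h1 : lo ≤ a) (h2 : a ≤ e) (h3 : e ≤ hi) (hx : x < lo ∨ hi ≤ x) :
    pt lo a e hi (splay x t) + sig lo hi (splay x t) ≤ pt lo a e hi t + sig lo hi t := by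
  rcases hx with hx | hx
  · exact PtOut_right hb hm h1 h2 h3 hx
  · exact PtOut_left hb hm h1 h2 h3 hx

end Pool.Agent.SplAll
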