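import Pool.Agent.SplAll.QNR

set_option autoImplicit false

/-!
QNL: the mirror image of QNR (left side): see the docstring of QNR.lean.  The touched left blocks are the blocks
i ∈ [j0, x/b) with an ancestor of x, lo = j0 b, a = (x/b) b ≤ x, S = spn lo a t.  The ancestors of x in [lo, a) decrease
upwards, lie in L(a) (`anc_Lg`); upper nodes of pairs below a are lost from L(a) (`F1L`), and are not in R'(lo) unless in
R(lo) (`F2R`), which happens for at most the topmost one.
-/

namespace Pool.Agent.SplAll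

open BinaryTree Pool.Agent.MP_c42954_lc.Scan Pool.Agent.SplPat

theorem QNL {b j0 x : ℕ} {t : BinaryTree ℕ} (hb : IsBST t) (hm : x ∈ inorder t) (h0 : 0 < b)
    (hx : j0 * b ≤ x) :
    qL b (j0 * b) x t + 2 * Ps b j0 (x / b) (splay x t) +
      2 * ∑ i ∈ Finset.Ico j0 (x / b), sig (i * b) ((i + 1) * b) (splay x t) ≤
    2 * Ps b j0 (x / b) t + 2 * ∑ i ∈ Finset.Ico j0 (x / b), sig (i * b) ((i + 1) * b) t +
      2 * rn (j0 * b) (x / b * b) x t + 1 := by
  classical
  set q := x / b with hqd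
  set lo := j0 * b with hlo
  set a0 := q * b with ha0
  set l := ancs x t with hl
  have hka : ∀ v, v / b < q ↔ v < a0 := fun v => Nat.div_lt_iff_lt_mul h0
  have hkl : ∀ v, j0 ≤ v / b ↔ lo ≤ v := fun v => Nat.le_div_iff_mul_le h0
  have ha0x : a0 ≤ x := Nat.div_mul_le_self x b
  have hloa : lo ≤ a0 := Nat.mul_le_mul_right b ((hkl x).2 hx)
  have hblk : ∀ i v, v / b = i ↔ i * b ≤ v ∧ v < (i + 1) * b := by
    intro i v
    constructor
    · intro h
      exact ⟨(Nat.le_div_iff_mul_le h0).1 (by omega), (Nat.div_lt_iff_lt_mul h0).1 (by omega)⟩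
    · rintro ⟨h1, h2⟩
      have h3 := (Nat.le_div_iff_mul_le h0).2 h1
      have h4 := (Nat.div_lt_iff_lt_mul h0).2 h2
      omega
  have hnd : l.Nodup := ancs_nodup hb hm
  set a : ℕ → ℕ := fun k => l.getD k 0 with ha
  set P := (Finset.range l.length).filter (fun k => (decide (lo ≤ a k ∧ a k < a0)) = true) with hP
  have hmemP : ∀ k, k ∈ P ↔ k < l.length ∧ lo ≤ a k ∧ a k < a0 := by
    intro k
    rw [hP, Finset.mem_filter, Finset.mem_range, decide_eq_true_eq]
  have hanc : ∀ k ∈ P, a k ∈ ancs x t := fun k hk => QNR_getD_mem ((hmemP k).1 hk).1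
  have hord : ∀ k ∈ P, ∀ k' ∈ P, k < k' → a k' < a k := by
    intro k hk k' hk' hkk
    have h1 := (hmemP k).1 hk
    have h2 := (hmemP k').1 hk'
    have h3 := List.pairwise_iff_getElem.1 (ancs_order hb hm) k k' h1.1 h2.1 hkk
    have e1 : a k = (ancs x t)[k]'h1.1 := List.getD_eq_getElem _ _ h1.1
    have e2 : a k' = (ancs x t)[k']'h2.1 := List.getD_eq_getElem _ _ h2.1
    rw [e1, e2]
    refine h3.2 ?_ ?_
    · rw [← e1]; omega
    · rw [← e2]; omega
  set ρ : ℕ → ℕ := fun k => a k / b with hρ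
  have hρ1 : ∀ k ∈ P, j0 ≤ ρ k ∧ ρ k < q := fun k hk =>
    ⟨(hkl _).2 ((hmemP k).1 hk).2.1, (hka _).2 ((hmemP k).1 hk).2.2⟩
  set β : ℕ → ℕ := fun k => q - ρ k with hβ
  have hβρ : ∀ k ∈ P, ∀ c, β k = c → ρ k = q - c := by
    intro k hk c h
    have h1 := hρ1 k hk
    have h2 : q - ρ k = c := h
    omega
  have hmono : ∀ k ∈ P, ∀ k' ∈ P, k < k' → β k ≤ β k' := fun k hk k' hk' hkk => by
    have h1 : ρ k' ≤ ρ k := Nat.div_le_div_right (hord k hk k' hk' hkk).le
    show q - ρ k ≤ q - ρ k'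
    omega
  set S := spn lo a0 t with hS
  set S' := spn lo a0 (splay x t) with hS'
  have hsub : S' ⊆ S := spn_out hb hm hloa (Or.inr ha0x)
  set σ : ℕ → ℕ := fun i => (S.filter (fun v => v / b = i)).card with hσ
  set σ' : ℕ → ℕ := fun i => (S'.filter (fun v => v / b = i)).card with hσ'
  set γ : ℕ → ℕ := fun i => sig (i * b) ((i + 1) * b) t - sig (i * b) ((i + 1) * b) (splay x t)
    with hγ
  have hTI : ∀ c ∈ P.image β, 1 ≤ c ∧ j0 ≤ q - c ∧ q - c < q ∧ c ≤ q := by
    intro c hc
    obtain ⟨k, hk, rfl⟩ := Finset.mem_image.1 hc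
    have h1 := hρ1 k hk
    have h2 : β k = q - ρ k := rfl
    omega
  have hxb : ∀ i, i < q → (i + 1) * b ≤ x := by
    intro i hi
    exact le_trans (Nat.mul_le_mul_right b hi) ha0x
  -- h1
  have h1 : ∀ c ∈ P.image β, (∃ c' ∈ P.image β, c < c') →
      (∀ k ∈ P, β k = c → 0 < k ∧ k - 1 ∈ P) →
      σ (q - c) = (P.filter (fun k => β k = c)).card ∧
      σ' (q - c) ≤ (P.filter (fun k => β k = c ∧ k % 2 = 0)).card := by
    intro c hc hc' hns
    obtain ⟨c', hc', hcc⟩ := hc'
    have hcI := hTI c hc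
    have hcI' := hTI c' hc'
    obtain ⟨kz, hkz, hkzc⟩ := Finset.mem_image.1 hc'
    have hkzr : a kz / b = q - c' := hβρ kz hkz c' hkzc
    set B := P.filter (fun k => β k = c) with hB
    have hBn : B.Nonempty := by
      obtain ⟨k, hk, hkc⟩ := Finset.mem_image.1 hc
      exact ⟨k, Finset.mem_filter.2 ⟨hk, hkc⟩⟩
    obtain ⟨m, hmB, hmin⟩ : ∃ m ∈ B, ∀ k ∈ B, m ≤ k :=
      ⟨_, Finset.min'_mem _ hBn, fun k hk => Finset.min'_le _ k hk⟩
    have hmP := Finset.mem_filter.1 hmB
    obtain ⟨hm0, hm1⟩ := hns m hmP.1 hmP.2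
    have hzP := (hmemP kz).1 hkz
    -- (1)
    have hSB : S.filter (fun v => v / b = q - c) = B.image a := by
      ext v
      rw [Finset.mem_filter, Finset.mem_image]
      constructor
      · rintro ⟨hv, hvc⟩
        have hvz : a kz < v := by
          by_contra hcon
          push Not at hcon
          have := Nat.div_le_div_right (c := b) hcon
          omega
        have hve : lo ≤ v := (hkl v).1 (by omega)
        have hvhi : v < a0 := (hka v).1 (by omega)
        have hva : v ∈ ancs x t := by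
          by_contra hcon
          rw [hS, spn, Finset.mem_union, Finset.mem_filter, Finset.mem_filter] at hv
          rcases hv with ⟨hv1, _⟩ | ⟨hv1, _⟩
          · have h5 := Rg_anc hb (onP_mem ((mem_ancs hb hm).1 (hanc kz hkz)).1) hzP.2.1 hv1 hvz
            exact hcon (QNR_anc_trans hb hm (hanc kz hkz) h5 (by omega))
          · have h5 := Lg_above hb hm ha0x hv1 hcon (hanc _ hm1) ((hmemP _).1 hm1).2.2
            have h6 : β (m - 1) ≠ c := by
              intro h
              have := hmin (m - 1) (Finset.mem_filter.2 ⟨hm1, h⟩)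
              omega
            have h7 := hmono (m - 1) hm1 m hmP.1 (by omega)
            have h8 : a (m - 1) / b ≤ v / b := Nat.div_le_div_right (c := b) h5.le
            have h9 : β (m - 1) = q - a (m - 1) / b := rfl
            have h10 := hmP.2
            omega
        obtain ⟨k, hk, hkv⟩ := List.mem_iff_getElem.1 hva
        have hak : a k = v := by
          rw [← hkv]
          exact List.getD_eq_getElem _ _ hk
        refine ⟨k, Finset.mem_filter.2 ⟨(hmemP k).2 ⟨hk, by omega, by omega⟩, ?_⟩, hak⟩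
        show q - a k / b = c
        rw [hak, hvc]
        omega
      · rintro ⟨k, hk, rfl⟩
        obtain ⟨hkP, hkc⟩ := Finset.mem_filter.1 hk
        have h5 := (hmemP k).1 hkP
        refine ⟨?_, hβρ k hkP c hkc⟩
        rw [hS, spn, Finset.mem_union, Finset.mem_filter, Finset.mem_filter]
        exact Or.inr ⟨anc_Lg hb hm ha0x (hanc k hkP) h5.2.2, h5.2.1⟩
    have hinj : Set.InjOn a (B : Set ℕ) := by
      intro k hk k' hk' h
      have h5 := (hmemP k).1 (Finset.mem_filter.1 (Finset.mem_coe.1 hk)).1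
      have h6 := (hmemP k').1 (Finset.mem_filter.1 (Finset.mem_coe.1 hk')).1
      exact QNR_getD_inj hnd h5.1 h6.1 h
    constructor
    · show (S.filter (fun v => v / b = q - c)).card = B.card
      rw [hSB, Finset.card_image_of_injOn hinj]
    · show (S'.filter (fun v => v / b = q - c)).card ≤ _
      refine le_trans (Finset.card_le_card (t := (P.filter
        (fun k => β k = c ∧ k % 2 = 0)).image a) ?_) Finset.card_image_le
      intro v hv
      obtain ⟨hv1, hv2⟩ := Finset.mem_filter.1 hv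
      have hv3 : v ∈ S.filter (fun v => v / b = q - c) := Finset.mem_filter.2 ⟨hsub hv1, hv2⟩
      rw [hSB] at hv3
      obtain ⟨k, hk, rfl⟩ := Finset.mem_image.1 hv3
      obtain ⟨hkP, hkc⟩ := Finset.mem_filter.1 hk
      refine Finset.mem_image.2 ⟨k, Finset.mem_filter.2 ⟨hkP, hkc, ?_⟩, rfl⟩
      by_contra hodd
      have hodd' : k % 2 = 1 := by omega
      obtain ⟨hk0, hk1⟩ := hns k hkP hkc
      have h5 := (hmemP k).1 hkP
      have h6 := (hmemP (k - 1)).1 hk1
      have hpair : (a (k - 1), a k) ∈ pairUp (ancs x t) := QNR_pair hodd' h5.1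
      have hkz' : k < kz := by
        rcases lt_trichotomy k kz with h | h | h
        · exact h
        · rw [← h, hkc] at hkzc; omega
        · have := hmono kz hkz k hkP h
          omega
      rw [hS', spn, Finset.mem_union, Finset.mem_filter, Finset.mem_filter] at hv1
      rcases hv1 with ⟨hv1, _⟩ | ⟨hv1, _⟩
      · rcases (F2R hb hm hx).1 hv1 with h7 | ⟨_, h7 | ⟨g', h7, _⟩⟩
        · omega
        · have h8 := Rg_anc hb (onP_mem ((mem_ancs hb hm).1 (hanc kz hkz)).1) hzP.2.1 h7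
            (hord k hkP kz hkz hkz')
          exact QNR_not_anc hb hm hkz' hzP.1 h8
        · exact pairUp_fst_ne_snd hnd h7 hpair
      · exact ((F1L hb hm ha0x).1 hv1).2 ⟨a (k - 1), hpair, h6.2.2⟩
  -- h2
  have h2 : ∀ k ∈ P, ∀ k' ∈ P, k < k' → k % 2 = 1 → k' % 2 = 1 → k - 1 ∈ P → k' - 1 ∈ P →
      β (k - 1) = β k → β k' = β k → β (k' - 1) = β k → 1 ≤ γ (q - β k) := by
    intro k hk k' hk' hkk ho ho' hk1 hk1' e1 e2 e3
    set c := β k with hc
    have hcI := hTI c (Finset.mem_image.2 ⟨k, hk, rfl⟩)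
    set i := q - c with hi
    have hxc : (i + 1) * b ≤ x := hxb i (by omega)
    have hib : i * b ≤ (i + 1) * b := Nat.mul_le_mul_right b (Nat.le_succ i)
    have hkl := (hmemP k).1 hk
    have hkl' := (hmemP k').1 hk'
    have hpop : 2 ≤ pop x (i * b) ((i + 1) * b) t := by
      unfold pop
      rw [if_neg (by omega)]
      have hin : ∀ j ∈ P, j % 2 = 1 → j - 1 ∈ P → β j = c → β (j - 1) = c →
          a j ∈ ((Lg ((i + 1) * b) t).filter (fun v => i * b ≤ v)) \
            Lg ((i + 1) * b) (splay x t) := by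
        intro j hj hjo hj1 hjc hjc1
        have h5 := (hblk i (a j)).1 (hβρ j hj c hjc)
        have h6 := (hblk i (a (j - 1))).1 (hβρ (j - 1) hj1 c hjc1)
        rw [Finset.mem_sdiff, Finset.mem_filter]
        refine ⟨⟨anc_Lg hb hm hxc (hanc j hj) h5.2, h5.1⟩, ?_⟩
        intro h7
        exact ((F1L hb hm hxc).1 h7).2 ⟨a (j - 1), QNR_pair hjo ((hmemP j).1 hj).1, h6.2⟩
      have h5 := hin k hk ho hk1 rfl e1
      have h6 := hin k' hk' ho' hk1' e2 e3
      have hne : a k ≠ a k' := by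
        intro h
        have := QNR_getD_inj hnd hkl.1 hkl'.1 h
        omega
      exact Finset.one_lt_card.2 ⟨a k, h5, a k', h6, hne⟩
    have h5 := FS1 hb hm hib (Or.inr hxc)
    show 1 ≤ sig (i * b) ((i + 1) * b) t - sig (i * b) ((i + 1) * b) (splay x t)
    have h6 : min 1 (pop x (i * b) ((i + 1) * b) t) ≤ 1 := min_le_left _ _
    have h5' : sig (i * b) ((i + 1) * b) (splay x t) + pop x (i * b) ((i + 1) * b) t ≤
        sig (i * b) ((i + 1) * b) t + min 1 (pop x (i * b) ((i + 1) * b) t) := h5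
    omega
  have hcore := QNR_core (P := P) (β := β) (s := fun c => σ (q - c)) (s' := fun c => σ' (q - c))
    (g := fun c => γ (q - c)) hmono h1 h2
  have hrn : rn lo a0 x t = (P.filter (fun k => k = 0 ∨ k - 1 ∉ P)).card := by
    unfold rn
    exact QNR_runs' _ _
  have hqL : qL b lo x t = (P.image ρ).card := by
    unfold qL
    congr 1
    ext c
    simp only [List.mem_toFinset, List.mem_map, List.mem_filter, Finset.mem_image,
      decide_eq_true_eq]
    constructor
    · rintro ⟨v, ⟨hv, h5, h6⟩, rfl⟩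
      obtain ⟨k, hk, hkv⟩ := List.mem_iff_getElem.1 hv
      have hak : a k = v := by
        rw [← hkv]
        exact List.getD_eq_getElem _ _ hk
      refine ⟨k, (hmemP k).2 ⟨hk, ?_, ?_⟩, ?_⟩
      · rw [hak]; exact h6
      · rw [hak]; exact (hka v).1 h5
      · show a k / b = v / b
        rw [hak]
    · rintro ⟨k, hk, rfl⟩
      have h5 := (hmemP k).1 hk
      exact ⟨a k, ⟨hanc k hk, (hka _).2 h5.2.2, h5.2.1⟩, rfl⟩
  have hinjT : Set.InjOn (fun c => q - c) (P.image β : Set ℕ) := by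
    intro c hc c' hc' h
    have h5 := hTI c (Finset.mem_coe.1 hc)
    have h6 := hTI c' (Finset.mem_coe.1 hc')
    have h7 : q - c = q - c' := h
    omega
  have hTim : (P.image β).image (fun c => q - c) = P.image ρ := by
    ext i
    simp only [Finset.mem_image]
    constructor
    · rintro ⟨c, ⟨k, hk, rfl⟩, rfl⟩
      exact ⟨k, hk, hβρ k hk _ rfl⟩
    · rintro ⟨k, hk, rfl⟩
      exact ⟨β k, ⟨k, hk, rfl⟩, (hβρ k hk _ rfl).symm⟩
  have hq : qL b lo x t = (P.image β).card := by
    rw [hqL, ← hTim, Finset.card_image_of_injOn hinjT]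
  have hsumT : ∑ c ∈ P.image β, (min (σ (q - c)) 3 - min (σ' (q - c)) 3 + γ (q - c)) ≤
      ∑ i ∈ Finset.Ico j0 q, (min (σ i) 3 - min (σ' i) 3 + γ i) := by
    rw [← Finset.sum_image (f := fun i => min (σ i) 3 - min (σ' i) 3 + γ i)
      (g := fun c => q - c) hinjT, hTim]
    apply Finset.sum_le_sum_of_subset
    intro i hi
    obtain ⟨k, hk, rfl⟩ := Finset.mem_image.1 hi
    exact Finset.mem_Ico.2 (hρ1 k hk)
  have hsumI : ∑ i ∈ Finset.Ico j0 q, (min (σ i) 3 - min (σ' i) 3 + γ i) =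
      ∑ i ∈ Finset.Ico j0 q, (min (σ i) 3 - min (σ' i) 3) + ∑ i ∈ Finset.Ico j0 q, γ i :=
    Finset.sum_add_distrib
  have hss : ∀ c, σ' c ≤ σ c := fun c => Finset.card_le_card (Finset.filter_subset_filter _ hsub)
  have hsum1 : ∑ i ∈ Finset.Ico j0 q, min (σ' i) 3 +
      ∑ i ∈ Finset.Ico j0 q, (min (σ i) 3 - min (σ' i) 3) =
      ∑ i ∈ Finset.Ico j0 q, min (σ i) 3 := by
    rw [← Finset.sum_add_distrib]
    refine Finset.sum_congr rfl (fun c _ => ?_)
    have := hss c
    omega
  have hsum2 : ∑ c ∈ Finset.Ico j0 q, sig (c * b) ((c + 1) * b) (splay x t) +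
      ∑ c ∈ Finset.Ico j0 q, γ c =
      ∑ c ∈ Finset.Ico j0 q, sig (c * b) ((c + 1) * b) t := by
    rw [← Finset.sum_add_distrib]
    refine Finset.sum_congr rfl (fun c hc => ?_)
    have h5 := FS1 hb hm (Nat.mul_le_mul_right b (Nat.le_succ c))
      (Or.inr (hxb c (Finset.mem_Ico.1 hc).2))
    have h5' : sig (c * b) ((c + 1) * b) (splay x t) + pop x (c * b) ((c + 1) * b) t ≤
        sig (c * b) ((c + 1) * b) t + min 1 (pop x (c * b) ((c + 1) * b) t) := h5
    show _ + (sig (c * b) ((c + 1) * b) t - sig (c * b) ((c + 1) * b) (splay x t)) = _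
    omega
  have hPs : Ps b j0 q t = ∑ c ∈ Finset.Ico j0 q, min (σ c) 3 := rfl
  have hPs' : Ps b j0 q (splay x t) = ∑ c ∈ Finset.Ico j0 q, min (σ' c) 3 := rfl
  rw [hq, hrn, hPs, hPs']
  omega

end Pool.Agent.SplAll
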