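import Pool.Agent.SplAll.QNR
import Pool.Agent.SplAll.QNL
import Pool.Agent.SplAll.BR
import Pool.Agent.SplAll.PtOut
import Pool.Agent.SplAll.PtIn
import Pool.Agent.SplPat.PSum

set_option autoImplicit false

/-!
BSTEP.  Assembly of the change of the potential `QJ` of one group (blocks i N, ..., (i+1) N - 1 of length b).
-/

namespace Pool.Agent.SplAll

open BinaryTree Pool.Agent.MP_c42954_lc.Scan Pool.Agent.SplPat

theorem BStep_blk {N k i : ℕ} (hN : 0 < N) (hk : k / N = i) : i * N ≤ k ∧ k < (i + 1) * N := by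
  subst hk
  constructor
  · exact Nat.div_mul_le_self k N
  · have := Nat.lt_div_mul_add (a := k) hN
    have e : (k / N + 1) * N = k / N * N + N := by ring
    omega

/-- `x` is not in the group `i`. -/
theorem BStep_out {b N i x : ℕ} (h0 : 0 < b) (hN : 0 < N) (hx : x / b / N ≠ i) :
    x < i * N * b ∨ (i + 1) * N * b ≤ x := by
  rcases Nat.lt_or_ge (x / b / N) i with h | h
  · left
    rw [Nat.div_lt_iff_lt_mul hN] at h
    rwa [Nat.div_lt_iff_lt_mul h0] at h
  · right
    have h1 : i + 1 ≤ x / b / N := by omega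
    rw [Nat.le_div_iff_mul_le hN] at h1
    rwa [Nat.le_div_iff_mul_le h0] at h1

theorem BStep_sigK {b N x : ℕ} {t : BinaryTree ℕ} (hb : IsBST t) (hm : x ∈ inorder t)
    (h0 : 0 < b) (hN : 0 < N) :
    ∑ c ∈ Finset.Ico (x / b / N * N) ((x / b / N + 1) * N), sig (c * b) ((c + 1) * b) (splay x t) ≤
    ∑ c ∈ Finset.Ico (x / b / N * N) ((x / b / N + 1) * N), sig (c * b) ((c + 1) * b) t + 4 := by
  obtain ⟨k1, k2⟩ := BStep_blk (k := x / b) hN rfl
  have hmem : x / b ∈ Finset.Ico (x / b / N * N) ((x / b / N + 1) * N) :=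
    Finset.mem_Ico.2 ⟨k1, k2⟩
  rw [← Finset.add_sum_erase _ _ hmem, ← Finset.add_sum_erase _ _ hmem]
  have h1 : sig (x / b * b) ((x / b + 1) * b) (splay x t) + van x (x / b * b) ((x / b + 1) * b) t ≤
      sig (x / b * b) ((x / b + 1) * b) t + 4 := by
    refine FS2 hb hm (Nat.div_mul_le_self x b) ?_
    have := Nat.lt_div_mul_add (a := x) h0
    have e : (x / b + 1) * b = x / b * b + b := by ring
    omega
  have h2 : ∑ c ∈ (Finset.Ico (x / b / N * N) ((x / b / N + 1) * N)).erase (x / b),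
        sig (c * b) ((c + 1) * b) (splay x t) ≤
      ∑ c ∈ (Finset.Ico (x / b / N * N) ((x / b / N + 1) * N)).erase (x / b),
        sig (c * b) ((c + 1) * b) t := by
    refine Finset.sum_le_sum fun c hc => ?_
    have hne : c ≠ x / b := (Finset.mem_erase.1 hc).1
    have hout : x < c * b ∨ (c + 1) * b ≤ x := by
      rcases Nat.lt_or_ge (x / b) c with h | h
      · left
        rwa [Nat.div_lt_iff_lt_mul h0] at h
      · right
        have h3 : c + 1 ≤ x / b := by omega
        rwa [Nat.le_div_iff_mul_le h0] at h3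
    have h4 := FS1 hb hm (Nat.mul_le_mul_right b (Nat.le_succ c)) hout
    have h5 : min 1 (pop x (c * b) ((c + 1) * b) t) ≤ pop x (c * b) ((c + 1) * b) t :=
      Nat.min_le_right _ _
    change sig (c * b) ((c + 1) * b) (splay x t) + pop x (c * b) ((c + 1) * b) t ≤
      sig (c * b) ((c + 1) * b) t + min 1 (pop x (c * b) ((c + 1) * b) t) at h4
    omega
  omega

theorem BStep_qR {b x j1 : ℕ} {t : BinaryTree ℕ} (h0 : 0 < b) :
    qR b (j1 * b) x t ≤ j1 - (x / b + 1) := by
  classical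
  unfold qR
  have hsub : (((ancs x t).filter (fun v => x / b < v / b ∧ v < j1 * b)).map
      (fun v => v / b)).toFinset ⊆ Finset.Ico (x / b + 1) j1 := by
    intro c hc
    rw [List.mem_toFinset, List.mem_map] at hc
    obtain ⟨v, hv, rfl⟩ := hc
    rw [List.mem_filter, decide_eq_true_eq] at hv
    rw [Finset.mem_Ico]
    refine ⟨hv.2.1, ?_⟩
    rw [Nat.div_lt_iff_lt_mul h0]
    exact hv.2.2
  have := Finset.card_le_card hsub
  rwa [Nat.card_Ico] at this

theorem BStep_qL {b x j0 : ℕ} {t : BinaryTree ℕ} (h0 : 0 < b) :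
    qL b (j0 * b) x t ≤ x / b - j0 := by
  classical
  unfold qL
  have hsub : (((ancs x t).filter (fun v => v / b < x / b ∧ j0 * b ≤ v)).map
      (fun v => v / b)).toFinset ⊆ Finset.Ico j0 (x / b) := by
    intro c hc
    rw [List.mem_toFinset, List.mem_map] at hc
    obtain ⟨v, hv, rfl⟩ := hc
    rw [List.mem_filter, decide_eq_true_eq] at hv
    rw [Finset.mem_Ico]
    refine ⟨?_, hv.2.1⟩
    rw [Nat.le_div_iff_mul_le h0]
    exact hv.2.2
  have := Finset.card_le_card hsub
  rwa [Nat.card_Ico] at this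

theorem BOUT {b N i k x : ℕ} {t : BinaryTree ℕ} (hb : IsBST t) (hm : x ∈ inorder t) (h0 : 0 < b)
    (hN : 0 < N) (hk : k / N = i) (hx : x / b / N ≠ i) : QJ b N i k (splay x t) ≤ QJ b N i k t := by
  obtain ⟨k1, k2⟩ := BStep_blk hN hk
  have hout := BStep_out h0 hN hx
  have m1 : i * N * b ≤ k * b := Nat.mul_le_mul_right b k1
  have m2 : k * b ≤ (k + 1) * b := Nat.mul_le_mul_right b (Nat.le_succ k)
  have m3 : (k + 1) * b ≤ (i + 1) * N * b := Nat.mul_le_mul_right b k2
  have p1 : Ps b (i * N) k (splay x t) ≤ Ps b (i * N) k t := by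
    refine Ps_out hb hm ?_
    rcases hout with h | h
    · exact Or.inl h
    · exact Or.inr (by omega)
  have p2 : Ps b (k + 1) ((i + 1) * N) (splay x t) ≤ Ps b (k + 1) ((i + 1) * N) t := by
    refine Ps_out hb hm ?_
    rcases hout with h | h
    · exact Or.inl (by omega)
    · exact Or.inr h
  have p3 := PSUM_out (b := b) (j0 := i * N) (j1 := (i + 1) * N) hb hm hout
  have p4 := pt_out (lo := i * N * b) (a := k * b) (e := (k + 1) * b) (hi := (i + 1) * N * b)
    hb hm m1 m2 m3 hout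
  unfold QJ
  omega

theorem BIN {b N x : ℕ} {t : BinaryTree ℕ} (hb : IsBST t) (hm : x ∈ inorder t) (h0 : 0 < b)
    (hN : 0 < N) :
    qq b N x t + QJ b N (x / b / N) (x / b) (splay x t) ≤ QJ b N (x / b / N) (x / b) t + 28 := by
  obtain ⟨k1, k2⟩ := BStep_blk (k := x / b) hN rfl
  have m1 : x / b / N * N * b ≤ x / b * b := Nat.mul_le_mul_right b k1
  have m2 : x / b * b ≤ x := Nat.div_mul_le_self x b
  have m3 : x < (x / b + 1) * b := by
    have := Nat.lt_div_mul_add (a := x) h0
    have e : (x / b + 1) * b = x / b * b + b := by ring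
    omega
  have m4 : (x / b + 1) * b ≤ (x / b / N + 1) * N * b := Nat.mul_le_mul_right b k2
  have q1 := QNR (j1 := (x / b / N + 1) * N) hb hm h0 (by omega)
  have q2 := QNL (j0 := x / b / N * N) hb hm h0 (by omega)
  have r1 := BRR hb hm m1 m2 m3 m4
  have r2 := BRL hb hm m1 m2 m3 m4
  have f1 := FS2 hb hm (m1.trans m2) (m3.trans_le m4)
  have f2 := FS2 hb hm m2 m3
  have f3 := pt_in (lo := x / b / N * N * b) (hi := (x / b / N + 1) * N * b) hb hm m2 m3
  have s1 : ∀ u : BinaryTree ℕ, ∑ c ∈ Finset.Ico (x / b / N * N) ((x / b / N + 1) * N),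
      sig (c * b) ((c + 1) * b) u =
      ∑ c ∈ Finset.Ico (x / b / N * N) (x / b), sig (c * b) ((c + 1) * b) u +
        (sig (x / b * b) ((x / b + 1) * b) u +
          ∑ c ∈ Finset.Ico (x / b + 1) ((x / b / N + 1) * N), sig (c * b) ((c + 1) * b) u) := by
    intro u
    rw [← Finset.sum_Ico_consecutive _ k1 k2.le, Finset.sum_eq_sum_Ico_succ_bot k2]
  unfold van at f1 f2
  unfold qq QJ
  rw [s1, s1, f3]
  unfold pt
  omega

theorem BSW {b N k x : ℕ} {t : BinaryTree ℕ} (hb : IsBST t) (hm : x ∈ inorder t) (h0 : 0 < b)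
    (hN : 0 < N) (hk : k / N = x / b / N) :
    qq b N x t + QJ b N (x / b / N) (x / b) (splay x t) ≤
      QJ b N (x / b / N) k t + (7 * N + 16) := by
  obtain ⟨k1, k2⟩ := BStep_blk (k := x / b) hN rfl
  have m1 : x / b / N * N * b ≤ x / b * b := Nat.mul_le_mul_right b k1
  have m2 : x / b * b ≤ x := Nat.div_mul_le_self x b
  have m3 : x < (x / b + 1) * b := by
    have := Nat.lt_div_mul_add (a := x) h0
    have e : (x / b + 1) * b = x / b * b + b := by ring
    omega
  have m4 : (x / b + 1) * b ≤ (x / b / N + 1) * N * b := Nat.mul_le_mul_right b k2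
  have q1 := BStep_qR (x := x) (j1 := (x / b / N + 1) * N) (t := t) h0
  have q2 := BStep_qL (x := x) (j0 := x / b / N * N) (t := t) h0
  have p1 := Ps_le (b := b) (i0 := x / b / N * N) (i1 := x / b) (t := splay x t)
  have p2 := Ps_le (b := b) (i0 := x / b + 1) (i1 := (x / b / N + 1) * N) (t := splay x t)
  have s1 := BStep_sigK (N := N) hb hm h0 hN
  have f1 := FS2 hb hm (m1.trans m2) (m3.trans_le m4)
  have f3 := pt_in (lo := x / b / N * N * b) (hi := (x / b / N + 1) * N * b) hb hm m2 m3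
  have e1 : (x / b / N + 1) * N = x / b / N * N + N := by ring
  unfold qq QJ
  rw [f3]
  omega

end Pool.Agent.SplAll
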