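import Pool.Agent.SplAll.Defs
import Pool.Agent.SplPat.FX

set_option autoImplicit false

/-!
CNT.  Counting keys.
`sig_sum`: each key v of the tree is counted only for its own block i = v / b, at most twice (in R(i b) and in
L((i+1) b)).  So Σ_i sig ≤ 2 |keys|.  (`gp_mem`: nodes of gp are keys.)
`Ps_sum`: min(.,3) ≤ card; the sets spn(...) ∩ block c, for different blocks c of all groups, are disjoint sets of
keys (the block c of the group i is counted in exactly one of the two sums, since i N ≤ cur i < (i+1) N).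
`edg_sum`: edg b s ≤ number of nodes of s; the trees induced on disjoint intervals have together at most |keys| nodes
(`FX_edg_le`, `FX_res_inorder` in SplPat/FX.lean: (inorder (res lo hi t)) is a sublist of inorder t with all keys in
[lo, hi), and its length is the size).
-/

namespace Pool.Agent.SplAll

open BinaryTree Pool.Agent.MP_c42954_lc.Scan Pool.Agent.SplPat

private theorem Cnt_disj {K : Finset ℕ} {A : ℕ → Finset ℕ} (f : ℕ → ℕ) (s : Finset ℕ)
    (h : ∀ i ∈ s, ∀ v ∈ A i, v ∈ K ∧ f v = i) : ∑ i ∈ s, (A i).card ≤ K.card := by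
  rw [← Finset.card_biUnion]
  · apply Finset.card_le_card
    intro v hv
    rw [Finset.mem_biUnion] at hv
    obtain ⟨i, hi, hv⟩ := hv
    exact (h i hi v hv).1
  · intro i hi j hj hij
    refine Finset.disjoint_left.2 ?_
    intro v hv hv'
    exact hij ((h i hi v hv).2.symm.trans (h j hj v hv').2)

private theorem Cnt_key (t : BinaryTree ℕ) : (inorder t).toFinset.card ≤ (inorder t).length :=
  List.toFinset_card_le _

private theorem Cnt_div {b i v : ℕ} (h1 : i * b ≤ v) (h2 : v < (i + 1) * b) : v / b = i :=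
  Nat.div_eq_of_lt_le h1 h2

theorem sig_sum {b M : ℕ} {t : BinaryTree ℕ} (hb : IsBST t) (h0 : 0 < b) :
    ∑ i ∈ Finset.range M, sig (i * b) ((i + 1) * b) t ≤ 2 * (inorder t).length := by
  have h1 : ∑ i ∈ Finset.range M, ((Rg (i * b) t).filter (fun v => v < (i + 1) * b)).card ≤
      (inorder t).toFinset.card := by
    apply Cnt_disj (fun v => v / b)
    intro i _ v hv
    rw [Finset.mem_filter, mem_Rg] at hv
    exact ⟨List.mem_toFinset.2 (gp_mem hv.1.1), Cnt_div hv.1.2 hv.2⟩
  have h2 : ∑ i ∈ Finset.range M, ((Lg ((i + 1) * b) t).filter (fun v => i * b ≤ v)).card ≤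
      (inorder t).toFinset.card := by
    apply Cnt_disj (fun v => v / b)
    intro i _ v hv
    rw [Finset.mem_filter, mem_Lg] at hv
    exact ⟨List.mem_toFinset.2 (gp_mem hv.1.1), Cnt_div hv.2 hv.1.2⟩
  have h3 := Cnt_key t
  simp only [sig, Finset.sum_add_distrib]
  omega

private theorem Cnt_spn {a a' v : ℕ} {t : BinaryTree ℕ} (h : v ∈ spn a a' t) : v ∈ inorder t := by
  rw [spn, Finset.mem_union, Finset.mem_filter, Finset.mem_filter, mem_Rg, mem_Lg] at h
  rcases h with h | h
  · exact gp_mem h.1.1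
  · exact gp_mem h.1.1

private theorem Cnt_Ps (b i0 i1 : ℕ) (t : BinaryTree ℕ) :
    Ps b i0 i1 t ≤ ∑ i ∈ Finset.Ico i0 i1, ((inorder t).toFinset.filter (fun v => v / b = i)).card := by
  apply Finset.sum_le_sum
  intro i _
  refine (Nat.min_le_left _ _).trans (Finset.card_le_card ?_)
  intro v hv
  rw [Finset.mem_filter] at hv
  rw [Finset.mem_filter, List.mem_toFinset]
  exact ⟨Cnt_spn hv.1, hv.2⟩

theorem Ps_sum {b N M : ℕ} {cur : ℕ → ℕ} {t : BinaryTree ℕ} (hb : IsBST t) (h0 : 0 < b)
    (hN : 0 < N) (hc : ∀ i, cur i / N = i) :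
    ∑ i ∈ Finset.range M, (Ps b (i * N) (cur i) t + Ps b (cur i + 1) ((i + 1) * N) t) ≤
      (inorder t).length := by
  refine le_trans ?_ (Cnt_key t)
  refine le_trans (Finset.sum_le_sum (g := fun i =>
    ((inorder t).toFinset.filter (fun v => v / b / N = i)).card) ?_) ?_
  · intro i _
    have h1 : i * N ≤ cur i := by
      have := Nat.div_mul_le_self (cur i) N
      rwa [hc i] at this
    have h2 : cur i < (i + 1) * N := by
      have := Nat.lt_div_mul_add (a := cur i) hN
      rw [hc i] at this
      nlinarith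
    have h3 := Cnt_Ps b (i * N) (cur i) t
    have h4 := Cnt_Ps b (cur i + 1) ((i + 1) * N) t
    refine (add_le_add h3 h4).trans ?_
    rw [← Finset.sum_union]
    · apply Cnt_disj (fun v => v / b)
      intro c hcc v hv
      rw [Finset.mem_filter] at hv
      rw [Finset.mem_filter]
      refine ⟨⟨hv.1, ?_⟩, hv.2⟩
      rw [Finset.mem_union, Finset.mem_Ico, Finset.mem_Ico] at hcc
      rw [hv.2]
      exact Cnt_div (by omega) (by omega)
    · rw [Finset.disjoint_left]
      intro c hc1 hc2
      rw [Finset.mem_Ico] at hc1 hc2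
      omega
  · apply Cnt_disj (fun v => v / b / N)
    intro i _ v hv
    rw [Finset.mem_filter] at hv
    exact hv

theorem edg_sum {b B M : ℕ} {t : BinaryTree ℕ} (hb : IsBST t) :
    ∑ i ∈ Finset.range M, edg b (res (i * B) ((i + 1) * B) t) ≤ (inorder t).length := by
  refine le_trans ?_ (Cnt_key t)
  refine le_trans (Finset.sum_le_sum (g := fun i =>
    (inorder (res (i * B) ((i + 1) * B) t)).toFinset.card) ?_) ?_
  · intro i _
    obtain ⟨h1, h2, h3⟩ := FX_res_inorder (i * B) ((i + 1) * B) t
    refine (FX_edg_le b _).1.trans ?_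
    rw [← h3]
    have hnd : (inorder (res (i * B) ((i + 1) * B) t)).Nodup :=
      (List.Pairwise.sublist h1 hb).imp (fun h => ne_of_lt h)
    rw [← List.toFinset_card_of_nodup hnd]
  · apply Cnt_disj (fun v => v / B)
    intro i _ v hv
    obtain ⟨h1, h2, h3⟩ := FX_res_inorder (i * B) ((i + 1) * B) t
    rw [List.mem_toFinset] at hv
    exact ⟨List.mem_toFinset.2 (h1.subset hv), Cnt_div (h2 v hv).1 (h2 v hv).2⟩

end Pool.Agent.SplAll
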