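import Pool.Agent.SplAll.Defs

set_option autoImplicit false

/-!
COL.  The block of the highest key of a group, and rotations: one rotation changes the block of the
highest key for at most one group.
-/

namespace Pool.Agent.SplAll

open BinaryTree Pool.Agent.MP_c42954_lc.Scan Pool.Agent.SplPat

theorem tpf_spec {f : ℕ → ℕ} {lo hi c : ℕ} {T : BinaryTree ℕ} (h : tpf f lo hi T = some c) :
    c ∈ inorder T ∧ lo ≤ f c ∧ f c < hi := by
  induction T with
  | nil => simp [tpf] at h
  | node v l r ihl ihr =>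
    simp only [tpf] at h
    split_ifs at h with h1 h2
    · obtain ⟨h3, h4, h5⟩ := ihr h
      exact ⟨by simp [inorder, h3], h4, h5⟩
    · obtain ⟨h3, h4, h5⟩ := ihl h
      exact ⟨by simp [inorder, h3], h4, h5⟩
    · have : v = c := by simpa using h
      subst this
      exact ⟨by simp [inorder], by omega, by omega⟩

private theorem group_div {N j i y : ℕ} (h1 : i * N * N ^ j ≤ y) (h2 : y < (i + 1) * N * N ^ j) :
    y / N ^ j / N = i := by
  rw [Nat.div_div_eq_div_mul]
  apply Nat.div_eq_of_lt_le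
  · calc i * (N ^ j * N) = i * N * N ^ j := by ring
      _ ≤ y := h1
  · calc y < (i + 1) * N * N ^ j := h2
      _ = (i + 1) * (N ^ j * N) := by ring

theorem colf_valid {f : ℕ → ℕ} {N : ℕ} {T : BinaryTree ℕ} (hN : 0 < N) (j i : ℕ) :
    colf f N T j i / N = i := by
  unfold colf
  split
  · rename_i a h
    obtain ⟨-, h2, h3⟩ := tpf_spec h
    exact group_div h2 h3
  · exact Nat.mul_div_cancel _ hN

private theorem rot_tpf {f : ℕ → ℕ} (hf : Monotone f) {T T' : BinaryTree ℕ} (h : Rot T T')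
    (hb : IsBST T) : ∃ p c : ℕ, ∀ lo hi : ℕ, tpf f lo hi T = tpf f lo hi T' ∨
      ((lo ≤ f p ∧ f p < hi) ∧ (lo ≤ f c ∧ f c < hi) ∧ tpf f lo hi T = some p ∧
        tpf f lo hi T' = some c) := by
  induction h with
  | atLeftChild p q A B C =>
    refine ⟨p, q, fun lo hi => ?_⟩
    have h1 : q < p := (bst_node.1 hb).2.2.1 q (by simp [inorder])
    have h2 : f q ≤ f p := hf h1.le
    simp only [tpf]
    split_ifs <;> first | omega | exact Or.inl rfl | (exact Or.inr ⟨by omega, by omega, rfl, rfl⟩)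
  | atRightChild p q A B C =>
    refine ⟨p, q, fun lo hi => ?_⟩
    have h1 : p < q := (bst_node.1 hb).2.2.2 q (by simp [inorder])
    have h2 : f p ≤ f q := hf h1.le
    simp only [tpf]
    split_ifs <;> first | omega | exact Or.inl rfl | (exact Or.inr ⟨by omega, by omega, rfl, rfl⟩)
  | inLeft c r h ih =>
    obtain ⟨u, v, h1⟩ := ih (bst_node.1 hb).1
    refine ⟨u, v, fun lo hi => ?_⟩
    simp only [tpf]
    split_ifs
    · exact Or.inl rfl
    · exact h1 lo hi
    · exact Or.inl rfl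
  | inRight c l h ih =>
    obtain ⟨u, v, h1⟩ := ih (bst_node.1 hb).2.1
    refine ⟨u, v, fun lo hi => ?_⟩
    simp only [tpf]
    split_ifs
    · exact h1 lo hi
    · exact Or.inl rfl
    · exact Or.inl rfl

theorem rot_col {f : ℕ → ℕ} {N : ℕ} {T T' : BinaryTree ℕ} (hf : Monotone f) (hb : IsBST T)
    (hN : 2 ≤ N) (h : Rot T T') :
    ∃ j0 i0, ∀ j i, colf f N T j i ≠ colf f N T' j i → j = j0 ∧ i = i0 := by
  obtain ⟨p, c, hpc⟩ := rot_tpf hf h hb
  have key : ∀ j i, colf f N T j i ≠ colf f N T' j i →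
      f p / N ^ (j + 1) = i ∧ f c / N ^ (j + 1) = i ∧ f p / N ^ j ≠ f c / N ^ j := by
    intro j i hne
    rcases hpc (i * N * N ^ j) ((i + 1) * N * N ^ j) with h1 | ⟨h1, h2, h3, h4⟩
    · exact absurd (by unfold colf; rw [h1]) hne
    · have e1 := group_div h1.1 h1.2
      have e2 := group_div h2.1 h2.2
      rw [Nat.div_div_eq_div_mul, ← pow_succ] at e1 e2
      refine ⟨e1, e2, fun h5 => hne ?_⟩
      unfold colf
      rw [h3, h4]
      exact h5
  have mono : ∀ i j : ℕ, i ≤ j → f p / N ^ i = f c / N ^ i → f p / N ^ j = f c / N ^ j := by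
    intro i j hij h2
    obtain ⟨d, rfl⟩ := Nat.exists_eq_add_of_le hij
    rw [pow_add, ← Nat.div_div_eq_div_mul, ← Nat.div_div_eq_div_mul, h2]
  by_cases hex : ∃ j i, colf f N T j i ≠ colf f N T' j i
  · obtain ⟨j0, i0, h0⟩ := hex
    obtain ⟨a1, a2, a3⟩ := key j0 i0 h0
    refine ⟨j0, i0, fun j i hji => ?_⟩
    obtain ⟨b1, b2, b3⟩ := key j i hji
    have h2 : j = j0 := by
      rcases Nat.lt_trichotomy j j0 with h3 | h3 | h3
      · exact absurd (mono _ _ h3 (b1.trans b2.symm)) a3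
      · exact h3
      · exact absurd (mono _ _ h3 (a1.trans a2.symm)) b3
    subst h2
    exact ⟨rfl, by rw [← b1, a1]⟩
  · push Not at hex
    exact ⟨0, 0, fun j i hji => absurd (hex j i) hji⟩

end Pool.Agent.SplAll
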