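import Pool.Agent.SplAll.Defs

set_option autoImplicit false

/-!
DCOL.  The number of levels at which the highest key of the group of `f x` lies in another block
than `f x` is at most the depth of `x`: these highest keys are distinct ancestors of `x`.
-/

namespace Pool.Agent.SplAll

open BinaryTree Pool.Agent.MP_c42954_lc.Scan Pool.Agent.SplPat

private theorem tpf_path {f : ℕ → ℕ} (hf : Monotone f) {lo hi x : ℕ} (h1 : lo ≤ f x)
    (h2 : f x < hi) : ∀ {T : BinaryTree ℕ}, IsBST T → x ∈ inorder T →
    ∃ w, tpf f lo hi T = some w ∧ (w = x ∨ w ∈ ancs x T) ∧ lo ≤ f w ∧ f w < hi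
  | .nil, _, h => by simp [inorder] at h
  | .node v l r, hb, hm => by
      obtain ⟨hl, hr, hla, hra⟩ := bst_node.1 hb
      simp only [inorder, List.mem_append, List.mem_cons] at hm
      simp only [tpf, ancs]
      rcases hm with h | h | h
      · have h3 := hla x h
        have h4 : f x ≤ f v := hf h3.le
        have h5 : x ≠ v := by omega
        have h6 : ¬ f v < lo := by omega
        simp only [h5, h3, h6, if_true, if_false]
        split_ifs with h7
        · obtain ⟨w, h8, h9, h10⟩ := tpf_path hf h1 h2 hl h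
          refine ⟨w, h8, ?_, h10⟩
          rcases h9 with h9 | h9
          · exact Or.inl h9
          · exact Or.inr (by simp [h9])
        · exact ⟨v, rfl, Or.inr (by simp), by omega, by omega⟩
      · subst h
        have h6 : ¬ f x < lo := by omega
        have h7 : ¬ hi ≤ f x := by omega
        simp only [h6, h7, if_false]
        exact ⟨x, rfl, Or.inl rfl, h1, h2⟩
      · have h3 := hra x h
        have h4 : f v ≤ f x := hf h3.le
        have h5 : x ≠ v := by omega
        have h6 : ¬ x < v := by omega
        have h7 : ¬ hi ≤ f v := by omega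
        simp only [h5, h6, h7, if_false]
        split_ifs with h7
        · obtain ⟨w, h8, h9, h10⟩ := tpf_path hf h1 h2 hr h
          refine ⟨w, h8, ?_, h10⟩
          rcases h9 with h9 | h9
          · exact Or.inl h9
          · exact Or.inr (by simp [h9])
        · exact ⟨v, rfl, Or.inr (by simp), by omega, by omega⟩

theorem dcol {f : ℕ → ℕ} {N l x : ℕ} {T : BinaryTree ℕ} (hf : Monotone f) (hb : IsBST T)
    (hx : x ∈ inorder T) (hN : 2 ≤ N) :
    ((Finset.range l).filter (fun j => colf f N T j (f x / N ^ j / N) ≠ f x / N ^ j)).card ≤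
      depth x T := by
  classical
  have hgrp : ∀ j, f x / N ^ j / N * N * N ^ j ≤ f x ∧ f x < (f x / N ^ j / N + 1) * N * N ^ j := by
    intro j
    have e : f x / N ^ j / N = f x / (N ^ j * N) := Nat.div_div_eq_div_mul _ _ _
    have hpos : 0 < N ^ j * N := by positivity
    have h1 := Nat.div_add_mod (f x) (N ^ j * N)
    have h2 := Nat.mod_lt (f x) hpos
    rw [e]
    set q := f x / (N ^ j * N) with hq
    constructor
    · calc q * N * N ^ j = N ^ j * N * q := by ring
        _ ≤ f x := by omega
    · calc f x < N ^ j * N * q + N ^ j * N := by omega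
        _ = (q + 1) * N * N ^ j := by ring
  have hw : ∀ j, ∃ w, tpf f (f x / N ^ j / N * N * N ^ j) ((f x / N ^ j / N + 1) * N * N ^ j) T =
      some w ∧ (w = x ∨ w ∈ ancs x T) ∧ f w / N ^ (j + 1) = f x / N ^ (j + 1) := by
    intro j
    obtain ⟨w, h1, h2, h3, h4⟩ := tpf_path hf (hgrp j).1 (hgrp j).2 hb hx
    refine ⟨w, h1, h2, ?_⟩
    have e : f x / N ^ j / N = f x / N ^ (j + 1) := by
      rw [Nat.div_div_eq_div_mul, ← pow_succ]
    rw [e] at h3 h4
    apply Nat.div_eq_of_lt_le
    · calc f x / N ^ (j + 1) * N ^ (j + 1) = f x / N ^ (j + 1) * N * N ^ j := by ring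
        _ ≤ f w := h3
    · calc f w < (f x / N ^ (j + 1) + 1) * N * N ^ j := h4
        _ = (f x / N ^ (j + 1)).succ * N ^ (j + 1) := by rw [Nat.succ_eq_add_one]; ring
  choose w hw1 hw2 hw3 using hw
  have hne : ∀ j, colf f N T j (f x / N ^ j / N) ≠ f x / N ^ j → f (w j) / N ^ j ≠ f x / N ^ j := by
    intro j h
    unfold colf at h
    rw [hw1 j] at h
    exact h
  have mono : ∀ (y i j : ℕ), i ≤ j → f y / N ^ i = f x / N ^ i → f y / N ^ j = f x / N ^ j := by
    intro y i j hij h2
    obtain ⟨d, rfl⟩ := Nat.exists_eq_add_of_le hij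
    rw [pow_add, ← Nat.div_div_eq_div_mul, ← Nat.div_div_eq_div_mul, h2]
  set D := (Finset.range l).filter (fun j => colf f N T j (f x / N ^ j / N) ≠ f x / N ^ j) with hD
  have h1 : D.card ≤ (ancs x T).toFinset.card := by
    apply Finset.card_le_card_of_injOn w
    · intro j hj
      have h2 := (Finset.mem_filter.1 (Finset.mem_coe.1 hj)).2
      have h3 := hne j h2
      rcases hw2 j with h4 | h4
      · exact absurd (by rw [h4]) h3
      · simpa using h4
    · intro j hj j' hj' he
      have h2 := hne j (Finset.mem_filter.1 (Finset.mem_coe.1 hj)).2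
      have h2' := hne j' (Finset.mem_filter.1 (Finset.mem_coe.1 hj')).2
      rcases Nat.lt_trichotomy j j' with h3 | h3 | h3
      · exact absurd (mono _ _ _ h3 (he ▸ hw3 j)) h2'
      · exact h3
      · exact absurd (mono _ _ _ h3 (he.symm ▸ hw3 j')) h2
  calc D.card ≤ (ancs x T).toFinset.card := h1
    _ ≤ (ancs x T).length := List.toFinset_card_le _
    _ = depth x T := ancs_length x T

end Pool.Agent.SplAll
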