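import Pool.Agent.SplPat.GapB
import Pool.Agent.SplPat.F2
import Pool.Agent.SplPat.SpRel

set_option autoImplicit false

/-!
# Splaying is `O(log n / log log n)`-competitive: definitions

Keys are natural numbers.  Level `j` has the blocks `[i N^j, (i+1) N^j)`; the `N` blocks
`i N, ..., (i+1) N - 1` of level `j` form the group `i` of level `j`, the interval
`[i N N^j, (i+1) N N^j)`.
-/

namespace Pool.Agent.SplAll

open BinaryTree Pool.Agent.MP_c42954_lc.Scan Pool.Agent.SplPat

/-- The spine nodes of the interval `[a, a')`: its nodes on the search paths of its border gaps. -/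
def spn (a a' : ℕ) (t : BinaryTree ℕ) : Finset ℕ :=
  (Rg a t).filter (fun v => v < a') ∪ (Lg a' t).filter (fun v => a ≤ v)

/-- Blocks of length `b`.  Each of the blocks `i0, ..., i1 - 1` counts the number of its nodes
among the spine nodes of `[i0 b, i1 b)`, but at most 3. -/
def Ps (b i0 i1 : ℕ) (t : BinaryTree ℕ) : ℕ :=
  ∑ i ∈ Finset.Ico i0 i1, min ((spn (i0 * b) (i1 * b) t).filter (fun v => v / b = i)).card 3

/-- The keys of `[lo, a)` on the search path of the gap `e`, no spine nodes of `[lo, hi)`. -/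
def ptL (lo a e hi : ℕ) (t : BinaryTree ℕ) : Finset ℕ :=
  ((Lg e t).filter (fun v => lo ≤ v ∧ v < a)) \ spn lo hi t

/-- The keys of `[e, hi)` on the search path of the gap `a`, no spine nodes of `[lo, hi)`. -/
def ptR (lo a e hi : ℕ) (t : BinaryTree ℕ) : Finset ℕ :=
  ((Rg a t).filter (fun v => e ≤ v ∧ v < hi)) \ spn lo hi t

/-- The number of common ancestors in `[lo, hi)` of the block `[a, e)`, without spine nodes. -/
def pt (lo a e hi : ℕ) (t : BinaryTree ℕ) : ℕ := (ptL lo a e hi t).card + (ptR lo a e hi t).card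

/-- The number of maximal runs of elements of `[a, a')` in the list of ancestors of `x`. -/
def rn (a a' x : ℕ) (t : BinaryTree ℕ) : ℕ :=
  runs (fun v => decide (a ≤ v ∧ v < a')) false (ancs x t)

/-- The number of pairs of the splay of `x` with both nodes in `[lo, hi)`, in different blocks. -/
def zc (b lo hi x : ℕ) (t : BinaryTree ℕ) : ℕ :=
  ((pairUp (ancs x t)).filter (fun q => (lo ≤ q.1 ∧ q.1 < hi) ∧ (lo ≤ q.2 ∧ q.2 < hi) ∧
    q.1 / b ≠ q.2 / b)).length

/-- The potential of the group `i` (blocks `i N, ..., (i+1) N - 1` of length `b`) with the current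
block `k`. -/
def QJ (b N i k : ℕ) (t : BinaryTree ℕ) : ℕ :=
  2 * (Ps b (i * N) k t + Ps b (k + 1) ((i + 1) * N) t) +
  2 * ∑ c ∈ Finset.Ico (i * N) ((i + 1) * N), sig (c * b) ((c + 1) * b) t +
  2 * sig (i * N * b) ((i + 1) * N * b) t +
  2 * pt (i * N * b) (k * b) ((k + 1) * b) ((i + 1) * N * b) t

/-- The number of blocks of the group of `x`, other than the block of `x`, with an ancestor of
`x` (at the level with blocks of length `b`). -/
def qq (b N x : ℕ) (t : BinaryTree ℕ) : ℕ :=
  qR b ((x / b / N + 1) * N * b) x t + qL b (x / b / N * N * b) x t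

/-- The current blocks after a request of `x`. -/
def upd (N : ℕ) (cur : ℕ → ℕ → ℕ) (x : ℕ) : ℕ → ℕ → ℕ :=
  fun j i => if i = x / N ^ j / N then x / N ^ j else cur j i

/-- The number of levels `< l` at which the request of `x` changes the current block. -/
def sw (N l : ℕ) (cur : ℕ → ℕ → ℕ) (x : ℕ) : ℕ :=
  ((Finset.range l).filter (fun j => cur j (x / N ^ j / N) ≠ x / N ^ j)).card

/-- The number of changes of current blocks. -/
def SW (N l : ℕ) : (ℕ → ℕ → ℕ) → List ℕ → ℕ
  | _, [] => 0
  | cur, x :: X => sw N l cur x + SW N l (upd N cur x) X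

/-- The total potential. -/
def PHI (N l M : ℕ) (cur : ℕ → ℕ → ℕ) (t : BinaryTree ℕ) : ℕ :=
  ∑ j ∈ Finset.range l, ∑ i ∈ Finset.range M,
    (12 * QJ (N ^ j) N i (cur j i) t +
      2 * edg (N ^ j) (res (i * N * N ^ j) ((i + 1) * N * N ^ j) t)) +
  6 * ∑ j ∈ Finset.range (l + 1), ∑ i ∈ Finset.range M, sig (i * N ^ j) ((i + 1) * N ^ j) t

/-- The highest key `c` of `t` with `lo ≤ f c < hi` (for a monotone `f`). -/
def tpf (f : ℕ → ℕ) (lo hi : ℕ) : BinaryTree ℕ → Option ℕ
  | .nil => none
  | .node c l r => if f c < lo then tpf f lo hi r else if hi ≤ f c then tpf f lo hi l else some c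

/-- The block of the highest key of the group `i` of level `j`. -/
def colf (f : ℕ → ℕ) (N : ℕ) (T : BinaryTree ℕ) (j i : ℕ) : ℕ :=
  match tpf f (i * N * N ^ j) ((i + 1) * N * N ^ j) T with
  | some a => f a / N ^ j
  | none => i * N

/-- The keys which are ancestors (or equal) of some request. -/
def Un (X : List ℕ) (T : BinaryTree ℕ) : Finset ℕ :=
  X.toFinset.biUnion (fun x => insert x (ancs x T).toFinset)

/-- The tree without the subtrees whose root is not in `U`. -/
def prn (U : Finset ℕ) : BinaryTree ℕ → BinaryTree ℕ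
  | .nil => .nil
  | .node a l r => if a ∈ U then .node a (prn U l) (prn U r) else .nil

/-- `U` contains the ancestors of its keys. -/
def Closed (U : Finset ℕ) (t : BinaryTree ℕ) : Prop :=
  ∀ x ∈ U, x ∈ inorder t → ∀ v ∈ ancs x t, v ∈ U

end Pool.Agent.SplAll
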