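import Pool.Agent.SplAll.Defs
import Pool.Agent.SplPat.FX

set_option autoImplicit false

/-!
FXC.  Refinement of `FX`: x outside [lo, hi): the tree induced on [lo, hi) changes only by the pairs with both nodes in
[lo, hi), each is a rotation g(p(t,C),D) -> p(t,g(C,D)) at the left (right) spine; if p and g lie in the same block, the
number of edges between different blocks does not change; otherwise it grows by at most 2 (only the edge from g to its
old parent and the edge from C change).  So E' ≤ E + 2 (number of pairs in [lo, hi) with nodes in different blocks).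
Numerically checked.  Hint: adapt the proof of `FX` (`FX_n` counts all pairs inside): for p / b = g / b the change is
≤ 0 because cross b p u = cross b g u for all u.
-/

namespace Pool.Agent.SplAll

open BinaryTree Pool.Agent.MP_c42954_lc.Scan Pool.Agent.SplPat

theorem FXC_two {b lo hi x p g : ℕ} {t L : BinaryTree ℕ} (he : Even (ancs x L).length)
    (h : ancs x t = ancs x L ++ [p, g]) :
    zc b lo hi x L ≤ zc b lo hi x t ∧
      (lo ≤ p → p < hi → lo ≤ g → g < hi →
        zc b lo hi x t = zc b lo hi x L + if p / b = g / b then 0 else 1) := by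
  have h1 := (FX_pair (ancs x L) he p g).1
  constructor
  · simp only [zc, h, h1, List.filter_append, List.length_append]
    omega
  · intro k1 k2 k3 k4
    simp only [zc, h, h1, List.filter_append, List.length_append]
    by_cases hpg : p / b = g / b
    · simp [hpg]
    · simp [k1, k2, k3, k4, hpg]

theorem FXC_one {b lo hi x g : ℕ} {t L : BinaryTree ℕ} (he : Even (ancs x L).length)
    (h : ancs x t = ancs x L ++ [g]) : zc b lo hi x t = zc b lo hi x L := by
  have h1 := (FX_pair (ancs x L) he g g).2
  simp only [zc, h, h1]

theorem FXC_cross {b p g : ℕ} (h : p / b = g / b) (t : BinaryTree ℕ) :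
    cross b p t = cross b g t := by
  cases t with
  | nil => rfl
  | node c l r => simp only [cross, h]

/-- The double rotation. -/
theorem FXC_rot1 (b p g n : ℕ) (U V C D : BinaryTree ℕ)
    (h : edg b V + cross b p V ≤ edg b U + cross b p U + 2 * n) (a : ℕ) :
    edg b (.node p V (.node g C D)) + cross b a (.node p V (.node g C D)) ≤
      edg b (.node g (.node p U C) D) + cross b a (.node g (.node p U C) D) +
        2 * (n + if p / b = g / b then 0 else 1) ∧
    edg b (.node p V (.node g C D)) ≤ edg b (.node g (.node p U C) D) +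
        2 * (n + if p / b = g / b then 0 else 1) := by
  by_cases hpg : p / b = g / b
  · rw [if_pos hpg]
    have h1 := FXC_cross hpg C
    have h2 : cross b p (.node g C D) = 0 := by simp only [cross, hpg, if_true]
    have h3 : cross b g (.node p U C) = 0 := by simp only [cross, hpg, if_true]
    have h4 : cross b a (.node p V (.node g C D)) = cross b a (.node g (.node p U C) D) := by
      simp only [cross, hpg]
    rw [h4]
    simp only [edg, h2, h3]
    omega
  · rw [if_neg hpg]
    exact FX_rot1 b p g n U V C D h a

theorem FXC_rot2 (b p g n : ℕ) (U V C D : BinaryTree ℕ)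
    (h : edg b V + cross b p V ≤ edg b U + cross b p U + 2 * n) (a : ℕ) :
    edg b (.node p (.node g D C) V) + cross b a (.node p (.node g D C) V) ≤
      edg b (.node g D (.node p C U)) + cross b a (.node g D (.node p C U)) +
        2 * (n + if p / b = g / b then 0 else 1) ∧
    edg b (.node p (.node g D C) V) ≤ edg b (.node g D (.node p C U)) +
        2 * (n + if p / b = g / b then 0 else 1) := by
  by_cases hpg : p / b = g / b
  · rw [if_pos hpg]
    have h1 := FXC_cross hpg C
    have h2 : cross b p (.node g D C) = 0 := by simp only [cross, hpg, if_true]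
    have h3 : cross b g (.node p C U) = 0 := by simp only [cross, hpg, if_true]
    have h4 : cross b a (.node p (.node g D C) V) = cross b a (.node g D (.node p C U)) := by
      simp only [cross, hpg]
    rw [h4]
    simp only [edg, h2, h3]
    omega
  · rw [if_neg hpg]
    exact FX_rot2 b p g n U V C D h a

theorem FXC_left {b lo hi x : ℕ} (hx : x < lo) {t A B : BinaryTree ℕ} (h : Ev x t A B)
    (hb : IsBST t) :
    (∀ a, edg b (res lo hi B) + cross b a (res lo hi B) ≤
      edg b (res lo hi t) + cross b a (res lo hi t) + 2 * zc b lo hi x t) ∧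
    edg b (res lo hi B) ≤ edg b (res lo hi t) + 2 * zc b lo hi x t := by
  induction h with
  | base A B =>
    have e : res lo hi (.node x A B) = res lo hi B := by simp only [res, if_pos hx]
    rw [e]
    exact ⟨fun a => by omega, by omega⟩
  | @ll p g L C D A B h1 h2 h3 ih =>
    obtain ⟨hb1, hb2, hb3, hb4⟩ := bst_node.1 hb
    have hpg : p < g := hb3 p (by simp [inorder])
    obtain ⟨ih1, ih2⟩ := ih (bst_node.1 hb1).1
    obtain ⟨n1, n2⟩ := FXC_two (b := b) (lo := lo) (hi := hi) (FX_even h3) (FX_ll (C := C) (D := D) h1 h2)
    by_cases hp : p < lo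
    · by_cases hg : g < lo
      · simp only [res, if_pos hp, if_pos hg]
        exact ⟨fun a => by omega, by omega⟩
      · by_cases hg2 : hi ≤ g
        · simp only [res, if_pos hp, if_neg hg, if_pos hg2]
          exact ⟨fun a => by omega, by omega⟩
        · simp only [res, if_pos hp, if_neg hg, if_neg hg2]
          exact ⟨fun a => by omega, by omega⟩
    · have hg : ¬ g < lo := by omega
      by_cases hp2 : hi ≤ p
      · have hg2 : hi ≤ g := by omega
        simp only [res, if_neg hp, if_neg hg, if_pos hp2, if_pos hg2]
        exact ⟨fun a => by have := ih1 a; omega, by omega⟩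
      · by_cases hg2 : hi ≤ g
        · simp only [res, if_neg hp, if_neg hg, if_neg hp2, if_pos hg2, edg, FX_cn]
          have := ih1 p
          exact ⟨fun a => by omega, by omega⟩
        · have n3 := n2 (not_lt.1 hp) (not_le.1 hp2) (not_lt.1 hg) (not_le.1 hg2)
          simp only [res, if_neg hp, if_neg hg, if_neg hp2, if_neg hg2]
          rw [n3]
          have key := FXC_rot1 b p g (zc b lo hi x L) (res lo hi L) (res lo hi B) (res lo hi C)
            (res lo hi D) (ih1 p)
          exact ⟨fun a => (key a).1, (key 0).2⟩
  | @lr p g R C D A B h1 h2 h3 ih =>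
    obtain ⟨hb1, hb2, hb3, hb4⟩ := bst_node.1 hb
    obtain ⟨ih1, ih2⟩ := ih (bst_node.1 hb1).2.1
    obtain ⟨n1, n2⟩ := FXC_two (b := b) (lo := lo) (hi := hi) (FX_even h3) (FX_lr (C := C) (D := D) h1 h2)
    have hp : p < lo := by omega
    by_cases hg : g < lo
    · simp only [res, if_pos hg]
      exact ⟨fun a => by omega, by omega⟩
    · by_cases hg2 : hi ≤ g
      · simp only [res, if_pos hp, if_neg hg, if_pos hg2]
        exact ⟨fun a => by have := ih1 a; omega, by omega⟩
      · simp only [res, if_pos hp, if_neg hg, if_neg hg2, edg, FX_cn]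
        have := ih1 g
        exact ⟨fun a => by omega, by omega⟩
  | @rr p g R C D A B h1 h2 h3 ih =>
    obtain ⟨hb1, hb2, hb3, hb4⟩ := bst_node.1 hb
    obtain ⟨ih1, ih2⟩ := ih (bst_node.1 hb2).2.1
    obtain ⟨n1, n2⟩ := FXC_two (b := b) (lo := lo) (hi := hi) (FX_even h3) (FX_rr (C := C) (D := D) h1 h2)
    have hp : p < lo := by omega
    have hg : g < lo := by omega
    simp only [res, if_pos hp, if_pos hg]
    exact ⟨fun a => by have := ih1 a; omega, by omega⟩
  | @rl p g L C D A B h1 h2 h3 ih =>
    obtain ⟨hb1, hb2, hb3, hb4⟩ := bst_node.1 hb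
    obtain ⟨ih1, ih2⟩ := ih (bst_node.1 hb2).1
    obtain ⟨n1, n2⟩ := FXC_two (b := b) (lo := lo) (hi := hi) (FX_even h3) (FX_rl (C := C) (D := D) h1 h2)
    have hg : g < lo := by omega
    by_cases hp : p < lo
    · simp only [res, if_pos hp, if_pos hg]
      exact ⟨fun a => by omega, by omega⟩
    · by_cases hp2 : hi ≤ p
      · simp only [res, if_neg hp, if_pos hg, if_pos hp2]
        exact ⟨fun a => by have := ih1 a; omega, by omega⟩
      · simp only [res, if_neg hp, if_pos hg, if_neg hp2, edg, FX_cn]
        have := ih1 p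
        exact ⟨fun a => by omega, by omega⟩

theorem FXC_right {b lo hi x : ℕ} (hx : hi ≤ x) (hlh : lo ≤ hi) {t A B : BinaryTree ℕ}
    (h : Ev x t A B) (hb : IsBST t) :
    (∀ a, edg b (res lo hi A) + cross b a (res lo hi A) ≤
      edg b (res lo hi t) + cross b a (res lo hi t) + 2 * zc b lo hi x t) ∧
    edg b (res lo hi A) ≤ edg b (res lo hi t) + 2 * zc b lo hi x t := by
  induction h with
  | base A B =>
    have e : res lo hi (.node x A B) = res lo hi A := by
      simp only [res, if_neg (show ¬ x < lo by omega), if_pos hx]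
    rw [e]
    exact ⟨fun a => by omega, by omega⟩
  | @ll p g L C D A B h1 h2 h3 ih =>
    obtain ⟨hb1, hb2, hb3, hb4⟩ := bst_node.1 hb
    obtain ⟨ih1, ih2⟩ := ih (bst_node.1 hb1).1
    obtain ⟨n1, n2⟩ := FXC_two (b := b) (lo := lo) (hi := hi) (FX_even h3) (FX_ll (C := C) (D := D) h1 h2)
    have hp : ¬ p < lo := by omega
    have hg : ¬ g < lo := by omega
    have hp2 : hi ≤ p := by omega
    have hg2 : hi ≤ g := by omega
    simp only [res, if_neg hp, if_neg hg, if_pos hp2, if_pos hg2]
    exact ⟨fun a => by have := ih1 a; omega, by omega⟩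
  | @lr p g R C D A B h1 h2 h3 ih =>
    obtain ⟨hb1, hb2, hb3, hb4⟩ := bst_node.1 hb
    obtain ⟨ih1, ih2⟩ := ih (bst_node.1 hb1).2.1
    obtain ⟨n1, n2⟩ := FXC_two (b := b) (lo := lo) (hi := hi) (FX_even h3) (FX_lr (C := C) (D := D) h1 h2)
    have hg : ¬ g < lo := by omega
    have hg2 : hi ≤ g := by omega
    by_cases hp : p < lo
    · simp only [res, if_pos hp, if_neg hg, if_pos hg2]
      exact ⟨fun a => by have := ih1 a; omega, by omega⟩
    · by_cases hp2 : hi ≤ p
      · simp only [res, if_neg hp, if_neg hg, if_pos hp2, if_pos hg2]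
        exact ⟨fun a => by omega, by omega⟩
      · simp only [res, if_neg hp, if_neg hg, if_neg hp2, if_pos hg2, edg, FX_cn]
        have := ih1 p
        exact ⟨fun a => by omega, by omega⟩
  | @rr p g R C D A B h1 h2 h3 ih =>
    obtain ⟨hb1, hb2, hb3, hb4⟩ := bst_node.1 hb
    have hpg : g < p := hb4 p (by simp [inorder])
    obtain ⟨ih1, ih2⟩ := ih (bst_node.1 hb2).2.1
    obtain ⟨n1, n2⟩ := FXC_two (b := b) (lo := lo) (hi := hi) (FX_even h3) (FX_rr (C := C) (D := D) h1 h2)
    by_cases hp2 : hi ≤ p
    · have hp : ¬ p < lo := by omega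
      by_cases hg2 : hi ≤ g
      · have hg : ¬ g < lo := by omega
        simp only [res, if_neg hp, if_neg hg, if_pos hp2, if_pos hg2]
        exact ⟨fun a => by omega, by omega⟩
      · by_cases hg : g < lo
        · simp only [res, if_neg hp, if_pos hg, if_pos hp2]
          exact ⟨fun a => by omega, by omega⟩
        · simp only [res, if_neg hp, if_neg hg, if_pos hp2, if_neg hg2]
          exact ⟨fun a => by omega, by omega⟩
    · have hg2 : ¬ hi ≤ g := by omega
      by_cases hp : p < lo
      · have hg : g < lo := by omega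
        simp only [res, if_pos hp, if_pos hg]
        exact ⟨fun a => by have := ih1 a; omega, by omega⟩
      · by_cases hg : g < lo
        · simp only [res, if_neg hp, if_pos hg, if_neg hp2, edg, FX_cn]
          have := ih1 p
          exact ⟨fun a => by omega, by omega⟩
        · have n3 := n2 (not_lt.1 hp) (not_le.1 hp2) (not_lt.1 hg) (not_le.1 hg2)
          simp only [res, if_neg hp, if_neg hg, if_neg hp2, if_neg hg2]
          rw [n3]
          have key := FXC_rot2 b p g (zc b lo hi x R) (res lo hi R) (res lo hi A) (res lo hi C)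
            (res lo hi D) (ih1 p)
          exact ⟨fun a => (key a).1, (key 0).2⟩
  | @rl p g L C D A B h1 h2 h3 ih =>
    obtain ⟨hb1, hb2, hb3, hb4⟩ := bst_node.1 hb
    obtain ⟨ih1, ih2⟩ := ih (bst_node.1 hb2).1
    obtain ⟨n1, n2⟩ := FXC_two (b := b) (lo := lo) (hi := hi) (FX_even h3) (FX_rl (C := C) (D := D) h1 h2)
    have hp : ¬ p < lo := by omega
    have hp2 : hi ≤ p := by omega
    by_cases hg2 : hi ≤ g
    · have hg : ¬ g < lo := by omega
      simp only [res, if_neg hg, if_pos hg2]
      exact ⟨fun a => by omega, by omega⟩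
    · by_cases hg : g < lo
      · simp only [res, if_neg hp, if_pos hg, if_pos hp2]
        exact ⟨fun a => by have := ih1 a; omega, by omega⟩
      · simp only [res, if_neg hp, if_neg hg, if_pos hp2, if_neg hg2, edg, FX_cn]
        have := ih1 g
        exact ⟨fun a => by omega, by omega⟩

theorem FXC {b lo hi x : ℕ} {t : BinaryTree ℕ} (hb : IsBST t) (hm : x ∈ inorder t) (h0 : 0 < b)
    (h1 : x < lo ∨ hi ≤ x) (h2 : lo ≤ hi) :
    edg b (res lo hi (splay x t)) ≤ edg b (res lo hi t) + 2 * zc b lo hi x t := by
  obtain ⟨A, B, hS, hs⟩ := spl_exists hb hm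
  rw [hs]
  rcases h1 with h1 | h1
  · have e : res lo hi (.node x A B) = res lo hi B := by simp only [res, if_pos h1]
    rw [e]
    cases hS with
    | ev h => exact (FXC_left h1 h hb).2
    | @zl g L D A B h3 h =>
      have hn := FXC_one (t := .node g L D) (b := b) (lo := lo) (hi := hi) (g := g) (FX_even h)
        (by simp only [ancs, if_neg (ne_of_lt h3), if_pos h3])
      obtain ⟨k1, k2⟩ := FXC_left (b := b) (hi := hi) h1 h (bst_node.1 hb).1
      rw [hn]
      by_cases hg : g < lo
      · simp only [res, if_pos hg]
        omega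
      · by_cases hg2 : hi ≤ g
        · simp only [res, if_neg hg, if_pos hg2]
          omega
        · simp only [res, if_neg hg, if_neg hg2, edg]
          have := k1 g
          omega
    | @zr g R D A B h3 h =>
      have hn := FXC_one (t := .node g D R) (b := b) (lo := lo) (hi := hi) (g := g) (FX_even h)
        (by simp only [ancs, if_neg (ne_of_gt h3), if_neg (not_lt.2 h3.le)])
      obtain ⟨k1, k2⟩ := FXC_left (b := b) (hi := hi) h1 h (bst_node.1 hb).2.1
      rw [hn]
      have hg : g < lo := by omega
      simp only [res, if_pos hg]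
      exact k2
  · have e : res lo hi (.node x A B) = res lo hi A := by
      simp only [res, if_neg (show ¬ x < lo by omega), if_pos h1]
    rw [e]
    cases hS with
    | ev h => exact (FXC_right h1 h2 h hb).2
    | @zl g L D A B h3 h =>
      have hn := FXC_one (t := .node g L D) (b := b) (lo := lo) (hi := hi) (g := g) (FX_even h)
        (by simp only [ancs, if_neg (ne_of_lt h3), if_pos h3])
      obtain ⟨k1, k2⟩ := FXC_right (b := b) h1 h2 h (bst_node.1 hb).1
      rw [hn]
      have hg : ¬ g < lo := by omega
      have hg2 : hi ≤ g := by omega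
      simp only [res, if_neg hg, if_pos hg2]
      exact k2
    | @zr g R D A B h3 h =>
      have hn := FXC_one (t := .node g D R) (b := b) (lo := lo) (hi := hi) (g := g) (FX_even h)
        (by simp only [ancs, if_neg (ne_of_gt h3), if_neg (not_lt.2 h3.le)])
      obtain ⟨k1, k2⟩ := FXC_right (b := b) h1 h2 h (bst_node.1 hb).2.1
      rw [hn]
      by_cases hg : g < lo
      · simp only [res, if_pos hg]
        exact k2
      · by_cases hg2 : hi ≤ g
        · simp only [res, if_neg hg, if_pos hg2]
          omega
        · simp only [res, if_neg hg, if_neg hg2, edg]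
          have := k1 g
          omega

end Pool.Agent.SplAll
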