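import Pool.Agent.SplAll.Col
import Pool.Agent.SplAll.DCol

set_option autoImplicit false

/-!
LB (the lower bound for all executions; a form of Wilber's first bound).  Potential
  Θ(cur, T) = number of pairs (j, i), j < l, i ≤ (m0 - 1) / N^j / N, with cur j i ≠ colf f N T j i.
Request of x (search in T, m0 > f x): A = set of levels j < l with cur j i_j ≠ f x / N^j, i_j = f x / N^j / N (these are
the sw many switches); D = set of levels with colf f N T j i_j ≠ f x / N^j, |D| ≤ depth x T (`dcol`).
With cur' = upd N cur (f x): only the pairs (j, i_j) change, and for j ∉ A nothing changes.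
 j ∈ A, j ∉ D: colf = f x / N^j ≠ cur: counted in Θ before, not counted after (cur' = colf): Θ drops by 1.
 j ∈ A, j ∈ D: Θ grows by at most 1.
So sw + Θ(cur', T) ≤ Θ(cur, T) + 2 depth x T.
A rotation changes Θ by at most 1 (`rot_col`); a rotation keeps the tree a BST with the same keys.
Induction over the execution: SW + Θ_end ≤ Θ_start + Σ (2 depth + e) ≤ Θ_start + 2 c, and
Θ_start ≤ Σ_{j<l} ((m0-1)/N^j/N + 1) ≤ m0 + l, since Σ_{j<l} (m0-1)/N^(j+1) ≤ m0 - 1 for N ≥ 2 (induction on l:
Σ_{j<l} a/N^(j+1) ≤ a - a/N^l or: Σ_{j<l} a / N^j / N ≤ a).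
-/

namespace Pool.Agent.SplAll

open BinaryTree Pool.Agent.MP_c42954_lc.Scan Pool.Agent.SplPat

theorem rot_keep {T T' : BinaryTree ℕ} (h : Rot T T') : inorder T' = inorder T := by
  induction h with
  | atLeftChild => simp [inorder]
  | atRightChild => simp [inorder]
  | inLeft a r _ ih => simp [inorder, ih]
  | inRight a l _ ih => simp [inorder, ih]

/-- the potential of one level -/
private def LB_th (f : ℕ → ℕ) (N m0 : ℕ) (cur : ℕ → ℕ → ℕ) (T : BinaryTree ℕ) (j : ℕ) : ℕ :=
  ((Finset.range ((m0 - 1) / N ^ j / N + 1)).filter (fun i => cur j i ≠ colf f N T j i)).card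

private theorem LB_split (n : ℕ) (P : ℕ → Prop) [DecidablePred P] {i0 : ℕ} (hi : i0 < n) :
    ((Finset.range n).filter P).card =
      ((Finset.range n).filter (fun i => i ≠ i0 ∧ P i)).card + (if P i0 then 1 else 0) := by
  by_cases h : P i0
  · have h1 : (Finset.range n).filter P =
        insert i0 ((Finset.range n).filter (fun i => i ≠ i0 ∧ P i)) := by
      ext i
      simp only [Finset.mem_filter, Finset.mem_range, Finset.mem_insert]
      constructor
      · rintro ⟨h2, h3⟩
        by_cases h4 : i = i0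
        · exact Or.inl h4
        · exact Or.inr ⟨h2, h4, h3⟩
      · rintro (h2 | ⟨h2, _, h3⟩)
        · rw [h2]; exact ⟨hi, h⟩
        · exact ⟨h2, h3⟩
    rw [h1, Finset.card_insert_of_notMem (by simp), if_pos h]
  · have h1 : (Finset.range n).filter P = (Finset.range n).filter (fun i => i ≠ i0 ∧ P i) := by
      ext i
      simp only [Finset.mem_filter, Finset.mem_range]
      constructor
      · rintro ⟨h2, h3⟩
        exact ⟨h2, fun h4 => h (h4 ▸ h3), h3⟩
      · rintro ⟨h2, _, h3⟩
        exact ⟨h2, h3⟩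
    rw [h1, if_neg h, add_zero]

/-- one request, one level -/
private theorem LB_req (f : ℕ → ℕ) (N m0 : ℕ) (cur : ℕ → ℕ → ℕ) (T : BinaryTree ℕ) (y j : ℕ)
    (hy : y < m0) :
    (if cur j (y / N ^ j / N) ≠ y / N ^ j then 1 else 0) + LB_th f N m0 (upd N cur y) T j ≤
      LB_th f N m0 cur T j + 2 * (if colf f N T j (y / N ^ j / N) ≠ y / N ^ j then 1 else 0) := by
  have hi : y / N ^ j / N < (m0 - 1) / N ^ j / N + 1 := by
    have h1 : y ≤ m0 - 1 := by omega
    have h2 : y / N ^ j / N ≤ (m0 - 1) / N ^ j / N := Nat.div_le_div_right (Nat.div_le_div_right h1)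
    omega
  have h1 := LB_split ((m0 - 1) / N ^ j / N + 1) (fun i => cur j i ≠ colf f N T j i) hi
  have h2 := LB_split ((m0 - 1) / N ^ j / N + 1) (fun i => upd N cur y j i ≠ colf f N T j i) hi
  have h3 : (Finset.range ((m0 - 1) / N ^ j / N + 1)).filter
      (fun i => i ≠ y / N ^ j / N ∧ upd N cur y j i ≠ colf f N T j i) =
      (Finset.range ((m0 - 1) / N ^ j / N + 1)).filter
      (fun i => i ≠ y / N ^ j / N ∧ cur j i ≠ colf f N T j i) := by
    refine Finset.filter_congr fun i _ => ?_
    constructor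
    · rintro ⟨h4, h5⟩
      rw [upd, if_neg h4] at h5
      exact ⟨h4, h5⟩
    · rintro ⟨h4, h5⟩
      rw [upd, if_neg h4]
      exact ⟨h4, h5⟩
  have h4 : upd N cur y j (y / N ^ j / N) = y / N ^ j := by rw [upd, if_pos rfl]
  unfold LB_th
  rw [h1, h2, h3, h4]
  by_cases hA : cur j (y / N ^ j / N) ≠ y / N ^ j
  · by_cases hD : colf f N T j (y / N ^ j / N) ≠ y / N ^ j
    · rw [if_pos hA, if_pos hD, if_pos (Ne.symm hD)]
      omega
    · push Not at hD
      rw [if_pos hA, hD, if_pos hA, if_neg (by simp)]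
      omega
  · push Not at hA
    by_cases hD : colf f N T j (y / N ^ j / N) ≠ y / N ^ j
    · rw [if_neg (by simpa using hA), if_pos hD, if_pos (Ne.symm hD)]
      omega
    · push Not at hD
      rw [if_neg (by simpa using hA), hD, if_neg (by simp)]
      omega

/-- one request -/
private theorem LB_step {f : ℕ → ℕ} {N l m0 x : ℕ} (hf : Monotone f) (hN : 2 ≤ N)
    {T : BinaryTree ℕ} (hb : IsBST T) (hx : x ∈ inorder T) (hm : f x < m0) (cur : ℕ → ℕ → ℕ) :
    sw N l cur (f x) + ∑ j ∈ Finset.range l, LB_th f N m0 (upd N cur (f x)) T j ≤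
      ∑ j ∈ Finset.range l, LB_th f N m0 cur T j + 2 * depth x T := by
  have h1 := dcol (l := l) hf hb hx hN
  have h2 := Finset.sum_le_sum (s := Finset.range l)
    (fun j _ => LB_req f N m0 cur T (f x) j hm)
  rw [Finset.sum_add_distrib, Finset.sum_add_distrib, ← Finset.mul_sum, ← Finset.card_filter,
    ← Finset.card_filter] at h2
  unfold sw
  omega

/-- one rotation -/
private theorem LB_rot {f : ℕ → ℕ} {N l m0 : ℕ} (hf : Monotone f) (hN : 2 ≤ N)
    {T T' : BinaryTree ℕ} (hb : IsBST T) (h : Rot T T') (cur : ℕ → ℕ → ℕ) :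
    ∑ j ∈ Finset.range l, LB_th f N m0 cur T' j ≤
      ∑ j ∈ Finset.range l, LB_th f N m0 cur T j + 1 := by
  obtain ⟨j0, i0, h0⟩ := rot_col hf hb hN h
  have h1 : ∀ j ∈ Finset.range l, LB_th f N m0 cur T' j ≤
      LB_th f N m0 cur T j + (if j = j0 then 1 else 0) := by
    intro j _
    by_cases hj : j = j0
    · rw [if_pos hj]
      unfold LB_th
      have h2 : (Finset.range ((m0 - 1) / N ^ j / N + 1)).filter
          (fun i => cur j i ≠ colf f N T' j i) ⊆
          insert i0 ((Finset.range ((m0 - 1) / N ^ j / N + 1)).filter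
            (fun i => cur j i ≠ colf f N T j i)) := by
        intro i hi
        rw [Finset.mem_filter] at hi
        rw [Finset.mem_insert, Finset.mem_filter]
        by_cases h3 : i = i0
        · exact Or.inl h3
        · right
          refine ⟨hi.1, ?_⟩
          have h4 : colf f N T j i = colf f N T' j i := by
            by_contra h5
            exact h3 (h0 j i h5).2
          rw [h4]
          exact hi.2
      exact (Finset.card_le_card h2).trans (Finset.card_insert_le _ _)
    · rw [if_neg hj, add_zero]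
      unfold LB_th
      refine le_of_eq (congrArg Finset.card (Finset.filter_congr fun i _ => ?_))
      have h4 : colf f N T j i = colf f N T' j i := by
        by_contra h5
        exact hj (h0 j i h5).1
      rw [h4]
  refine (Finset.sum_le_sum h1).trans ?_
  rw [Finset.sum_add_distrib, ← Finset.card_filter]
  have h2 : ((Finset.range l).filter (fun j => j = j0)).card ≤ 1 := by
    rw [Finset.card_le_one]
    intro a ha b hb'
    rw [(Finset.mem_filter.1 ha).2, (Finset.mem_filter.1 hb').2]
  omega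

private theorem LB_rots {f : ℕ → ℕ} {N l m0 : ℕ} (hf : Monotone f) (hN : 2 ≤ N) {e : ℕ}
    {T T' : BinaryTree ℕ} (h : RotSeq e T T') (hb : IsBST T) (cur : ℕ → ℕ → ℕ) :
    inorder T' = inorder T ∧ ∑ j ∈ Finset.range l, LB_th f N m0 cur T' j ≤
      ∑ j ∈ Finset.range l, LB_th f N m0 cur T j + e := by
  induction h with
  | refl t => exact ⟨rfl, by omega⟩
  | @step n t u v h2 _ ih =>
    have hbu : IsBST u := by
      unfold IsBST at hb ⊢
      rw [rot_keep h2]
      exact hb
    obtain ⟨h3, h4⟩ := ih hbu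
    have h5 := LB_rot (l := l) (m0 := m0) hf hN hb h2 cur
    exact ⟨h3.trans (rot_keep h2), by omega⟩

private theorem LB_main {f : ℕ → ℕ} {N l m0 : ℕ} (hf : Monotone f) (hN : 2 ≤ N)
    {T : BinaryTree ℕ} {X : List ℕ} {c : ℕ} (h : Exec T X c) (hb : IsBST T)
    (hX : ∀ x ∈ X, x ∈ inorder T ∧ f x < m0) (cur : ℕ → ℕ → ℕ) :
    SW N l cur (X.map f) ≤ 2 * c + ∑ j ∈ Finset.range l, LB_th f N m0 cur T j := by
  induction h generalizing cur with
  | nil T => exact Nat.zero_le _
  | @cons T T' x X e c h1 _ ih =>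
    obtain ⟨h3, h4⟩ := LB_rots (l := l) (m0 := m0) hf hN h1 hb (upd N cur (f x))
    have hbu : IsBST T' := by
      unfold IsBST at hb ⊢
      rw [h3]
      exact hb
    have h5 := ih hbu (fun y hy => by
      rw [h3]
      exact hX y (List.mem_cons_of_mem _ hy)) (upd N cur (f x))
    have hx := hX x List.mem_cons_self
    have h6 := LB_step (l := l) hf hN hb hx.1 hx.2 cur
    rw [List.map_cons, SW]
    omega

private theorem LB_sum {N : ℕ} (hN : 2 ≤ N) (a l : ℕ) :
    ∑ j ∈ Finset.range l, a / N ^ j / N + a / N ^ l ≤ a := by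
  induction l with
  | zero => simp
  | succ l ih =>
    rw [Finset.sum_range_succ, pow_succ, ← Nat.div_div_eq_div_mul]
    have h1 : a / N ^ l / N + a / N ^ l / N ≤ a / N ^ l := by
      have h2 := Nat.div_mul_le_self (a / N ^ l) N
      have h3 : a / N ^ l / N * 2 ≤ a / N ^ l / N * N := Nat.mul_le_mul_left _ hN
      omega
    omega

theorem LB {f : ℕ → ℕ} {N l m0 : ℕ} (hf : Monotone f) (hN : 2 ≤ N) {T : BinaryTree ℕ}
    {X : List ℕ} {c : ℕ} (h : Exec T X c) (hb : IsBST T)
    (hX : ∀ x ∈ X, x ∈ inorder T ∧ f x < m0) (cur : ℕ → ℕ → ℕ) :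
    SW N l cur (X.map f) ≤ 2 * c + m0 + l := by
  have h1 := LB_main (l := l) hf hN h hb hX cur
  have h2 : ∑ j ∈ Finset.range l, LB_th f N m0 cur T j ≤ m0 + l := by
    have h3 : ∑ j ∈ Finset.range l, LB_th f N m0 cur T j ≤
        ∑ j ∈ Finset.range l, ((m0 - 1) / N ^ j / N + 1) := by
      refine Finset.sum_le_sum fun j _ => ?_
      unfold LB_th
      refine (Finset.card_filter_le _ _).trans ?_
      rw [Finset.card_range]
    rw [Finset.sum_add_distrib, Finset.sum_const, Finset.card_range, smul_eq_mul, mul_one] at h3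
    have h4 : ∑ j ∈ Finset.range l, (m0 - 1) / N ^ j / N ≤ m0 - 1 :=
      le_trans (Nat.le_add_right _ _) (LB_sum hN (m0 - 1) l)
    omega
  omega

end Pool.Agent.SplAll
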