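import Mathlib

set_option autoImplicit false

/-!
NUM.  n ≥ 3, 1 ≤ u ≤ n.  Take N = Nat.sqrt (Nat.log 2 n) + 2, l = Nat.clog N u: u ≤ N^l (`Nat.le_pow_clog`), l ≤ u
(`Nat.clog_le_of_le_pow`, u ≤ 2^u ≤ N^u).  Put y = log n > 1 (n ≥ 3), so log log n > 0.
N ≤ C y / log y: N ≤ sqrt(y / log 2) + 2, and log y ≤ y (so y / log y ≥ 1), log y ≤ 2 sqrt y, i.e. y / log y ≥ sqrt y / 2.
l + 1 ≤ C y / log y: l ≤ log u / log N + 1 ≤ y / log N + 1, log N ≥ (1/2) log (log₂ n) ≥ (1/2) log y since N² ≥ Nat.log 2 n + 1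
≥ log₂ n ≥ y (Nat.log 2 n + 1 ≥ log₂ n); so l ≤ 2 y / log y + 1.
E.g. C = 10 works.
-/

namespace Pool.Agent.SplAll

theorem NUM : ∃ C : ℝ, 0 < C ∧ ∀ n u : ℕ, 3 ≤ n → 1 ≤ u → u ≤ n → ∃ N l : ℕ, 2 ≤ N ∧ u ≤ N ^ l ∧
    l ≤ u ∧ (l : ℝ) + 1 ≤ C * (Real.log n / Real.log (Real.log n)) ∧
    (N : ℝ) ≤ C * (Real.log n / Real.log (Real.log n)) := by
  refine ⟨6, by norm_num, fun n u hn hu hun => ?_⟩
  set m := Nat.log 2 n with hm
  set N := Nat.sqrt m + 2 with hN
  set l := Nat.clog N u with hl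
  have hN2 : 2 ≤ N := by omega
  have hN1 : 1 < N := by omega
  have hnr : (3 : ℝ) ≤ n := by exact_mod_cast hn
  set y := Real.log n with hy
  have hy1 : 1 < y := by
    rw [hy, Real.lt_log_iff_exp_lt (by linarith)]
    have := Real.exp_one_lt_d9
    linarith
  set L := Real.log y with hL
  have hL0 : 0 < L := Real.log_pos hy1
  have hLy : L ≤ y := by
    have := Real.log_le_sub_one_of_pos (show 0 < y by linarith)
    linarith
  have h1 : 1 ≤ y / L := by rw [le_div_iff₀ hL0]; linarith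
  have hs0 : 0 < Real.sqrt y := Real.sqrt_pos.2 (by linarith)
  have hsy : Real.sqrt y * Real.sqrt y = y := Real.mul_self_sqrt (by linarith)
  have hLs : L ≤ 2 * Real.sqrt y := by
    have e1 : L = 2 * Real.log (Real.sqrt y) := by
      rw [Real.log_sqrt (by linarith)]
      ring
    have e2 := Real.log_le_sub_one_of_pos hs0
    rw [e1]
    linarith
  have h2 : Real.sqrt y ≤ 2 * (y / L) := by
    rw [← mul_div_assoc, le_div_iff₀ hL0]
    have := mul_le_mul_of_nonneg_left hLs hs0.le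
    have e : Real.sqrt y * (2 * Real.sqrt y) = 2 * y := by linear_combination 2 * hsy
    linarith
  have hpow : 2 ^ m ≤ n := Nat.pow_log_le_self 2 (by omega)
  have hpow2 : n < 2 ^ (m + 1) := Nat.lt_pow_succ_log_self (by norm_num) n
  have hlog2 : (1 / 2 : ℝ) < Real.log 2 := by
    have := Real.log_two_gt_d9
    linarith
  have hlog2' : Real.log 2 < 1 := by
    have := Real.log_two_lt_d9
    linarith
  -- `m log 2 ≤ y < (m + 1) log 2`
  have hmy : (m : ℝ) * Real.log 2 ≤ y := by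
    have h3 : ((2 : ℝ) ^ m) ≤ n := by exact_mod_cast hpow
    have h4 := Real.log_le_log (by positivity) h3
    rwa [Real.log_pow] at h4
  have hym : y < ((m : ℝ) + 1) * Real.log 2 := by
    have h3 : (n : ℝ) < (2 : ℝ) ^ (m + 1) := by exact_mod_cast hpow2
    have h4 := Real.log_lt_log (by linarith) h3
    rw [Real.log_pow] at h4
    push_cast at h4
    exact h4
  have hm0 : (0 : ℝ) ≤ m := Nat.cast_nonneg m
  have hym' : y ≤ (m : ℝ) + 1 := by
    have := mul_le_mul_of_nonneg_left hlog2'.le (show (0 : ℝ) ≤ (m : ℝ) + 1 by linarith)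
    linarith
  have hmy' : (m : ℝ) ≤ 2 * y := by
    have := mul_le_mul_of_nonneg_left hlog2.le hm0
    linarith
  have hsq1 : Nat.sqrt m * Nat.sqrt m ≤ m := Nat.sqrt_le m
  have hsq2 : m < (Nat.sqrt m + 1) * (Nat.sqrt m + 1) := Nat.lt_succ_sqrt m
  have hr0 : (0 : ℝ) ≤ (Nat.sqrt m : ℝ) := Nat.cast_nonneg _
  have hr1 : ((Nat.sqrt m : ℝ)) * (Nat.sqrt m : ℝ) ≤ m := by exact_mod_cast hsq1
  have hr2 : (m : ℝ) + 1 ≤ ((Nat.sqrt m : ℝ) + 1) * ((Nat.sqrt m : ℝ) + 1) := by exact_mod_cast hsq2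
  have hNr : (N : ℝ) = (Nat.sqrt m : ℝ) + 2 := by rw [hN]; push_cast; ring
  have hsm : (Nat.sqrt m : ℝ) ≤ 2 * Real.sqrt y := by
    by_contra hcon
    rw [not_le] at hcon
    have h3 := mul_lt_mul'' hcon hcon (by linarith) (by linarith)
    have h4 : 2 * Real.sqrt y * (2 * Real.sqrt y) = 4 * y := by linear_combination 4 * hsy
    rw [h4] at h3
    linarith
  refine ⟨N, l, hN2, Nat.le_pow_clog hN1 u, ?_, ?_, ?_⟩
  · refine Nat.clog_le_of_le_pow ?_
    exact (Nat.lt_two_pow_self (n := u)).le.trans (Nat.pow_le_pow_left hN2 u)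
  · -- `l ≤ y / log N + 1`
    have hNpos : (0 : ℝ) < N := by rw [hNr]; linarith
    have hNy : y ≤ (N : ℝ) * N := by
      rw [hNr]
      have h3 : ((Nat.sqrt m : ℝ) + 1) * ((Nat.sqrt m : ℝ) + 1) ≤
          ((Nat.sqrt m : ℝ) + 2) * ((Nat.sqrt m : ℝ) + 2) :=
        mul_le_mul (by linarith) (by linarith) (by linarith) (by linarith)
      linarith
    have hlogN : L ≤ 2 * Real.log N := by
      have h3 := Real.log_le_log (by linarith) hNy
      rw [Real.log_mul hNpos.ne' hNpos.ne'] at h3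
      linarith
    have hlogN0 : 0 < Real.log N := by linarith
    have hl1 : (l : ℝ) ≤ 2 * (y / L) + 1 := by
      rcases Nat.eq_zero_or_pos l with h0 | h0
      · rw [h0]
        push_cast
        linarith
      · have h3 : N ^ (l - 1) < u := by
          by_contra hcon
          rw [not_lt] at hcon
          have := Nat.clog_le_of_le_pow hcon
          omega
        have h4 : ((N : ℝ) ^ (l - 1)) ≤ n := by
          have : N ^ (l - 1) ≤ n := h3.le.trans hun
          exact_mod_cast this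
        have h5 := Real.log_le_log (by positivity) h4
        rw [Real.log_pow] at h5
        have h6 : ((l - 1 : ℕ) : ℝ) = (l : ℝ) - 1 := by
          rw [Nat.cast_sub h0]; simp
        rw [h6] at h5
        have h7 : ((l : ℝ) - 1) * L ≤ 2 * y := by
          have h8 : (0 : ℝ) ≤ (l : ℝ) - 1 := by
            have : (1 : ℝ) ≤ l := by exact_mod_cast h0
            linarith
          have h10 := mul_le_mul_of_nonneg_left hlogN h8
          linarith
        have h9 : (l : ℝ) - 1 ≤ 2 * y / L := by rw [le_div_iff₀ hL0]; exact h7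
        rw [mul_div_assoc] at h9
        linarith
    linarith
  · rw [hNr]
    linarith

end Pool.Agent.SplAll
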