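import Pool.Agent.SplAll.Defs

set_option autoImplicit false

/-!
PRSPL.  Pruning commutes with splaying.
-/

namespace Pool.Agent.SplAll

open BinaryTree Pool.Agent.MP_c42954_lc.Scan Pool.Agent.SplPat

theorem PRSPL_l {U : Finset ℕ} {x a : ℕ} {l r : BinaryTree ℕ} (h : x < a)
    (hU : ∀ v ∈ ancs x (.node a l r), v ∈ U) : a ∈ U ∧ ∀ v ∈ ancs x l, v ∈ U := by
  have e1 : x ≠ a := by omega
  refine ⟨hU a (by simp [ancs, e1, h]), fun v hv => hU v (by simp [ancs, e1, h, hv])⟩

theorem PRSPL_r {U : Finset ℕ} {x a : ℕ} {l r : BinaryTree ℕ} (h : a < x)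
    (hU : ∀ v ∈ ancs x (.node a l r), v ∈ U) : a ∈ U ∧ ∀ v ∈ ancs x r, v ∈ U := by
  have e1 : x ≠ a := by omega
  have e2 : ¬ x < a := by omega
  refine ⟨hU a (by simp [ancs, e1, e2]), fun v hv => hU v (by simp [ancs, e1, e2, hv])⟩

theorem PRSPL_node {U : Finset ℕ} {a : ℕ} {l r : BinaryTree ℕ} (h : a ∈ U) :
    prn U (.node a l r) = .node a (prn U l) (prn U r) := by
  simp only [prn, h, if_true]

theorem PRSPL_at {U : Finset ℕ} {x : ℕ} (hx : x ∈ U) : ∀ {d : ℕ} {t : BinaryTree ℕ}, At x d t →
    (∀ v ∈ ancs x t, v ∈ U) → At x d (prn U t)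
  | 0, .nil, h, _ => by simp [At] at h
  | d + 1, .nil, h, _ => by simp [At] at h
  | 0, .node a l r, h, _ => by
      simp only [At] at h
      subst h
      rw [PRSPL_node hx]
      simp [At]
  | d + 1, .node a l r, h, hU => by
      rcases h with ⟨h1, h2⟩ | ⟨h1, h2⟩
      · obtain ⟨ha, hU'⟩ := PRSPL_l h1 hU
        rw [PRSPL_node ha]
        exact Or.inl ⟨h1, PRSPL_at hx h2 hU'⟩
      · obtain ⟨ha, hU'⟩ := PRSPL_r h1 hU
        rw [PRSPL_node ha]
        exact Or.inr ⟨h1, PRSPL_at hx h2 hU'⟩

theorem PRSPL_step {U : Finset ℕ} {x : ℕ} (hx : x ∈ U) : ∀ {d : ℕ} {t : BinaryTree ℕ}, At x d t →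
    (∀ v ∈ ancs x t, v ∈ U) → splayStep x (prn U t) = prn U (splayStep x t)
  | 0, t, h, hU => by
      rw [step_root h, step_root (PRSPL_at hx h hU)]
  | d + 1, .nil, h, _ => by simp [At] at h
  | 1, .node a l r, h, hU => by
      rcases h with ⟨h1, h2⟩ | ⟨h1, h2⟩
      · obtain ⟨ha, hU'⟩ := PRSPL_l h1 hU
        cases l with
        | nil => simp [At] at h2
        | node b u v =>
          simp only [At] at h2
          subst h2
          rw [st_l h1, PRSPL_node ha, PRSPL_node hx, st_l h1, PRSPL_node hx, PRSPL_node ha]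
      · obtain ⟨ha, hU'⟩ := PRSPL_r h1 hU
        cases r with
        | nil => simp [At] at h2
        | node b u v =>
          simp only [At] at h2
          subst h2
          rw [st_r h1, PRSPL_node ha, PRSPL_node hx, st_r h1, PRSPL_node hx, PRSPL_node ha]
  | 2, .node a l r, h, hU => by
      rcases h with ⟨h1, h2⟩ | ⟨h1, h2⟩
      · obtain ⟨ha, hU'⟩ := PRSPL_l h1 hU
        cases l with
        | nil => simp [At] at h2
        | node b u v =>
          rcases h2 with ⟨h3, h4⟩ | ⟨h3, h4⟩
          · obtain ⟨hb, hU''⟩ := PRSPL_l h3 hU'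
            cases u with
            | nil => simp [At] at h4
            | node w p q =>
              simp only [At] at h4
              subst h4
              rw [st_ll h1 h3, PRSPL_node ha, PRSPL_node hb, PRSPL_node hx, st_ll h1 h3,
                PRSPL_node hx, PRSPL_node hb, PRSPL_node ha]
          · obtain ⟨hb, hU''⟩ := PRSPL_r h3 hU'
            cases v with
            | nil => simp [At] at h4
            | node w p q =>
              simp only [At] at h4
              subst h4
              rw [st_lr h1 h3, PRSPL_node ha, PRSPL_node hb, PRSPL_node hx, st_lr h1 h3,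
                PRSPL_node hx, PRSPL_node hb, PRSPL_node ha]
      · obtain ⟨ha, hU'⟩ := PRSPL_r h1 hU
        cases r with
        | nil => simp [At] at h2
        | node b u v =>
          rcases h2 with ⟨h3, h4⟩ | ⟨h3, h4⟩
          · obtain ⟨hb, hU''⟩ := PRSPL_l h3 hU'
            cases u with
            | nil => simp [At] at h4
            | node w p q =>
              simp only [At] at h4
              subst h4
              rw [st_rl h1 h3, PRSPL_node ha, PRSPL_node hb, PRSPL_node hx, st_rl h1 h3,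
                PRSPL_node hx, PRSPL_node ha, PRSPL_node hb]
          · obtain ⟨hb, hU''⟩ := PRSPL_r h3 hU'
            cases v with
            | nil => simp [At] at h4
            | node w p q =>
              simp only [At] at h4
              subst h4
              rw [st_rr h1 h3, PRSPL_node ha, PRSPL_node hb, PRSPL_node hx, st_rr h1 h3,
                PRSPL_node hx, PRSPL_node hb, PRSPL_node ha]
  | d + 3, .node a l r, h, hU => by
      rcases h with ⟨h1, h2⟩ | ⟨h1, h2⟩
      · obtain ⟨ha, hU'⟩ := PRSPL_l h1 hU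
        rw [step_left h1 h2, PRSPL_node ha, step_left h1 (PRSPL_at hx h2 hU'),
          PRSPL_step hx h2 hU', PRSPL_node ha]
      · obtain ⟨ha, hU'⟩ := PRSPL_r h1 hU
        rw [step_right h1 h2, PRSPL_node ha, step_right h1 (PRSPL_at hx h2 hU'),
          PRSPL_step hx h2 hU', PRSPL_node ha]

theorem PRSPL_anc {x : ℕ} {d : ℕ} {t : BinaryTree ℕ} (h : At x d t) :
    (∃ d', At x d' (splayStep x t)) ∧ ∀ v ∈ ancs x (splayStep x t), v ∈ ancs x t := by
  match d, h with
  | 0, h => rw [step_root h]; exact ⟨⟨0, h⟩, fun v hv => hv⟩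
  | 1, h =>
    obtain ⟨y, h1, h2⟩ := zig_of_at h
    refine ⟨⟨0, h2⟩, fun v hv => ?_⟩
    rw [ancs_of_at0 h2] at hv
    simp at hv
  | d + 2, h =>
    obtain ⟨p, g, h1, h2⟩ := dbl_of_at h
    refine ⟨⟨d, h2⟩, fun v hv => ?_⟩
    rw [dbl_ancs h1]
    simp [hv]

theorem PRSPL_iter {U : Finset ℕ} {x : ℕ} (hx : x ∈ U) : ∀ (n : ℕ) {d : ℕ} {t : BinaryTree ℕ},
    At x d t → (∀ v ∈ ancs x t, v ∈ U) →
    (splayStep x)^[n] (prn U t) = prn U ((splayStep x)^[n] t)
  | 0, _, _, _, _ => rfl
  | n + 1, d, t, h, hU => by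
      obtain ⟨⟨d', h1⟩, h2⟩ := PRSPL_anc h
      rw [Function.iterate_succ_apply, Function.iterate_succ_apply, PRSPL_step hx h hU,
        PRSPL_iter hx n h1 (fun v hv => hU v (h2 v hv))]

theorem prn_depth {U : Finset ℕ} {x : ℕ} {t : BinaryTree ℕ} (hb : IsBST t) (hm : x ∈ inorder t)
    (hx : x ∈ U) (hU : ∀ v ∈ ancs x t, v ∈ U) : depth x (prn U t) = depth x t :=
  at_depth (PRSPL_at hx (at_of_mem hb hm) hU)

theorem prn_splay {U : Finset ℕ} {x : ℕ} {t : BinaryTree ℕ} (hb : IsBST t) (hm : x ∈ inorder t)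
    (hx : x ∈ U) (hU : ∀ v ∈ ancs x t, v ∈ U) : splay x (prn U t) = prn U (splay x t) := by
  unfold splay
  rw [prn_depth hb hm hx hU, PRSPL_iter hx _ (at_of_mem hb hm) hU]

theorem prn_inorder {U : Finset ℕ} {t : BinaryTree ℕ} (hb : IsBST t) (hU : Closed U t) :
    inorder (prn U t) = (inorder t).filter (fun v => v ∈ U) := by
  induction t with
  | nil => rfl
  | node a l r ihl ihr =>
    obtain ⟨hl, hr, hla, hra⟩ := bst_node.1 hb
    have kl : ∀ x ∈ U, x ∈ inorder l → ∀ v ∈ ancs x (.node a l r), v ∈ U :=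
      fun x hx hm => hU x hx (by simp [inorder, hm])
    have kr : ∀ x ∈ U, x ∈ inorder r → ∀ v ∈ ancs x (.node a l r), v ∈ U :=
      fun x hx hm => hU x hx (by simp [inorder, hm])
    by_cases ha : a ∈ U
    · have h1 := ihl hl (fun x hx hm => (PRSPL_l (hla x hm) (kl x hx hm)).2)
      have h2 := ihr hr (fun x hx hm => (PRSPL_r (hra x hm) (kr x hx hm)).2)
      rw [PRSPL_node ha]
      simp only [inorder, List.filter_append, List.filter_cons, ha, decide_true, if_true, h1, h2]
    · have h1 : (inorder l).filter (fun v => v ∈ U) = [] := by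
        rw [List.filter_eq_nil_iff]
        intro x hm hx
        have hx' : x ∈ U := by simpa using hx
        exact ha (PRSPL_l (hla x hm) (kl x hx' hm)).1
      have h2 : (inorder r).filter (fun v => v ∈ U) = [] := by
        rw [List.filter_eq_nil_iff]
        intro x hm hx
        have hx' : x ∈ U := by simpa using hx
        exact ha (PRSPL_r (hra x hm) (kr x hx' hm)).1
      have h3 : prn U (.node a l r) = .nil := by simp only [prn, ha, if_false]
      rw [h3]
      simp [inorder, ha, h1, h2]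

end Pool.Agent.SplAll
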