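import Pool.Agent.SplAll.UCard
import Pool.Agent.SplAll.PrSpl
import Pool.Agent.SplAll.PrCl

set_option autoImplicit false

/-!
RED.  Reduction to the touched keys.
-/

namespace Pool.Agent.SplAll

open BinaryTree Pool.Agent.MP_c42954_lc.Scan Pool.Agent.SplPat

/-- The rank of a key. -/
def rk (U : Finset ℕ) (v : ℕ) : ℕ := (U.filter (fun u => u < v)).card

theorem RED_rk_lt {U : Finset ℕ} {v w : ℕ} (hv : v ∈ U) (h : v < w) : rk U v < rk U w := by
  unfold rk
  apply Finset.card_lt_card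
  rw [Finset.ssubset_iff_of_subset]
  · exact ⟨v, by simp [hv, h], by simp⟩
  · intro u hu
    simp only [Finset.mem_filter] at hu ⊢
    exact ⟨hu.1, by omega⟩

theorem RED_rk_card {U : Finset ℕ} {v : ℕ} (hv : v ∈ U) : rk U v < U.card := by
  unfold rk
  apply Finset.card_lt_card
  rw [Finset.ssubset_iff_of_subset (Finset.filter_subset _ _)]
  exact ⟨v, hv, by simp⟩

theorem RED_cost {f : ℕ → ℕ} {K : List ℕ} (hf : ∀ x ∈ K, Mono f x K) :
    ∀ (X : List ℕ) (T : BinaryTree ℕ), IsBST T → inorder T = K → (∀ x ∈ X, x ∈ K) →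
    splayCost (X.map f) (mapT f T) = splayCost X T
  | [], T, _, _, _ => rfl
  | x :: X, T, hb, hK, hX => by
      have hxK : x ∈ K := hX x (by simp)
      have hxT : x ∈ inorder T := hK ▸ hxK
      have hfx : Mono f x (inorder T) := by rw [hK]; exact hf x hxK
      simp only [List.map_cons, splayCost]
      rw [mapT_splay hb hxT hfx, mapT_depth hfx,
        RED_cost hf X (splay x T) (splay_bst hb hxT)
          (by rw [splay_inorder hb hxT]; exact hK) (fun y hy => hX y (by simp [hy]))]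

theorem RED_prn {U : Finset ℕ} : ∀ (X : List ℕ) (T : BinaryTree ℕ), IsBST T → Closed U T →
    (∀ x ∈ X, x ∈ U ∧ x ∈ inorder T) → splayCost X (prn U T) = splayCost X T
  | [], T, _, _, _ => rfl
  | x :: X, T, hb, hU, hX => by
      obtain ⟨hxU, hxT⟩ := hX x (by simp)
      have h1 := hU x hxU hxT
      simp only [splayCost]
      rw [prn_splay hb hxT hxU h1, prn_depth hb hxT hxU h1,
        RED_prn X (splay x T) (splay_bst hb hxT) (closed_splay hb hxT hxU hU)
          (fun y hy => ⟨(hX y (by simp [hy])).1,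
            by rw [splay_inorder hb hxT]; exact (hX y (by simp [hy])).2⟩)]

theorem RED {T : BinaryTree ℕ} {X : List ℕ} (hb : IsBST T) (hX : ∀ x ∈ X, x ∈ inorder T) :
    ∃ T' : BinaryTree ℕ, IsBST T' ∧ (∀ y ∈ X.map (rk (Un X T)), y ∈ inorder T') ∧
      (∀ v ∈ inorder T', v < (Un X T).card) ∧ (inorder T').length = (Un X T).card ∧
      splayCost (X.map (rk (Un X T))) T' = splayCost X T := by
  have hcl : Closed (Un X T) T := closed_Un hb hX
  have hsub : ∀ v ∈ Un X T, v ∈ inorder T := by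
    intro v hv
    obtain ⟨x, hx, h⟩ := UCARD_mem.1 hv
    rcases h with rfl | h
    · exact hX v hx
    · exact onP_mem ((mem_ancs hb (hX x hx)).1 h).1
  have hXU : ∀ x ∈ X, x ∈ Un X T := fun x hx => UCARD_mem.2 ⟨x, hx, Or.inl rfl⟩
  generalize Un X T = U at hcl hsub hXU
  have hin := prn_inorder hb hcl
  set K := (inorder T).filter (fun v => v ∈ U) with hK
  have hKU : ∀ v, v ∈ K ↔ v ∈ U := by
    intro v
    rw [hK, List.mem_filter]
    simp only [decide_eq_true_eq]
    exact ⟨fun h => h.2, fun h => ⟨hsub v h, h⟩⟩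
  have hpw : K.Pairwise (· < ·) := List.Pairwise.sublist List.filter_sublist hb
  have hb1 : IsBST (prn U T) := by
    unfold IsBST
    rw [hin]
    exact hpw
  have hmono : ∀ x ∈ K, Mono (rk U) x K := fun x hx a ha =>
    ⟨fun h => RED_rk_lt ((hKU x).1 hx) h, fun h => RED_rk_lt ((hKU a).1 ha) h⟩
  have hin' : inorder (mapT (rk U) (prn U T)) = K.map (rk U) := by rw [mapT_inorder, hin]
  refine ⟨mapT (rk U) (prn U T), ?_, ?_, ?_, ?_, ?_⟩
  · unfold IsBST
    rw [hin', List.pairwise_map]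
    exact hpw.imp_of_mem (fun {a b} ha _ hab => RED_rk_lt ((hKU a).1 ha) hab)
  · intro y hy
    rw [List.mem_map] at hy
    obtain ⟨x, hx, rfl⟩ := hy
    rw [hin']
    exact List.mem_map_of_mem ((hKU x).2 (hXU x hx))
  · intro v hv
    rw [hin', List.mem_map] at hv
    obtain ⟨x, hx, rfl⟩ := hv
    exact RED_rk_card ((hKU x).1 hx)
  · rw [hin', List.length_map, ← List.toFinset_card_of_nodup (hpw.imp (fun h => h.ne))]
    congr 1
    ext v
    rw [List.mem_toFinset, hKU]
  · rw [RED_cost hmono X (prn U T) hb1 hin (fun x hx => (hKU x).2 (hXU x hx)),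
      RED_prn X T hb hcl (fun x hx => ⟨hXU x hx, hX x hx⟩)]

end Pool.Agent.SplAll
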