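import Pool.Agent.SplAll.Step
import Pool.Agent.SplAll.LB
import Pool.Agent.SplAll.Red
import Pool.Agent.SplAll.Num

set_option autoImplicit false

/-!
FIN.  X = []: splayCost = 0.  Otherwise u = |Un X T| ≥ 1, u ≤ n (Un X T ⊆ keys), u ≤ c (`ucard`), |X| ≤ c.  N, l from `NUM`.
`RED` gives T' with u keys < u ≤ N^l; `TOTAL` for T', X' = X.map (rk U): cost ≤ 134 (l+1) u + (364 (l+1) + 1) |X| + (84N+192) SW,
`LB` with f = rk U (monotone), m0 = u, cur = colf (fun v => v) N T': SW ≤ 2 c + u + l ≤ 4 c (l ≤ u ≤ c).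
So cost ≤ 498 (l+1) c + c + (84 N + 192) 4 c ≤ C' (log n / log log n) c, using also 1 ≤ l + 1.
(rk U x < u for x ∈ U.)
-/

namespace Pool.Agent.SplAll

open BinaryTree Pool.Agent.MP_c42954_lc.Scan Pool.Agent.SplPat

private theorem Fin_len {T : BinaryTree ℕ} {X : List ℕ} {c : ℕ} (h : Exec T X c) :
    X.length ≤ c := by
  induction h with
  | nil T => simp
  | cons h1 h2 ih =>
    rw [List.length_cons]
    omega

private theorem Fin_anc {x v : ℕ} : ∀ {t : BinaryTree ℕ}, v ∈ ancs x t → v ∈ inorder t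
  | .nil, h => by simp [ancs] at h
  | .node a l r, h => by
      simp only [ancs] at h
      simp only [inorder, List.mem_append, List.mem_cons]
      split_ifs at h
      · simp at h
      · simp only [List.mem_append, List.mem_singleton] at h
        rcases h with h | h
        · exact Or.inl (Fin_anc h)
        · exact Or.inr (Or.inl h)
      · simp only [List.mem_append, List.mem_singleton] at h
        rcases h with h | h
        · exact Or.inr (Or.inr (Fin_anc h))
        · exact Or.inr (Or.inl h)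

private theorem Fin_Un {X : List ℕ} {T : BinaryTree ℕ} (hX : ∀ x ∈ X, x ∈ inorder T) :
    Un X T ⊆ (inorder T).toFinset := by
  intro v hv
  rw [Un, Finset.mem_biUnion] at hv
  obtain ⟨x, hx, hv⟩ := hv
  rw [List.mem_toFinset] at hx ⊢
  rw [Finset.mem_insert, List.mem_toFinset] at hv
  rcases hv with rfl | hv
  · exact hX v hx
  · exact Fin_anc hv

private theorem Fin_mem {X : List ℕ} {T : BinaryTree ℕ} {x : ℕ} (hx : x ∈ X) : x ∈ Un X T := by
  rw [Un, Finset.mem_biUnion]
  exact ⟨x, List.mem_toFinset.2 hx, Finset.mem_insert_self _ _⟩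

private theorem Fin_rk {U : Finset ℕ} {x : ℕ} (hx : x ∈ U) : rk U x < U.card := by
  apply Finset.card_lt_card
  refine ⟨Finset.filter_subset _ _, fun h => ?_⟩
  have := h hx
  rw [Finset.mem_filter] at this
  omega

private theorem Fin_mono (U : Finset ℕ) : Monotone (rk U) := by
  intro a b hab
  apply Finset.card_le_card
  intro v hv
  rw [Finset.mem_filter] at hv ⊢
  exact ⟨hv.1, by omega⟩

theorem splay_competitive : ∃ C : ℝ, 0 < C ∧ ∀ (T : BinaryTree ℕ) (X : List ℕ) (c : ℕ), IsBST T →
    (∀ x ∈ X, x ∈ inorder T) → 3 ≤ (inorder T).length → Exec T X c →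
    (splayCost X T : ℝ) ≤
      C * (Real.log (inorder T).length / Real.log (Real.log (inorder T).length)) * c := by
  obtain ⟨C, hC, hnum⟩ := NUM
  refine ⟨1603 * C, by positivity, fun T X c hb hX hn hex => ?_⟩
  rcases X with _ | ⟨x0, X0⟩
  · -- no requests
    cases hex
    simp [splayCost]
  set X := x0 :: X0 with hXdef
  have hx0 : x0 ∈ X := List.mem_cons_self
  set n := (inorder T).length with hnd
  set u := (Un X T).card with hu
  have hu1 : 1 ≤ u := Finset.card_pos.2 ⟨x0, Fin_mem hx0⟩
  have hun : u ≤ n := (Finset.card_le_card (Fin_Un hX)).trans (List.toFinset_card_le _)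
  have huc : u ≤ c := ucard hex hb hX
  have hXc : X.length ≤ c := Fin_len hex
  obtain ⟨N, l, hN, huN, hlu, h1, h2⟩ := hnum n u hn hu1 hun
  obtain ⟨T', hb', hX', hT', hlen, hcost⟩ := RED hb hX
  have htot := TOTAL (N := N) (l := l) hN hb' hX' (fun v hv => (hT' v hv).trans_le huN)
  have hlb := LB (l := l) (m0 := u) (Fin_mono (Un X T)) hN hex hb
    (fun x hx => ⟨hX x hx, Fin_rk (Fin_mem hx)⟩) (colf (fun v => v) N T')
  rw [hcost, hlen, List.length_map] at htot
  have hsw : SW N l (colf (fun v => v) N T') (X.map (rk (Un X T))) ≤ 4 * c := by omega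
  have h3 : splayCost X T ≤ (1267 * (l + 1) + 336 * N) * c := by
    calc splayCost X T ≤ 134 * (l + 1) * u + (364 * (l + 1) + 1) * X.length +
          (84 * N + 192) * SW N l (colf (fun v => v) N T') (X.map (rk (Un X T))) := htot
      _ ≤ 134 * (l + 1) * c + (364 * (l + 1) + 1) * c + (84 * N + 192) * (4 * c) :=
          Nat.add_le_add (Nat.add_le_add (Nat.mul_le_mul_left _ huc) (Nat.mul_le_mul_left _ hXc))
            (Nat.mul_le_mul_left _ hsw)
      _ ≤ (1267 * (l + 1) + 336 * N) * c := by
          have e : 134 * (l + 1) * c + (364 * (l + 1) + 1) * c + (84 * N + 192) * (4 * c) =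
              (498 * (l + 1) + 769 + 336 * N) * c := by ring
          rw [e]
          exact Nat.mul_le_mul_right _ (by omega)
  have h4 : (splayCost X T : ℝ) ≤ (1267 * ((l : ℝ) + 1) + 336 * N) * c := by exact_mod_cast h3
  refine h4.trans (mul_le_mul_of_nonneg_right ?_ (Nat.cast_nonneg c))
  nlinarith [h1, h2]

end Pool.Agent.SplAll
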