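import Pool.Agent.SplAll.SpnOut
import Pool.Agent.SplPat.FS
import Pool.Agent.SplPat.FQ

set_option autoImplicit false

/-!
QNR (the main combinatorial lemma, right side): `QNR_core` is the pure position form, used for both sides (QNL).
-/

namespace Pool.Agent.SplAll

open BinaryTree Pool.Agent.MP_c42954_lc.Scan Pool.Agent.SplPat

/-- The position form.  `P` = positions of the ancestors, `β` = rank of the block, `s`, `s'` = sizes of the spine in
the block, `g` = decrease of `sig`. -/
theorem QNR_core {P : Finset ℕ} {β s s' g : ℕ → ℕ}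
    (hmono : ∀ k ∈ P, ∀ k' ∈ P, k < k' → β k ≤ β k')
    (h1 : ∀ c ∈ P.image β, (∃ c' ∈ P.image β, c < c') →
      (∀ k ∈ P, β k = c → 0 < k ∧ k - 1 ∈ P) →
      s c = (P.filter (fun k => β k = c)).card ∧
      s' c ≤ (P.filter (fun k => β k = c ∧ k % 2 = 0)).card)
    (h2 : ∀ k ∈ P, ∀ k' ∈ P, k < k' → k % 2 = 1 → k' % 2 = 1 → k - 1 ∈ P → k' - 1 ∈ P →
      β (k - 1) = β k → β k' = β k → β (k' - 1) = β k → 1 ≤ g (β k)) :
    (P.image β).card ≤ 2 * ∑ c ∈ P.image β, (min (s c) 3 - min (s' c) 3 + g c) +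
      2 * (P.filter (fun k => k = 0 ∨ k - 1 ∉ P)).card + 1 := by
  classical
  set T := P.image β with hT
  set St := P.filter (fun k => k = 0 ∨ k - 1 ∉ P) with hSt
  rcases T.eq_empty_or_nonempty with hTe | hTn
  · rw [hTe]; simp
  have hPn : P.Nonempty := Finset.image_nonempty.1 hTn
  obtain ⟨M, hM, hMmax⟩ : ∃ M ∈ T, ∀ c ∈ T, c ≤ M :=
    ⟨_, Finset.max'_mem _ hTn, fun c hc => Finset.le_max' _ c hc⟩
  obtain ⟨mm, hmm, hmmin⟩ : ∃ m ∈ P, ∀ k ∈ P, m ≤ k :=
    ⟨_, Finset.min'_mem _ hPn, fun k hk => Finset.min'_le _ k hk⟩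
  set V : ℕ → ℕ := fun c => min (s c) 3 - min (s' c) 3 + g c + (St.filter (fun k => β k = c)).card
    with hV
  -- good blocks of weight zero
  have hgood : ∀ c ∈ T, c < M → V c = 0 → ∃ m ∈ P, β m = c ∧ (∀ k ∈ P, β k = c → k = m) ∧
      m % 2 = 0 ∧ 0 < m ∧ m - 1 ∈ P := by
    intro c hc hcM hVc
    have hst0 : (St.filter (fun k => β k = c)).card = 0 := by
      simp only [hV] at hVc; omega
    have hns : ∀ k ∈ P, β k = c → 0 < k ∧ k - 1 ∈ P := by
      intro k hk hkc
      rw [Finset.card_eq_zero, Finset.filter_eq_empty_iff] at hst0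
      by_contra hcon
      refine hst0 (x := k) ?_ hkc
      rw [hSt, Finset.mem_filter]
      refine ⟨hk, ?_⟩
      by_contra h5
      push Not at h5
      exact hcon ⟨Nat.pos_of_ne_zero h5.1, h5.2⟩
    obtain ⟨hs1, hs2⟩ := h1 c hc ⟨M, hM, hcM⟩ hns
    set B := P.filter (fun k => β k = c) with hB
    have hBn : B.Nonempty := by
      obtain ⟨k, hk, hkc⟩ := Finset.mem_image.1 hc
      exact ⟨k, Finset.mem_filter.2 ⟨hk, hkc⟩⟩
    obtain ⟨m, hm, hmin⟩ : ∃ m ∈ B, ∀ k ∈ B, m ≤ k :=
      ⟨_, Finset.min'_mem _ hBn, fun k hk => Finset.min'_le _ k hk⟩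
    obtain ⟨m', hm', hmax⟩ : ∃ m ∈ B, ∀ k ∈ B, k ≤ m :=
      ⟨_, Finset.max'_mem _ hBn, fun k hk => Finset.le_max' _ k hk⟩
    have hmP := Finset.mem_filter.1 hm
    have hmm' := hmin m' hm'
    -- `B` is an interval
    have hint : ∀ d, ∀ j, j + d = m' → m ≤ j → j ∈ B := by
      intro d
      induction d with
      | zero =>
        intro j hj _
        have : j = m' := by omega
        rw [this]; exact hm'
      | succ d ih =>
        intro j hj hmj
        have h5 := ih (j + 1) (by omega) (by omega)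
        obtain ⟨h6, h7⟩ := Finset.mem_filter.1 h5
        obtain ⟨_, h8⟩ := hns _ h6 h7
        have h8' : j ∈ P := by simpa using h8
        have h9 := hmono j h8' _ h6 (by omega)
        have h10 : c ≤ β j := by
          rcases Nat.lt_or_ge m j with h | h
          · rw [← hmP.2]; exact hmono m hmP.1 j h8' h
          · have : m = j := by omega
            rw [← this, hmP.2]
        exact Finset.mem_filter.2 ⟨h8', by omega⟩
    have hBI : ∀ j, m ≤ j → j ≤ m' → j ∈ B := fun j h5 h6 => hint (m' - j) j (by omega) h5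
    have hBeq : B = Finset.Icc m m' := by
      ext j
      rw [Finset.mem_Icc]
      exact ⟨fun h => ⟨hmin j h, hmax j h⟩, fun h => hBI j h.1 h.2⟩
    have hcard : B.card = m' + 1 - m := by rw [hBeq, Nat.card_Icc]
    have hmin3 : min (s c) 3 - min (s' c) 3 = 0 := by simp only [hV] at hVc; omega
    have hg0 : g c = 0 := by simp only [hV] at hVc; omega
    have hlt4 : m' < m + 4 := by
      by_contra hcon
      push Not at hcon
      have key : ∀ k k', m < k → k < k' → k' ≤ m' → k % 2 = 1 → k' % 2 = 1 → False := by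
        intro k k' h5 h6 h7 h8 h9
        have a1 := Finset.mem_filter.1 (hBI k (by omega) (by omega))
        have a2 := Finset.mem_filter.1 (hBI k' (by omega) (by omega))
        have a3 := Finset.mem_filter.1 (hBI (k - 1) (by omega) (by omega))
        have a4 := Finset.mem_filter.1 (hBI (k' - 1) (by omega) (by omega))
        have := h2 k a1.1 k' a2.1 h6 h8 h9 a3.1 a4.1 (by rw [a3.2, a1.2]) (by rw [a2.2, a1.2])
          (by rw [a4.2, a1.2])
        rw [a1.2] at this
        omega
      rcases Nat.mod_two_eq_zero_or_one m with h | h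
      · exact key (m + 1) (m + 3) (by omega) (by omega) (by omega) (by omega) (by omega)
      · exact key (m + 2) (m + 4) (by omega) (by omega) (by omega) (by omega) (by omega)
    have hev : P.filter (fun k => β k = c ∧ k % 2 = 0) = B.filter (fun k => k % 2 = 0) := by
      rw [hB, Finset.filter_filter]
    rw [hev] at hs2
    have hev2 : (B.filter (fun k => k % 2 = 0)).card ≤ 2 := by
      refine le_trans (Finset.card_le_card (t := {m + m % 2, m + m % 2 + 2}) ?_)
        Finset.card_le_two
      intro k hk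
      obtain ⟨h5, h6⟩ := Finset.mem_filter.1 hk
      have h7 := hmin k h5
      have h8 := hmax k h5
      rw [Finset.mem_insert, Finset.mem_singleton]
      omega
    have hm'm : m' = m := by
      by_contra hne
      rcases Nat.lt_or_ge m' (m + 2) with h | h
      · -- two elements
        have h5 : (B.filter (fun k => k % 2 = 0)).card ≤ 1 := by
          rw [Finset.card_le_one]
          intro k hk k' hk'
          obtain ⟨h5, h6⟩ := Finset.mem_filter.1 hk
          obtain ⟨h5', h6'⟩ := Finset.mem_filter.1 hk'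
          have h7 := hmin k h5
          have h8 := hmax k h5
          have h7' := hmin k' h5'
          have h8' := hmax k' h5'
          omega
        omega
      · omega
    have hs'1 : 1 ≤ s' c := by omega
    obtain ⟨k, hk⟩ := Finset.card_pos.1 (lt_of_lt_of_le hs'1 hs2)
    obtain ⟨h5, h6⟩ := Finset.mem_filter.1 hk
    have h7 := hmin k h5
    have h8 := hmax k h5
    obtain ⟨h9, h10⟩ := hns m hmP.1 hmP.2
    refine ⟨m, hmP.1, hmP.2, ?_, by omega, h9, h10⟩
    intro k' hk' hkc'
    have h11 := hmin k' (Finset.mem_filter.2 ⟨hk', hkc'⟩)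
    have h12 := hmax k' (Finset.mem_filter.2 ⟨hk', hkc'⟩)
    omega
  -- the weights
  set T' := T.erase M with hT'
  have hmain : T'.card ≤ 2 * ∑ c ∈ T', V c := by
    apply FQ_weights
    · intro p hp hmin
      have hp' := Finset.mem_erase.1 hp
      obtain ⟨k0, hk0, hk0p⟩ := Finset.mem_image.1 hp'.2
      have hle : β mm ≤ p := by
        rw [← hk0p]
        rcases Nat.lt_or_ge mm k0 with h | h
        · exact hmono mm hmm k0 hk0 h
        · have : mm = k0 := le_antisymm (hmmin k0 hk0) h
          rw [this]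
      have hpM := hMmax p hp'.2
      have hpe : β mm = p := by
        by_cases hne : β mm = M
        · omega
        · have h5 : β mm ∈ T' := Finset.mem_erase.2 ⟨hne, Finset.mem_image.2 ⟨mm, hmm, rfl⟩⟩
          exact le_antisymm hle (hmin _ h5)
      have hst : mm ∈ St.filter (fun k => β k = p) := by
        rw [Finset.mem_filter, hSt, Finset.mem_filter]
        refine ⟨⟨hmm, ?_⟩, hpe⟩
        by_contra hcon
        push Not at hcon
        have := hmmin (mm - 1) hcon.2
        omega
      have : 0 < (St.filter (fun k => β k = p)).card := Finset.card_pos.2 ⟨mm, hst⟩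
      simp only [hV]
      omega
    · intro p hp q hq hpq hcons
      have hp' := Finset.mem_erase.1 hp
      have hq' := Finset.mem_erase.1 hq
      by_contra hcon
      have hqM : q < M := lt_of_le_of_ne (hMmax q hq'.2) hq'.1
      obtain ⟨k, hk1, hk2, hk3, hk4, hk5, hk6⟩ := hgood p hp'.2 (by omega) (by omega)
      obtain ⟨k', hk1', hk2', hk3', hk4', hk5', hk6'⟩ := hgood q hq'.2 hqM (by omega)
      have hkk : k < k' := by
        rcases lt_trichotomy k k' with h | h | h
        · exact h
        · rw [h] at hk2; omega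
        · have := hmono k' hk1' k hk1 h
          omega
      have h7 := hmono (k' - 1) hk6' k' hk1' (by omega)
      have h8 : β (k' - 1) ≠ q := by
        intro h
        have := hk3' (k' - 1) hk6' h
        omega
      have h9 : β (k' - 1) ∈ T' := by
        refine Finset.mem_erase.2 ⟨by omega, Finset.mem_image.2 ⟨k' - 1, hk6', rfl⟩⟩
      have h10 : β (k' - 1) = p := by
        have h11 : β (k' - 1) ≤ p := by
          rcases hcons _ h9 with h | h <;> omega
        have h12 : p ≤ β (k' - 1) := by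
          rcases Nat.lt_or_ge k (k' - 1) with h | h
          · rw [← hk2]; exact hmono k hk1 (k' - 1) hk6' h
          · have : k = k' - 1 := by omega
            rw [← this, hk2]
        omega
      have h11 := hk3 (k' - 1) hk6' h10
      omega
  have hSsum : ∑ c ∈ T, (St.filter (fun k => β k = c)).card = St.card := by
    symm
    apply Finset.card_eq_sum_card_fiberwise
    intro k hk
    exact Finset.mem_coe.2 (Finset.mem_image.2 ⟨k, (Finset.mem_filter.1 (Finset.mem_coe.1 hk)).1, rfl⟩)
  have hVsum : ∑ c ∈ T', V c ≤ ∑ c ∈ T, V c :=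
    Finset.sum_le_sum_of_subset (Finset.erase_subset _ _)
  have hVsum2 : ∑ c ∈ T, V c = ∑ c ∈ T, (min (s c) 3 - min (s' c) 3 + g c) + St.card := by
    rw [← hSsum, ← Finset.sum_add_distrib]
  have hcardT : T'.card = T.card - 1 := Finset.card_erase_of_mem hM
  omega

/-- The number of runs. -/
theorem QNR_runs (S : ℕ → Bool) : ∀ (l : List ℕ) (prev : Bool), runs S prev l =
    ((Finset.range l.length).filter (fun k => S (l.getD k 0) = true ∧
      (if k = 0 then prev = false else S (l.getD (k - 1) 0) = false))).card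
  | [], prev => by simp [runs]
  | a :: l, prev => by
      rw [runs, QNR_runs S l (S a), Finset.card_filter, Finset.card_filter, List.length_cons,
        Finset.sum_range_succ', add_comm]
      congr 1
      · apply Finset.sum_congr rfl
        intro k _
        rcases Nat.eq_zero_or_pos k with rfl | hk
        · simp
        · obtain ⟨k', rfl⟩ : ∃ k', k = k' + 1 := ⟨k - 1, by omega⟩
          simp
      · cases h : S a <;> cases prev <;> simp [h]

theorem QNR_runs' (S : ℕ → Bool) (l : List ℕ) : runs S false l =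
    (((Finset.range l.length).filter (fun k => S (l.getD k 0) = true)).filter (fun k => k = 0 ∨
      k - 1 ∉ (Finset.range l.length).filter (fun k => S (l.getD k 0) = true))).card := by
  rw [QNR_runs, Finset.filter_filter]
  congr 1
  ext k
  simp only [Finset.mem_filter, Finset.mem_range]
  constructor
  · rintro ⟨h1, h2, h3⟩
    refine ⟨h1, h2, ?_⟩
    by_cases hk : k = 0
    · exact Or.inl hk
    · right
      rw [if_neg hk] at h3
      rintro ⟨_, h4⟩
      rw [h3] at h4
      exact absurd h4 (by simp)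
  · rintro ⟨h1, h2, h3⟩
    refine ⟨h1, h2, ?_⟩
    by_cases hk : k = 0
    · rw [if_pos hk]; trivial
    · rw [if_neg hk]
      rcases h3 with h3 | h3
      · exact absurd h3 hk
      · by_contra h4
        apply h3
        exact ⟨by omega, by simpa using h4⟩

theorem QNR_pair {l : List ℕ} {k : ℕ} (hk : k % 2 = 1) (hkl : k < l.length) :
    (l.getD (k - 1) 0, l.getD k 0) ∈ pairUp l := by
  have h1 : l = l.take (k - 1) ++ l[k - 1]'(by omega) :: l[k]'hkl :: l.drop (k + 1) := by
    conv_lhs => rw [← List.take_append_drop (k - 1) l]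
    rw [List.drop_eq_getElem_cons (i := k - 1) (by omega),
      List.drop_eq_getElem_cons (i := k - 1 + 1) (by omega)]
    have e : k - 1 + 1 = k := by omega
    simp only [e]
  have h2 : Even (l.take (k - 1)).length := by
    rw [List.length_take, Nat.min_eq_left (by omega), Nat.even_iff]
    omega
  have h3 := F1_pair_mem (l[k - 1]'(by omega)) (l[k]'hkl) (l.drop (k + 1)) _ h2
  rw [← h1] at h3
  rw [List.getD_eq_getElem _ _ hkl, List.getD_eq_getElem _ _ (by omega)]
  exact h3

theorem QNR_anc_trans {x z v : ℕ} {t : BinaryTree ℕ} (hb : IsBST t) (hm : x ∈ inorder t)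
    (hz : z ∈ ancs x t) (hv : v ∈ ancs z t) (hvx : v ≠ x) : v ∈ ancs x t := by
  have h1 := (mem_ancs hb hm).1 hz
  have h2 := (mem_ancs hb (onP_mem h1.1)).1 hv
  exact (mem_ancs hb hm).2 ⟨onP_trans hb h2.1 h1.1, hvx⟩

theorem QNR_up {x k k' : ℕ} {t : BinaryTree ℕ} (hb : IsBST t) (hm : x ∈ inorder t)
    (h : k < k') (h' : k' < (ancs x t).length) :
    OnP ((ancs x t).getD k' 0) ((ancs x t).getD k 0) t := by
  have h1 := List.pairwise_iff_getElem.1 (ancs_pairwise hb hm) k k' (by omega) h' h
  rw [List.getD_eq_getElem _ _ h', List.getD_eq_getElem _ _ (by omega)]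
  exact h1.1

/-- A node is not an ancestor of a node which lies above it. -/
theorem QNR_not_anc {x k k' : ℕ} {t : BinaryTree ℕ} (hb : IsBST t) (hm : x ∈ inorder t)
    (h : k < k') (h' : k' < (ancs x t).length) :
    (ancs x t).getD k 0 ∉ ancs ((ancs x t).getD k' 0) t := by
  intro h1
  have h2 := QNR_up hb hm h h'
  have h3 := (mem_ancs hb (onP_mem h2)).1 h1
  exact h3.2 (onP_antisymm hb h3.1 h2)

theorem QNR_getD_mem {l : List ℕ} {k : ℕ} (h : k < l.length) : l.getD k 0 ∈ l := by
  rw [List.getD_eq_getElem _ _ h]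
  exact List.getElem_mem h

theorem QNR_getD_inj {l : List ℕ} (hn : l.Nodup) {k k' : ℕ} (h : k < l.length)
    (h' : k' < l.length) (he : l.getD k 0 = l.getD k' 0) : k = k' := by
  rw [List.getD_eq_getElem _ _ h, List.getD_eq_getElem _ _ h'] at he
  exact (List.Nodup.getElem_inj_iff hn).1 he

theorem QNR {b j1 x : ℕ} {t : BinaryTree ℕ} (hb : IsBST t) (hm : x ∈ inorder t) (h0 : 0 < b)
    (hx : x < j1 * b) :
    qR b (j1 * b) x t + 2 * Ps b (x / b + 1) j1 (splay x t) +
      2 * ∑ i ∈ Finset.Ico (x / b + 1) j1, sig (i * b) ((i + 1) * b) (splay x t) ≤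
    2 * Ps b (x / b + 1) j1 t + 2 * ∑ i ∈ Finset.Ico (x / b + 1) j1, sig (i * b) ((i + 1) * b) t +
      2 * rn ((x / b + 1) * b) (j1 * b) x t + 1 := by
  classical
  set e := (x / b + 1) * b with he
  set hi := j1 * b with hhi
  set l := ancs x t with hl
  have hke : ∀ v, x / b < v / b ↔ e ≤ v := by
    intro v
    rw [he, ← Nat.le_div_iff_mul_le h0]
    exact Nat.lt_iff_add_one_le
  have hkh : ∀ v, v / b < j1 ↔ v < hi := fun v => Nat.div_lt_iff_lt_mul h0
  have hxe : x < e := by
    by_contra hcon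
    exact absurd ((hke x).2 (by omega)) (lt_irrefl _)
  have hehi : e ≤ hi := by
    rw [he, hhi]
    exact Nat.mul_le_mul_right b ((hkh x).2 hx)
  have hblk : ∀ i v, v / b = i ↔ i * b ≤ v ∧ v < (i + 1) * b := by
    intro i v
    constructor
    · intro h
      exact ⟨(Nat.le_div_iff_mul_le h0).1 (by omega), (Nat.div_lt_iff_lt_mul h0).1 (by omega)⟩
    · rintro ⟨h1, h2⟩
      have h3 := (Nat.le_div_iff_mul_le h0).2 h1
      have h4 := (Nat.div_lt_iff_lt_mul h0).2 h2
      omega
  have hnd : l.Nodup := ancs_nodup hb hm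
  set a : ℕ → ℕ := fun k => l.getD k 0 with ha
  set P := (Finset.range l.length).filter (fun k => (decide (e ≤ a k ∧ a k < hi)) = true) with hP
  have hmemP : ∀ k, k ∈ P ↔ k < l.length ∧ e ≤ a k ∧ a k < hi := by
    intro k
    rw [hP, Finset.mem_filter, Finset.mem_range, decide_eq_true_eq]
  have hanc : ∀ k ∈ P, a k ∈ ancs x t := fun k hk => QNR_getD_mem ((hmemP k).1 hk).1
  have hord : ∀ k ∈ P, ∀ k' ∈ P, k < k' → a k < a k' := by
    intro k hk k' hk' hkk
    have h1 := (hmemP k).1 hk
    have h2 := (hmemP k').1 hk'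
    have h3 := List.pairwise_iff_getElem.1 (ancs_order hb hm) k k' h1.1 h2.1 hkk
    have e1 : a k = (ancs x t)[k]'h1.1 := List.getD_eq_getElem _ _ h1.1
    have e2 : a k' = (ancs x t)[k']'h2.1 := List.getD_eq_getElem _ _ h2.1
    rw [e1, e2]
    refine h3.1 ?_ ?_
    · rw [← e1]; omega
    · rw [← e2]; omega
  set β : ℕ → ℕ := fun k => a k / b with hβ
  have hmono : ∀ k ∈ P, ∀ k' ∈ P, k < k' → β k ≤ β k' := fun k hk k' hk' hkk =>
    Nat.div_le_div_right (hord k hk k' hk' hkk).le
  set S := spn e hi t with hS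
  set S' := spn e hi (splay x t) with hS'
  have hsub : S' ⊆ S := spn_out hb hm hehi (Or.inl hxe)
  set s : ℕ → ℕ := fun c => (S.filter (fun v => v / b = c)).card with hs
  set s' : ℕ → ℕ := fun c => (S'.filter (fun v => v / b = c)).card with hs'
  set g : ℕ → ℕ := fun c => sig (c * b) ((c + 1) * b) t - sig (c * b) ((c + 1) * b) (splay x t)
    with hg
  have hTI : P.image β ⊆ Finset.Ico (x / b + 1) j1 := by
    intro c hc
    obtain ⟨k, hk, rfl⟩ := Finset.mem_image.1 hc
    have h1 := (hmemP k).1 hk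
    rw [Finset.mem_Ico]
    exact ⟨(hke _).2 h1.2.1, (hkh _).2 h1.2.2⟩
  have hxb : ∀ c ∈ Finset.Ico (x / b + 1) j1, x < c * b := by
    intro c hc
    rw [Finset.mem_Ico] at hc
    exact lt_of_lt_of_le hxe (by rw [he]; exact Nat.mul_le_mul_right b hc.1)
  -- h1
  have h1 : ∀ c ∈ P.image β, (∃ c' ∈ P.image β, c < c') →
      (∀ k ∈ P, β k = c → 0 < k ∧ k - 1 ∈ P) →
      s c = (P.filter (fun k => β k = c)).card ∧
      s' c ≤ (P.filter (fun k => β k = c ∧ k % 2 = 0)).card := by
    intro c hc hc' hns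
    obtain ⟨c', hc', hcc⟩ := hc'
    obtain ⟨kz, hkz, hkzc⟩ := Finset.mem_image.1 hc'
    set B := P.filter (fun k => β k = c) with hB
    have hBn : B.Nonempty := by
      obtain ⟨k, hk, hkc⟩ := Finset.mem_image.1 hc
      exact ⟨k, Finset.mem_filter.2 ⟨hk, hkc⟩⟩
    obtain ⟨m, hmB, hmin⟩ : ∃ m ∈ B, ∀ k ∈ B, m ≤ k :=
      ⟨_, Finset.min'_mem _ hBn, fun k hk => Finset.min'_le _ k hk⟩
    have hmP := Finset.mem_filter.1 hmB
    obtain ⟨hm0, hm1⟩ := hns m hmP.1 hmP.2
    have hzP := (hmemP kz).1 hkz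
    -- (1)
    have hSB : S.filter (fun v => v / b = c) = B.image a := by
      ext v
      rw [Finset.mem_filter, Finset.mem_image]
      constructor
      · rintro ⟨hv, hvc⟩
        have hvz : v < a kz := by
          by_contra hcon
          push Not at hcon
          have := Nat.div_le_div_right (c := b) hcon
          have h5 : a kz / b = c' := hkzc
          omega
        have hcI := Finset.mem_Ico.1 (hTI hc)
        have hve : e ≤ v := (hke v).1 (by omega)
        have hvhi : v < hi := (hkh v).1 (by omega)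
        have hva : v ∈ ancs x t := by
          by_contra hcon
          rw [hS, spn, Finset.mem_union, Finset.mem_filter, Finset.mem_filter] at hv
          rcases hv with ⟨hv1, _⟩ | ⟨hv1, _⟩
          · have h5 := Rg_below hb hm hxe hv1 hcon (hanc _ hm1) ((hmemP _).1 hm1).2.1
            have h6 : β (m - 1) ≠ c := by
              intro h
              have := hmin (m - 1) (Finset.mem_filter.2 ⟨hm1, h⟩)
              omega
            have h7 := hmono (m - 1) hm1 m hmP.1 (by omega)
            have h8 := Nat.div_le_div_right (c := b) h5.le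
            have h9 : β (m - 1) = a (m - 1) / b := rfl
            omega
          · have h5 := Lg_anc hb (onP_mem ((mem_ancs hb hm).1 (hanc kz hkz)).1) hzP.2.2 hv1 hvz
            exact hcon (QNR_anc_trans hb hm (hanc kz hkz) h5 (by omega))
        obtain ⟨k, hk, hkv⟩ := List.mem_iff_getElem.1 hva
        have hak : a k = v := by
          rw [← hkv]
          exact List.getD_eq_getElem _ _ hk
        refine ⟨k, Finset.mem_filter.2 ⟨(hmemP k).2 ⟨hk, by omega, by omega⟩, ?_⟩, hak⟩
        show a k / b = c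
        rw [hak, hvc]
      · rintro ⟨k, hk, rfl⟩
        obtain ⟨hkP, hkc⟩ := Finset.mem_filter.1 hk
        have h5 := (hmemP k).1 hkP
        refine ⟨?_, hkc⟩
        rw [hS, spn, Finset.mem_union, Finset.mem_filter]
        exact Or.inl ⟨anc_Rg hb hm hxe (hanc k hkP) h5.2.1, h5.2.2⟩
    have hinj : Set.InjOn a (B : Set ℕ) := by
      intro k hk k' hk' h
      have h5 := (hmemP k).1 (Finset.mem_filter.1 (Finset.mem_coe.1 hk)).1
      have h6 := (hmemP k').1 (Finset.mem_filter.1 (Finset.mem_coe.1 hk')).1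
      exact QNR_getD_inj hnd h5.1 h6.1 h
    constructor
    · show (S.filter (fun v => v / b = c)).card = B.card
      rw [hSB, Finset.card_image_of_injOn hinj]
    · show (S'.filter (fun v => v / b = c)).card ≤ _
      refine le_trans (Finset.card_le_card (t := (P.filter
        (fun k => β k = c ∧ k % 2 = 0)).image a) ?_) Finset.card_image_le
      intro v hv
      obtain ⟨hv1, hv2⟩ := Finset.mem_filter.1 hv
      have hv3 : v ∈ S.filter (fun v => v / b = c) := Finset.mem_filter.2 ⟨hsub hv1, hv2⟩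
      rw [hSB] at hv3
      obtain ⟨k, hk, rfl⟩ := Finset.mem_image.1 hv3
      obtain ⟨hkP, hkc⟩ := Finset.mem_filter.1 hk
      refine Finset.mem_image.2 ⟨k, Finset.mem_filter.2 ⟨hkP, hkc, ?_⟩, rfl⟩
      by_contra hodd
      have hodd' : k % 2 = 1 := by omega
      obtain ⟨hk0, hk1⟩ := hns k hkP hkc
      have h5 := (hmemP k).1 hkP
      have h6 := (hmemP (k - 1)).1 hk1
      have hpair : (a (k - 1), a k) ∈ pairUp (ancs x t) := QNR_pair hodd' h5.1
      have hkz' : k < kz := by
        rcases lt_trichotomy k kz with h | h | h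
        · exact h
        · rw [← h, hkc] at hkzc; omega
        · have := hmono kz hkz k hkP h
          omega
      rw [hS', spn, Finset.mem_union, Finset.mem_filter, Finset.mem_filter] at hv1
      rcases hv1 with ⟨hv1, _⟩ | ⟨hv1, _⟩
      · exact ((F1R hb hm hxe).1 hv1).2 ⟨a (k - 1), hpair, h6.2.1⟩
      · rcases (F2L hb hm hx).1 hv1 with h7 | ⟨_, h7 | ⟨g', h7, _⟩⟩
        · omega
        · have h8 := Lg_anc hb (onP_mem ((mem_ancs hb hm).1 (hanc kz hkz)).1) hzP.2.2 h7
            (hord k hkP kz hkz hkz')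
          exact QNR_not_anc hb hm hkz' hzP.1 h8
        · exact pairUp_fst_ne_snd hnd h7 hpair
  -- h2
  have h2 : ∀ k ∈ P, ∀ k' ∈ P, k < k' → k % 2 = 1 → k' % 2 = 1 → k - 1 ∈ P → k' - 1 ∈ P →
      β (k - 1) = β k → β k' = β k → β (k' - 1) = β k → 1 ≤ g (β k) := by
    intro k hk k' hk' hkk ho ho' hk1 hk1' e1 e2 e3
    set c := β k with hc
    have hcI : c ∈ Finset.Ico (x / b + 1) j1 := hTI (Finset.mem_image.2 ⟨k, hk, rfl⟩)
    have hxc := hxb c hcI
    have hkl := (hmemP k).1 hk
    have hkl' := (hmemP k').1 hk'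
    have hpop : 2 ≤ pop x (c * b) ((c + 1) * b) t := by
      unfold pop
      rw [if_pos hxc]
      have hin : ∀ j ∈ P, j % 2 = 1 → j - 1 ∈ P → β j = c → β (j - 1) = c →
          a j ∈ ((Rg (c * b) t).filter (fun v => v < (c + 1) * b)) \ Rg (c * b) (splay x t) := by
        intro j hj hjo hj1 hjc hjc1
        have h5 := (hblk c (a j)).1 hjc
        have h6 := (hblk c (a (j - 1))).1 hjc1
        rw [Finset.mem_sdiff, Finset.mem_filter]
        refine ⟨⟨anc_Rg hb hm hxc (hanc j hj) h5.1, h5.2⟩, ?_⟩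
        intro h7
        exact ((F1R hb hm hxc).1 h7).2 ⟨a (j - 1), QNR_pair hjo ((hmemP j).1 hj).1, h6.1⟩
      have h5 := hin k hk ho hk1 rfl e1
      have h6 := hin k' hk' ho' hk1' e2 e3
      have hne : a k ≠ a k' := by
        intro h
        have := QNR_getD_inj hnd hkl.1 hkl'.1 h
        omega
      exact Finset.one_lt_card.2 ⟨a k, h5, a k', h6, hne⟩
    have h5 := FS1 hb hm (Nat.mul_le_mul_right b (Nat.le_succ c)) (Or.inl hxc)
    show 1 ≤ sig (c * b) ((c + 1) * b) t - sig (c * b) ((c + 1) * b) (splay x t)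
    have h6 : min 1 (pop x (c * b) ((c + 1) * b) t) ≤ 1 := min_le_left _ _
    have h5' : sig (c * b) ((c + 1) * b) (splay x t) + pop x (c * b) ((c + 1) * b) t ≤
        sig (c * b) ((c + 1) * b) t + min 1 (pop x (c * b) ((c + 1) * b) t) := h5
    omega
  have hcore := QNR_core (P := P) (β := β) (s := s) (s' := s') (g := g) hmono h1 h2
  have hrn : rn e hi x t = (P.filter (fun k => k = 0 ∨ k - 1 ∉ P)).card := by
    unfold rn
    exact QNR_runs' _ _
  have hq : qR b hi x t = (P.image β).card := by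
    unfold qR
    congr 1
    ext c
    simp only [List.mem_toFinset, List.mem_map, List.mem_filter, Finset.mem_image,
      decide_eq_true_eq]
    constructor
    · rintro ⟨v, ⟨hv, h5, h6⟩, rfl⟩
      obtain ⟨k, hk, hkv⟩ := List.mem_iff_getElem.1 hv
      have hak : a k = v := by
        rw [← hkv]
        exact List.getD_eq_getElem _ _ hk
      refine ⟨k, (hmemP k).2 ⟨hk, ?_, ?_⟩, ?_⟩
      · rw [hak]; exact (hke v).1 h5
      · rw [hak]; exact h6
      · show a k / b = v / b
        rw [hak]
    · rintro ⟨k, hk, rfl⟩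
      have h5 := (hmemP k).1 hk
      exact ⟨a k, ⟨hanc k hk, (hke _).2 h5.2.1, h5.2.2⟩, rfl⟩
  have hsumT : ∑ c ∈ P.image β, (min (s c) 3 - min (s' c) 3 + g c) ≤
      ∑ c ∈ Finset.Ico (x / b + 1) j1, (min (s c) 3 - min (s' c) 3 + g c) :=
    Finset.sum_le_sum_of_subset hTI
  have hsumI : ∑ c ∈ Finset.Ico (x / b + 1) j1, (min (s c) 3 - min (s' c) 3 + g c) =
      ∑ c ∈ Finset.Ico (x / b + 1) j1, (min (s c) 3 - min (s' c) 3) +
      ∑ c ∈ Finset.Ico (x / b + 1) j1, g c := Finset.sum_add_distrib
  have hss : ∀ c, s' c ≤ s c := fun c => Finset.card_le_card (Finset.filter_subset_filter _ hsub)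
  have hsum1 : ∑ c ∈ Finset.Ico (x / b + 1) j1, min (s' c) 3 +
      ∑ c ∈ Finset.Ico (x / b + 1) j1, (min (s c) 3 - min (s' c) 3) =
      ∑ c ∈ Finset.Ico (x / b + 1) j1, min (s c) 3 := by
    rw [← Finset.sum_add_distrib]
    refine Finset.sum_congr rfl (fun c _ => ?_)
    have := hss c
    omega
  have hsum2 : ∑ c ∈ Finset.Ico (x / b + 1) j1, sig (c * b) ((c + 1) * b) (splay x t) +
      ∑ c ∈ Finset.Ico (x / b + 1) j1, g c =
      ∑ c ∈ Finset.Ico (x / b + 1) j1, sig (c * b) ((c + 1) * b) t := by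
    rw [← Finset.sum_add_distrib]
    refine Finset.sum_congr rfl (fun c hc => ?_)
    have h5 := FS1 hb hm (Nat.mul_le_mul_right b (Nat.le_succ c)) (Or.inl (hxb c hc))
    have h5' : sig (c * b) ((c + 1) * b) (splay x t) + pop x (c * b) ((c + 1) * b) t ≤
        sig (c * b) ((c + 1) * b) t + min 1 (pop x (c * b) ((c + 1) * b) t) := h5
    show _ + (sig (c * b) ((c + 1) * b) t - sig (c * b) ((c + 1) * b) (splay x t)) = _
    omega
  have hPs : Ps b (x / b + 1) j1 t = ∑ c ∈ Finset.Ico (x / b + 1) j1, min (s c) 3 := rfl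
  have hPs' : Ps b (x / b + 1) j1 (splay x t) =
      ∑ c ∈ Finset.Ico (x / b + 1) j1, min (s' c) 3 := rfl
  rw [hq, hrn, hPs, hPs']
  omega

end Pool.Agent.SplAll
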