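import Pool.Agent.SplAll.Defs

set_option autoImplicit false

/-!
SPNOUT.  Requests outside an interval only remove spine nodes.

Proof of `spn_out`, case x < a.  `F1R` (c := a): R'(a) ⊆ R(a).  Let v ∈ L'(a'), a ≤ v.  By `F2L` (c := a'; v ≠ x
as x < a ≤ v): v ∈ L(a') (fine) or there is g with (v, g) ∈ pairUp (ancs x t), v < g, g ∈ L(a').  In the second case v is
an ancestor of x (`mem_pairUp`), a ≤ v, so v ∈ R(a) (`anc_Rg`) and v < g < a': v is a spine node.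
Case a' ≤ x: mirror image (`F1L` for the gap a', `F2R` for the gap a, `anc_Lg`).
`Ps_out`: for i0 ≤ i1 by `spn_out` and monotonicity of card and min; if i1 < i0 both sides are 0.
-/

namespace Pool.Agent.SplAll

open BinaryTree Pool.Agent.MP_c42954_lc.Scan Pool.Agent.SplPat

theorem spn_out {a a' x : ℕ} {t : BinaryTree ℕ} (hb : IsBST t) (hm : x ∈ inorder t) (h : a ≤ a')
    (hx : x < a ∨ a' ≤ x) : spn a a' (splay x t) ⊆ spn a a' t := by
  intro v hv
  unfold spn at hv ⊢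
  rw [Finset.mem_union, Finset.mem_filter, Finset.mem_filter] at hv ⊢
  rcases hx with hx | hx
  · rcases hv with ⟨h1, h2⟩ | ⟨h1, h2⟩
    · exact Or.inl ⟨((F1R hb hm hx).1 h1).1, h2⟩
    · rcases (F2L hb hm (lt_of_lt_of_le hx h)).1 h1 with h3 | ⟨h3, h4 | ⟨g, h4, h5, h6⟩⟩
      · omega
      · exact Or.inr ⟨h4, h2⟩
      · exact Or.inl ⟨anc_Rg hb hm hx (mem_pairUp h4).1 h2, lt_trans h5 (mem_Lg.1 h6).2⟩
  · rcases hv with ⟨h1, h2⟩ | ⟨h1, h2⟩
    · rcases (F2R hb hm (h.trans hx)).1 h1 with h3 | ⟨h3, h4 | ⟨g, h4, h5, h6⟩⟩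
      · omega
      · exact Or.inl ⟨h4, h2⟩
      · exact Or.inr ⟨anc_Lg hb hm hx (mem_pairUp h4).1 h2, le_trans (mem_Rg.1 h6).2 h5.le⟩
    · exact Or.inr ⟨((F1L hb hm hx).1 h1).1, h2⟩

theorem Ps_out {b i0 i1 x : ℕ} {t : BinaryTree ℕ} (hb : IsBST t) (hm : x ∈ inorder t)
    (hx : x < i0 * b ∨ i1 * b ≤ x) : Ps b i0 i1 (splay x t) ≤ Ps b i0 i1 t := by
  unfold Ps
  by_cases hi : i0 ≤ i1
  · apply Finset.sum_le_sum
    intro i _
    have h1 : ((spn (i0 * b) (i1 * b) (splay x t)).filter (fun v => v / b = i)).card ≤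
        ((spn (i0 * b) (i1 * b) t).filter (fun v => v / b = i)).card :=
      Finset.card_le_card (Finset.filter_subset_filter _
        (spn_out hb hm (Nat.mul_le_mul_right b hi) hx))
    omega
  · rw [Finset.Ico_eq_empty (by omega), Finset.sum_empty, Finset.sum_empty]

theorem Ps_le {b i0 i1 : ℕ} {t : BinaryTree ℕ} : Ps b i0 i1 t ≤ 3 * (i1 - i0) := by
  unfold Ps
  refine (Finset.sum_le_card_nsmul _ _ 3 (fun i _ => min_le_right _ _)).trans ?_
  rw [Nat.card_Ico, smul_eq_mul, mul_comm]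

end Pool.Agent.SplAll
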