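import Pool.Agent.SplAll.AStep
import Pool.Agent.SplAll.BStep
import Pool.Agent.SplAll.Cnt
import Pool.Agent.SplAll.Col

set_option autoImplicit false

/-!
STEP.  `STEP` (one request): ASTEP + 12 times, for every level j < l (b = N^j): `BOUT` for the groups i ≠ x / N^j / N,
and for the group i = x / N^j / N: `BIN` if cur j i = x / N^j, `BSW` otherwise (upd N cur x j i = x / N^j there, and
upd N cur x j i = cur j i for the other groups).  Σ_j q_j + Σ_j Σ_i QJ' ≤ Σ_j Σ_i QJ + 28 l + (7N + 16) sw.  So the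
constant is 28 (l+1) + 12 * 28 l ≤ 364 (l+1) and the coefficient of sw is 12 (7N + 16) = 84 N + 192.
The index x / N^j / N is < M since x < N^l ≤ M.
`INIT`: per level: Σ_i QJ ≤ 2 n + 4 n + 4 n + 0 (n = number of keys): `Ps_sum`, `sig_sum` (Σ_i Σ_{c in group i} sig = sum
over the blocks c < M N; sig of the groups: `sig_sum` with N * N^j), and pt = 0 for cur = colf (`pt_top`, `pt_none`:
with the key c = highest key of the group, k = c / N^j, k N^j ≤ c < (k+1) N^j).  So 12 * 10 n l + 2 n l + 6 * 2 n (l+1) ≤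
134 n (l+1).
`TOTAL`: induction over X for arbitrary valid cur, with M = N^l: splayCost X T ≤ PHI + (364 (l+1) + 1) |X| + (84N+192) SW
(the keys are preserved: `splay_inorder`, `splay_bst`; upd N cur x is valid: (x / N^j) / N = x / N^j / N), then INIT.
-/

namespace Pool.Agent.SplAll

open BinaryTree Pool.Agent.MP_c42954_lc.Scan Pool.Agent.SplPat

/-- One level. -/
theorem Step_lvl {N j M x : ℕ} {cur : ℕ → ℕ → ℕ} {t : BinaryTree ℕ} (hb : IsBST t)
    (hm : x ∈ inorder t) (hN : 2 ≤ N) (hx : x / N ^ j / N < M) (hc : ∀ j i, cur j i / N = i) :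
    qq (N ^ j) N x t + ∑ i ∈ Finset.range M, QJ (N ^ j) N i (upd N cur x j i) (splay x t) ≤
      ∑ i ∈ Finset.range M, QJ (N ^ j) N i (cur j i) t + 28 +
        (7 * N + 16) * (if cur j (x / N ^ j / N) ≠ x / N ^ j then 1 else 0) := by
  have hN0 : 0 < N ^ j := Nat.pos_of_ne_zero (by positivity)
  have hN1 : 0 < N := by omega
  have hmem : x / N ^ j / N ∈ Finset.range M := Finset.mem_range.2 hx
  rw [← Finset.add_sum_erase _ _ hmem, ← Finset.add_sum_erase _ (fun i => QJ (N ^ j) N i (cur j i) t) hmem]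
  have h1 : ∑ i ∈ (Finset.range M).erase (x / N ^ j / N),
      QJ (N ^ j) N i (upd N cur x j i) (splay x t) ≤
      ∑ i ∈ (Finset.range M).erase (x / N ^ j / N), QJ (N ^ j) N i (cur j i) t := by
    refine Finset.sum_le_sum fun i hi => ?_
    rw [Finset.mem_erase] at hi
    have : upd N cur x j i = cur j i := by simp only [upd, if_neg hi.1]
    rw [this]
    exact BOUT hb hm hN0 hN1 (hc j i) (fun h => hi.1 h.symm)
  have h2 : upd N cur x j (x / N ^ j / N) = x / N ^ j := by simp only [upd, if_true]
  rw [h2]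
  by_cases h3 : cur j (x / N ^ j / N) = x / N ^ j
  · have h4 := BIN (N := N) hb hm hN0 hN1
    rw [if_neg (not_not.2 h3), h3]
    omega
  · have h4 := BSW (k := cur j (x / N ^ j / N)) hb hm hN0 hN1 (hc j _)
    rw [if_pos h3]
    omega

theorem STEP {N l M x : ℕ} {cur : ℕ → ℕ → ℕ} {t : BinaryTree ℕ} (hb : IsBST t)
    (hm : x ∈ inorder t) (hN : 2 ≤ N) (hM : ∀ v ∈ inorder t, v < N ^ l) (hM2 : N ^ l ≤ M)
    (hc : ∀ j i, cur j i / N = i) :
    depth x t + PHI N l M (upd N cur x) (splay x t) ≤
      PHI N l M cur t + 364 * (l + 1) + (84 * N + 192) * sw N l cur x := by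
  have hA := ASTEP (M := M) hb hm hN hM hM2
  have hxM : x < M := lt_of_lt_of_le (hM x hm) hM2
  have hB : ∑ j ∈ Finset.range l, (qq (N ^ j) N x t +
      ∑ i ∈ Finset.range M, QJ (N ^ j) N i (upd N cur x j i) (splay x t)) ≤
      ∑ j ∈ Finset.range l, (∑ i ∈ Finset.range M, QJ (N ^ j) N i (cur j i) t + 28 +
        (7 * N + 16) * (if cur j (x / N ^ j / N) ≠ x / N ^ j then 1 else 0)) := by
    refine Finset.sum_le_sum fun j _ => Step_lvl hb hm hN ?_ hc
    exact lt_of_le_of_lt ((Nat.div_le_self _ _).trans (Nat.div_le_self _ _)) hxM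
  have hsw : sw N l cur x =
      ∑ j ∈ Finset.range l, (if cur j (x / N ^ j / N) ≠ x / N ^ j then 1 else 0) := by
    rw [sw, Finset.card_filter]
  simp only [Finset.sum_add_distrib, ← Finset.mul_sum, ← hsw, Finset.sum_const, Finset.card_range,
    smul_eq_mul] at hB
  simp only [PHI, Finset.sum_add_distrib, ← Finset.mul_sum]
  have e : (84 * N + 192) * sw N l cur x = 12 * ((7 * N + 16) * sw N l cur x) := by ring
  rw [e]
  omega

theorem Step_pt {N j i : ℕ} {t : BinaryTree ℕ} (hb : IsBST t) (hN : 2 ≤ N) :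
    pt (i * N * N ^ j) (colf (fun v => v) N t j i * N ^ j) ((colf (fun v => v) N t j i + 1) * N ^ j)
      ((i + 1) * N * N ^ j) t = 0 := by
  have hN0 : 0 < N ^ j := Nat.pos_of_ne_zero (by positivity)
  unfold colf
  cases h : tpf (fun v => v) (i * N * N ^ j) ((i + 1) * N * N ^ j) t with
  | none =>
    dsimp only
    refine pt_none hb h le_rfl ?_
    refine Nat.mul_le_mul_right _ ?_
    rw [add_mul]
    omega
  | some a =>
    dsimp only
    refine pt_top hb h (Nat.div_mul_le_self _ _) ?_
    rw [mul_comm]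
    exact Nat.lt_mul_div_succ a hN0

theorem Step_blocks (f : ℕ → ℕ) (N M : ℕ) :
    ∑ i ∈ Finset.range M, ∑ c ∈ Finset.Ico (i * N) ((i + 1) * N), f c =
      ∑ c ∈ Finset.range (M * N), f c := by
  induction M with
  | zero => simp
  | succ M ih =>
    rw [Finset.sum_range_succ, ih, Finset.range_eq_Ico, Finset.range_eq_Ico]
    exact Finset.sum_Ico_consecutive f (Nat.zero_le _) (Nat.mul_le_mul_right _ (Nat.le_succ _))

theorem INIT {N l M : ℕ} {t : BinaryTree ℕ} (hb : IsBST t) (hN : 2 ≤ N) :
    PHI N l M (colf (fun v => v) N t) t ≤ 134 * (l + 1) * (inorder t).length := by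
  have h1 : ∀ j, ∑ i ∈ Finset.range M, QJ (N ^ j) N i (colf (fun v => v) N t j i) t ≤
      10 * (inorder t).length := by
    intro j
    have hN0 : 0 < N ^ j := Nat.pos_of_ne_zero (by positivity)
    have hN1 : 0 < N := by omega
    have k1 := Ps_sum (b := N ^ j) (N := N) (M := M) (cur := fun i => colf (fun v => v) N t j i) hb hN0
      hN1 (fun i => colf_valid hN1 j i)
    have k2 := sig_sum (b := N ^ j) (M := M * N) hb hN0
    rw [← Step_blocks] at k2
    have k3 := sig_sum (b := N * N ^ j) (M := M) hb (by positivity)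
    have k4 : ∑ i ∈ Finset.range M, sig (i * N * N ^ j) ((i + 1) * N * N ^ j) t =
        ∑ i ∈ Finset.range M, sig (i * (N * N ^ j)) ((i + 1) * (N * N ^ j)) t := by
      simp only [mul_assoc]
    simp only [QJ, Step_pt hb hN, mul_zero, add_zero, Finset.sum_add_distrib, ← Finset.mul_sum]
    simp only [Finset.sum_add_distrib] at k1
    omega
  have h2 : ∀ j, ∑ i ∈ Finset.range M, edg (N ^ j) (res (i * N * N ^ j) ((i + 1) * N * N ^ j) t) ≤
      (inorder t).length := by
    intro j
    have k := edg_sum (b := N ^ j) (B := N * N ^ j) (M := M) hb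
    simp only [mul_assoc]
    exact k
  have h3 : ∑ j ∈ Finset.range (l + 1), ∑ i ∈ Finset.range M, sig (i * N ^ j) ((i + 1) * N ^ j) t ≤
      (l + 1) * (2 * (inorder t).length) := by
    refine (Finset.sum_le_card_nsmul _ _ _ fun j _ =>
      sig_sum hb (Nat.pos_of_ne_zero (by positivity))).trans ?_
    rw [Finset.card_range, smul_eq_mul]
  have h4 : ∑ j ∈ Finset.range l, ∑ i ∈ Finset.range M,
      (12 * QJ (N ^ j) N i (colf (fun v => v) N t j i) t +
        2 * edg (N ^ j) (res (i * N * N ^ j) ((i + 1) * N * N ^ j) t)) ≤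
      l * (122 * (inorder t).length) := by
    refine (Finset.sum_le_card_nsmul _ _ (122 * (inorder t).length) fun j _ => ?_).trans ?_
    · rw [Finset.sum_add_distrib, ← Finset.mul_sum, ← Finset.mul_sum]
      have := h1 j
      have := h2 j
      omega
    · rw [Finset.card_range, smul_eq_mul]
  unfold PHI
  have e1 : l * (122 * (inorder t).length) = 122 * (l * (inorder t).length) := by ring
  have e2 : (l + 1) * (2 * (inorder t).length) = 2 * (l * (inorder t).length) + 2 * (inorder t).length := by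
    ring
  have e3 : 134 * (l + 1) * (inorder t).length =
      134 * (l * (inorder t).length) + 134 * (inorder t).length := by ring
  rw [e1] at h4
  rw [e2] at h3
  rw [e3]
  omega

theorem Step_run {N l : ℕ} (hN : 2 ≤ N) : ∀ (X : List ℕ) (T : BinaryTree ℕ) (cur : ℕ → ℕ → ℕ),
    IsBST T → (∀ x ∈ X, x ∈ inorder T) → (∀ v ∈ inorder T, v < N ^ l) → (∀ j i, cur j i / N = i) →
    splayCost X T ≤ PHI N l (N ^ l) cur T + (364 * (l + 1) + 1) * X.length +
      (84 * N + 192) * SW N l cur X := by
  intro X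
  induction X with
  | nil =>
    intro T cur _ _ _ _
    simp [splayCost]
  | cons x X ih =>
    intro T cur hb hX hM hc
    have hm : x ∈ inorder T := hX x (by simp)
    have h1 := STEP hb hm hN hM le_rfl hc
    have h2 := ih (splay x T) (upd N cur x) (splay_bst hb hm)
      (fun y hy => by rw [splay_inorder hb hm]; exact hX y (by simp [hy]))
      (fun v hv => hM v (by rw [splay_inorder hb hm] at hv; exact hv))
      (fun j i => by
        unfold upd
        split_ifs with h
        · exact h.symm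
        · exact hc j i)
    simp only [splayCost, SW, List.length_cons]
    have e1 : (84 * N + 192) * (sw N l cur x + SW N l (upd N cur x) X) =
      (84 * N + 192) * sw N l cur x + (84 * N + 192) * SW N l (upd N cur x) X := by ring
    have e2 : (364 * (l + 1) + 1) * (X.length + 1) =
      (364 * (l + 1) + 1) * X.length + 364 * (l + 1) + 1 := by ring
    rw [e1, e2]
    omega

theorem TOTAL {N l : ℕ} (hN : 2 ≤ N) {T : BinaryTree ℕ} {X : List ℕ} (hb : IsBST T)
    (hX : ∀ x ∈ X, x ∈ inorder T) (hM : ∀ v ∈ inorder T, v < N ^ l) :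
    splayCost X T ≤ 134 * (l + 1) * (inorder T).length + (364 * (l + 1) + 1) * X.length +
      (84 * N + 192) * SW N l (colf (fun v => v) N T) X := by
  have h1 := Step_run hN X T (colf (fun v => v) N T) hb hX hM
    (fun j i => colf_valid (by omega) j i)
  have h2 := INIT (l := l) (M := N ^ l) hb hN
  omega

end Pool.Agent.SplAll
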